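import Pool.Agent.MP_b90f02_an.Charts

set_option autoImplicit false

open Complex Set Topology
open scoped Manifold ContDiff ComplexConjugate

namespace Pool.Agent.MP_b90f02

lemma rad_pos_of_lt {J : ℝ × ℝ} (h : J.1 < J.2) : 0 < rad J := by
  unfold rad
  linarith

namespace Region

variable (G : Region)

lemma rad_pos {J : ℝ × ℝ} (hJ : J ∈ G.side) : 0 < rad J := rad_pos_of_lt (G.side_lt J hJ)

/-- The condition defining the points of `G.X`. -/
def Valid (q : ℂ) (s : Bool) : Prop :=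
  (∃ z ∈ G.Y, G.E z = q) ∧ (s = false → ∃ z ∈ G.D, G.E z = q)

/-- Some point of `G.X`. -/
noncomputable def x0 : G.X :=
  ⟨G.E G.D_nonempty.some, true, ⟨_, G.D_subset_Y G.D_nonempty.some_mem, rfl⟩, by simp⟩

open Classical in
/-- The point of `G.X` given by a pair, if the pair is admissible (and `G.x0` otherwise). -/
noncomputable def pt (q : ℂ) (s : Bool) : G.X :=
  if h : G.Valid q s then ⟨q, s, h.1, h.2⟩ else G.x0

lemma pt_q {q : ℂ} {s : Bool} (h : G.Valid q s) : (G.pt q s).q = q := by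
  unfold pt
  rw [dif_pos h]

lemma pt_isFront {q : ℂ} {s : Bool} (h : G.Valid q s) : (G.pt q s).isFront = s := by
  unfold pt
  rw [dif_pos h]

lemma pt_eq (x : G.X) {q : ℂ} {s : Bool} (h1 : x.q = q) (h2 : x.isFront = s) :
    G.pt q s = x := by
  subst h1 h2
  have hv : G.Valid x.q x.isFront := ⟨x.mem_Y, x.mem_D⟩
  ext
  · rw [G.pt_q hv]
  · rw [G.pt_isFront hv]

lemma valid_true {z : ℂ} (hz : z ∈ G.Y) : G.Valid (G.E z) true :=
  ⟨⟨z, hz, rfl⟩, by simp⟩

lemma valid_false {z : ℂ} (hz : z ∈ G.D) : G.Valid (G.E z) false :=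
  ⟨⟨z, G.D_subset_Y hz, rfl⟩, fun _ => ⟨z, hz, rfl⟩⟩

/-- The chart on the front copy of the open region. -/
noncomputable def front : PartialEquiv G.X ℂ where
  toFun x := x.q
  invFun q := G.pt q true
  source := {x | x.isFront = true ∧ x.q ∈ G.E '' G.D}
  target := G.E '' G.D
  map_source' := fun x hx => hx.2
  map_target' := by
    rintro q ⟨z, hz, rfl⟩
    have hv := G.valid_true (G.D_subset_Y hz)
    exact ⟨G.pt_isFront hv, z, hz, (G.pt_q hv).symm⟩
  left_inv' := by
    rintro x ⟨hx, -⟩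
    exact G.pt_eq _ rfl hx
  right_inv' := by
    rintro q ⟨z, hz, rfl⟩
    exact G.pt_q (G.valid_true (G.D_subset_Y hz))

/-- The chart on the back copy of the open region. -/
noncomputable def back : PartialEquiv G.X ℂ where
  toFun x := conj x.q
  invFun q := G.pt (conj q) false
  source := {x | x.isFront = false}
  target := {q | conj q ∈ G.E '' G.D}
  map_source' := by
    intro x hx
    rw [mem_ofPred_eq, conj_conj]
    obtain ⟨z, hz, h⟩ := x.mem_D hx
    exact ⟨z, hz, h⟩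
  map_target' := by
    rintro q ⟨z, hz, h⟩
    rw [mem_ofPred_eq, ← h, G.pt_isFront (G.valid_false hz)]
  left_inv' := by
    rintro x hx
    exact G.pt_eq _ (conj_conj _).symm hx
  right_inv' := by
    rintro q ⟨z, hz, h⟩
    rw [← h, G.pt_q (G.valid_false hz), h, conj_conj]

/-- The chart around the side `J`. -/
noncomputable def sideChart (J : ℝ × ℝ) (hJ : J ∈ G.side) : PartialEquiv G.X ℂ where
  toFun x := if x.isFront = true then G.L J x.q else refl J (G.L J x.q)
  invFun w := if rad J ^ 2 ≤ normSq (w - cen J) then G.pt (G.E w) true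
    else G.pt (G.E (refl J w)) false
  source := {x | ∃ z ∈ G.Y ∩ strip J, G.E z = x.q}
  target := {w | 0 < w.im ∧ (rad J ^ 2 ≤ normSq (w - cen J) → w ∈ G.V ∩ strip J) ∧
    (normSq (w - cen J) < rad J ^ 2 → refl J w ∈ G.V ∩ strip J)}
  map_source' := by
    rintro x ⟨z, ⟨hz, hzs⟩, h⟩
    have hzY := (G.mem_Y_iff hJ hzs).1 hz
    have hr := G.rad_pos hJ
    rw [← h, G.L_E hJ hzs]
    cases hx : x.isFront with
    | true =>
      simp only [if_true]
      exact ⟨hzY.1, fun _ => ⟨hzY.2.1, hzs⟩, fun h' => absurd hzY.2.2 (not_le.2 h')⟩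
    | false =>
      obtain ⟨w, hw, hw'⟩ := x.mem_D hx
      have hzD : z ∈ G.D := G.mem_D_of_E (h.trans hw'.symm) hw
      have hzD' := (G.mem_D_iff hJ hzs).1 hzD
      simp only [Bool.false_eq_true, if_false]
      refine ⟨refl_im_pos hr hzY.1, fun h' => ?_, fun _ => ?_⟩
      · exact absurd h' (not_le.2 (normSq_refl_lt hr hzY.1 hzD'.2.2))
      · rw [refl_refl hr hzY.1]
        exact ⟨hzY.2.1, hzs⟩
  map_target' := by
    rintro w ⟨h1, h2, h3⟩
    have hr := G.rad_pos hJ
    by_cases h : rad J ^ 2 ≤ normSq (w - cen J)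
    · have hwY : w ∈ G.Y := (G.mem_Y_iff hJ (h2 h).2).2 ⟨h1, (h2 h).1, h⟩
      rw [if_pos h, mem_ofPred_eq, G.pt_q (G.valid_true hwY)]
      exact ⟨w, ⟨hwY, (h2 h).2⟩, rfl⟩
    · push Not at h
      have hwD : refl J w ∈ G.D := (G.mem_D_iff hJ (h3 h).2).2
        ⟨refl_im_pos hr h1, (h3 h).1, lt_normSq_refl hr h1 h⟩
      rw [if_neg (not_le.2 h), mem_ofPred_eq, G.pt_q (G.valid_false hwD)]
      exact ⟨refl J w, ⟨G.D_subset_Y hwD, (h3 h).2⟩, rfl⟩
  left_inv' := by
    rintro x ⟨z, ⟨hz, hzs⟩, h⟩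
    have hzY := (G.mem_Y_iff hJ hzs).1 hz
    have hr := G.rad_pos hJ
    rw [← h, G.L_E hJ hzs]
    cases hx : x.isFront with
    | true =>
      simp only [if_true]
      rw [if_pos hzY.2.2]
      exact G.pt_eq _ h.symm hx
    | false =>
      obtain ⟨w, hw, hw'⟩ := x.mem_D hx
      have hzD : z ∈ G.D := G.mem_D_of_E (h.trans hw'.symm) hw
      have hzD' := (G.mem_D_iff hJ hzs).1 hzD
      simp only [Bool.false_eq_true, if_false]
      rw [if_neg (not_le.2 (normSq_refl_lt hr hzY.1 hzD'.2.2)), refl_refl hr hzY.1]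
      exact G.pt_eq _ h.symm hx
  right_inv' := by
    rintro w ⟨h1, h2, h3⟩
    have hr := G.rad_pos hJ
    by_cases h : rad J ^ 2 ≤ normSq (w - cen J)
    · have hwY : w ∈ G.Y := (G.mem_Y_iff hJ (h2 h).2).2 ⟨h1, (h2 h).1, h⟩
      rw [if_pos h, G.pt_q (G.valid_true hwY), G.pt_isFront (G.valid_true hwY)]
      simp only [if_true]
      exact G.L_E hJ (h2 h).2
    · push Not at h
      have hwD : refl J w ∈ G.D := (G.mem_D_iff hJ (h3 h).2).2
        ⟨refl_im_pos hr h1, (h3 h).1, lt_normSq_refl hr h1 h⟩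
      rw [if_neg (not_le.2 h), G.pt_q (G.valid_false hwD), G.pt_isFront (G.valid_false hwD)]
      simp only [Bool.false_eq_true, if_false]
      rw [G.L_E hJ (h3 h).2, refl_refl hr h1]

end Region

end Pool.Agent.MP_b90f02
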