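import Pool.Agent.MP_b90f02_an.Quad

set_option autoImplicit false

/-!
# Sequences of pairs of geodesics
-/

namespace Pool.Agent.MP_b90f02

/-- A sequence of pairs of geodesics such that in each step one geodesic of the pair is kept and
the other one is replaced by a geodesic starting at its inner end point. -/
structure Chain (Q : ℕ → Quad) : Prop where
  good : ∀ n, (Q n).Good
  step : ∀ n, ((Q (n + 1)).a = (Q n).b ∧ (Q (n + 1)).c = (Q n).c ∧ (Q (n + 1)).d = (Q n).d) ∨
    ((Q (n + 1)).d = (Q n).c ∧ (Q (n + 1)).a = (Q n).a ∧ (Q (n + 1)).b = (Q n).b)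

namespace Chain

variable {Q : ℕ → Quad} (hQ : Chain Q)

include hQ

lemma b_mono : Monotone (fun n => (Q n).b) := by
  apply monotone_nat_of_le_succ
  intro n
  have h2 := hQ.good (n + 1)
  rcases hQ.step n with h | h
  · rw [← h.1]
    exact h2.1.le
  · rw [h.2.2]

lemma c_anti : Antitone (fun n => (Q n).c) := by
  apply antitone_nat_of_succ_le
  intro n
  have h2 := hQ.good (n + 1)
  rcases hQ.step n with h | h
  · rw [h.2.1]
  · rw [← h.1]
    exact h2.2.2.le

lemma a_mono : Monotone (fun n => (Q n).a) := by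
  apply monotone_nat_of_le_succ
  intro n
  have h1 := hQ.good n
  rcases hQ.step n with h | h
  · rw [h.1]
    exact h1.1.le
  · rw [h.2.1]

lemma d_anti : Antitone (fun n => (Q n).d) := by
  apply antitone_nat_of_succ_le
  intro n
  have h1 := hQ.good n
  rcases hQ.step n with h | h
  · rw [h.2.2]
  · rw [h.1]
    exact h1.2.2.le

lemma b_lt_c (n k : ℕ) : (Q n).b < (Q k).c := by
  have h1 := hQ.b_mono (le_max_left n k)
  have h2 := hQ.c_anti (le_max_right n k)
  have h3 := (hQ.good (max n k)).2.1
  simp only at h1 h2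
  linarith

lemma left_or {n k : ℕ} (h : n ≤ k) :
    ((Q k).a = (Q n).a ∧ (Q k).b = (Q n).b) ∨ (Q n).b ≤ (Q k).a := by
  induction k, h using Nat.le_induction with
  | base => exact Or.inl ⟨rfl, rfl⟩
  | succ k hk ih =>
    rcases hQ.step k with h | h
    · right
      rw [h.1]
      exact hQ.b_mono hk
    · rw [h.2.1, h.2.2]
      exact ih

lemma right_or {n k : ℕ} (h : n ≤ k) :
    ((Q k).c = (Q n).c ∧ (Q k).d = (Q n).d) ∨ (Q k).d ≤ (Q n).c := by
  induction k, h using Nat.le_induction with
  | base => exact Or.inl ⟨rfl, rfl⟩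
  | succ k hk ih =>
    rcases hQ.step k with h | h
    · rw [h.2.1, h.2.2]
      exact ih
    · right
      rw [h.1]
      exact hQ.c_anti hk

end Chain

/-- The pairs of geodesics of a flute surface with lengths `l`, where the new cusp is on the left
if `e n = true` and on the right if `e n = false`. -/
noncomputable def quadRec (l : ℕ → ℝ) (e : ℕ → Bool) : ℕ → Quad
  | 0 => ⟨-1, 0, Real.cosh (l 0 / 4) - 1, Real.cosh (l 0 / 4)⟩
  | n + 1 => (quadRec l e n).next (Real.sinh (l (n + 1) / 4) ^ 2) (e n)

section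

variable {l : ℕ → ℝ} (hl : ∀ n, 0 < l n) (e : ℕ → Bool)

include hl

lemma sinhSq_pos (n : ℕ) : 0 < Real.sinh (l n / 4) ^ 2 := by
  have : 0 < Real.sinh (l n / 4) := Real.sinh_pos_iff.2 (by linarith [hl n])
  positivity

lemma quadRec_good (n : ℕ) : (quadRec l e n).Good := by
  induction n with
  | zero =>
    have : 1 < Real.cosh (l 0 / 4) := by
      rw [Real.one_lt_cosh]
      linarith [hl 0]
    unfold quadRec
    exact ⟨by simp, by simp only; linarith, by simp only; linarith⟩
  | succ n ih => exact Quad.next_good ih (sinhSq_pos hl _) _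

lemma quadRec_cross (n : ℕ) : (quadRec l e n).Cross (Real.sinh (l n / 4) ^ 2) := by
  cases n with
  | zero =>
    have h := Real.cosh_sq (l 0 / 4)
    unfold quadRec Quad.Cross
    simp only
    nlinarith
  | succ n => exact Quad.next_cross (quadRec_good hl e n) (sinhSq_pos hl _) _

end

end Pool.Agent.MP_b90f02
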