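import Pool.Agent.MP_b90f02_an.Region

set_option autoImplicit false

open Complex Set Topology
open scoped Manifold ContDiff ComplexConjugate

namespace Pool.Agent.MP_b90f02

/-- Reflection in the geodesic with end points `J.1`, `J.2`. -/
noncomputable def refl (J : ℝ × ℝ) (z : ℂ) : ℂ :=
  cen J + (rad J : ℂ) ^ 2 / conj (z - cen J)

lemma sub_cen_ne {J : ℝ × ℝ} {z : ℂ} (hz : 0 < z.im) : z - cen J ≠ 0 := by
  intro h
  have : (z - cen J).im = 0 := by rw [h]; simp
  simp at this
  exact hz.ne' this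

lemma normSq_sub_cen_pos {J : ℝ × ℝ} {z : ℂ} (hz : 0 < z.im) : 0 < normSq (z - cen J) :=
  normSq_pos.2 (sub_cen_ne hz)

lemma refl_sub {J : ℝ × ℝ} {z : ℂ} (hz : 0 < z.im) :
    refl J z - cen J = ((rad J ^ 2 / normSq (z - cen J) : ℝ) : ℂ) * (z - cen J) := by
  unfold refl
  have h1 : z - cen J ≠ 0 := sub_cen_ne hz
  have h2 : conj (z - cen J) ≠ 0 := (map_ne_zero _).2 h1
  have h3 : ((normSq (z - cen J) : ℝ) : ℂ) ≠ 0 := by
    exact_mod_cast (normSq_sub_cen_pos hz).ne'
  push_cast
  rw [add_sub_cancel_left, div_eq_iff h2, div_mul_eq_mul_div, div_mul_eq_mul_div, mul_assoc,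
    mul_conj, mul_div_assoc, div_self h3, mul_one]

lemma refl_im {J : ℝ × ℝ} {z : ℂ} (hz : 0 < z.im) :
    (refl J z).im = rad J ^ 2 / normSq (z - cen J) * z.im := by
  have h := congrArg Complex.im (refl_sub (J := J) hz)
  rw [Complex.im_ofReal_mul] at h
  simpa using h

lemma refl_re {J : ℝ × ℝ} {z : ℂ} (hz : 0 < z.im) :
    (refl J z).re - cen J = rad J ^ 2 / normSq (z - cen J) * (z.re - cen J) := by
  have h := congrArg Complex.re (refl_sub (J := J) hz)
  rw [Complex.re_ofReal_mul] at h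
  simpa using h

lemma refl_im_pos {J : ℝ × ℝ} (hJ : 0 < rad J) {z : ℂ} (hz : 0 < z.im) : 0 < (refl J z).im := by
  rw [refl_im hz]
  have := normSq_sub_cen_pos (J := J) hz
  positivity

lemma normSq_refl {J : ℝ × ℝ} {z : ℂ} (hz : 0 < z.im) :
    normSq (refl J z - cen J) * normSq (z - cen J) = rad J ^ 2 * rad J ^ 2 := by
  rw [refl_sub hz, map_mul, normSq_ofReal]
  have := (normSq_sub_cen_pos (J := J) hz).ne'
  field_simp

lemma refl_refl {J : ℝ × ℝ} (hJ : 0 < rad J) {z : ℂ} (hz : 0 < z.im) :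
    refl J (refl J z) = z := by
  have h1 : 0 < (refl J z).im := refl_im_pos hJ hz
  have h2 := refl_sub (J := J) h1
  have h3 : ((rad J ^ 2 / normSq (refl J z - cen J) : ℝ) : ℂ) *
      ((rad J ^ 2 / normSq (z - cen J) : ℝ) : ℂ) = 1 := by
    rw [← ofReal_mul]
    have h4 := normSq_refl (J := J) hz
    have h5 := (normSq_sub_cen_pos (J := J) hz).ne'
    have h6 := (normSq_sub_cen_pos (J := J) h1).ne'
    rw [div_mul_div_comm, h4, div_self, ofReal_one]
    positivity
  have h7 : refl J (refl J z) - cen J = z - cen J := by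
    rw [h2]
    conv_lhs => rw [refl_sub (J := J) hz, ← mul_assoc]
    rw [← refl_sub (J := J) hz, h3, one_mul]
  exact sub_left_injective h7

lemma refl_eq_self {J : ℝ × ℝ} {z : ℂ} (hz : 0 < z.im)
    (h : normSq (z - cen J) = rad J ^ 2) : refl J z = z := by
  have h2 := refl_sub (J := J) hz
  have h5 := (normSq_sub_cen_pos (J := J) hz).ne'
  rw [← h, div_self h5, ofReal_one, one_mul] at h2
  exact sub_left_injective h2

lemma lt_normSq_refl {J : ℝ × ℝ} (hJ : 0 < rad J) {z : ℂ} (hz : 0 < z.im)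
    (h : normSq (z - cen J) < rad J ^ 2) : rad J ^ 2 < normSq (refl J z - cen J) := by
  have h1 := normSq_refl (J := J) hz
  have h2 := normSq_sub_cen_pos (J := J) hz
  have h3 : 0 < rad J ^ 2 := by positivity
  by_contra hcon
  push Not at hcon
  nlinarith

lemma normSq_refl_lt {J : ℝ × ℝ} (hJ : 0 < rad J) {z : ℂ} (hz : 0 < z.im)
    (h : rad J ^ 2 < normSq (z - cen J)) : normSq (refl J z - cen J) < rad J ^ 2 := by
  have h1 := normSq_refl (J := J) hz
  have h2 := normSq_sub_cen_pos (J := J) hz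
  have h3 : 0 < rad J ^ 2 := by positivity
  by_contra hcon
  push Not at hcon
  nlinarith

lemma mem_strip_of_normSq_le {J : ℝ × ℝ} (hJ : 0 < rad J) {z : ℂ} (hz : 0 < z.im)
    (h : normSq (z - cen J) ≤ rad J ^ 2) : z ∈ Region.strip J := by
  rw [Region.normSq_sub_real] at h
  have h1 : (z.re - cen J) ^ 2 < rad J ^ 2 := by nlinarith
  have h2 := abs_lt_of_sq_lt_sq h1 hJ.le
  rw [abs_lt] at h2
  unfold cen rad at h2
  constructor
  · linarith [h2.1]
  · linarith [h2.2]

lemma continuousAt_refl {J : ℝ × ℝ} {z : ℂ} (hz : 0 < z.im) : ContinuousAt (refl J) z := by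
  unfold refl
  have h1 : conj (z - cen J) ≠ 0 := (map_ne_zero _).2 (sub_cen_ne (J := J) hz)
  have h2 : ContinuousAt (fun z : ℂ => conj (z - cen J)) z := by
    apply Continuous.continuousAt
    fun_prop
  exact continuousAt_const.add (continuousAt_const.div h2 h1)

namespace Region

variable (G : Region)

/-- Inverse of `E` on the strip over `J`. -/
noncomputable def L (J : ℝ × ℝ) (q : ℂ) : ℂ :=
  cen J + G.lam / (2 * Real.pi * Complex.I) *
    log (q * exp (-(2 * Real.pi * Complex.I * cen J / G.lam)))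

lemma strip_exp {J : ℝ × ℝ} (hJ : J ∈ G.side) {z : ℂ} (hz : z ∈ strip J) :
    G.E z * exp (-(2 * Real.pi * Complex.I * cen J / G.lam)) =
      exp (2 * Real.pi * Complex.I * (z - cen J) / G.lam) ∧
    -Real.pi < (2 * Real.pi * Complex.I * (z - cen J) / G.lam).im ∧
    (2 * Real.pi * Complex.I * (z - cen J) / G.lam).im < Real.pi := by
  have hl := G.lam_pos
  have hw := G.side_width J hJ
  have hpi := Real.pi_pos
  refine ⟨?_, ?_⟩
  · unfold E
    rw [← Complex.exp_add]
    congr 1
    ring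
  · have h1 : (2 * Real.pi * Complex.I * (z - cen J) / G.lam).im =
        Real.pi * (2 * (z.re - cen J) / G.lam) := by
      have : (2 * Real.pi * Complex.I * (z - cen J) / G.lam : ℂ) =
          ((2 * Real.pi / G.lam : ℝ) : ℂ) * (Complex.I * (z - cen J)) := by
        push_cast
        ring
      rw [this, Complex.im_ofReal_mul]
      simp
      ring
    rw [h1]
    obtain ⟨z1, z2⟩ := hz
    have h2 : -1 < 2 * (z.re - cen J) / G.lam := by
      rw [lt_div_iff₀ hl]
      unfold cen
      linarith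
    have h3 : 2 * (z.re - cen J) / G.lam < 1 := by
      rw [div_lt_iff₀ hl]
      unfold cen
      linarith
    constructor
    · nlinarith
    · nlinarith

lemma L_E {J : ℝ × ℝ} (hJ : J ∈ G.side) {z : ℂ} (hz : z ∈ strip J) : G.L J (G.E z) = z := by
  obtain ⟨h1, h2, h3⟩ := G.strip_exp hJ hz
  unfold L
  rw [h1, log_exp h2 h3.le]
  have h4 := G.lamC_ne
  have h5 := twoPiI_ne
  field_simp
  ring

lemma slit {J : ℝ × ℝ} (hJ : J ∈ G.side) {z : ℂ} (hz : z ∈ strip J) :
    G.E z * exp (-(2 * Real.pi * Complex.I * cen J / G.lam)) ∈ slitPlane := by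
  obtain ⟨h1, h2, h3⟩ := G.strip_exp hJ hz
  rw [h1]
  exact expOpenPartialHomeomorph.map_source (⟨h2, h3⟩ : _ ∈ {z : ℂ | z.im ∈ Ioo (-Real.pi) Real.pi})

lemma differentiableAt_L {J : ℝ × ℝ} (hJ : J ∈ G.side) {z : ℂ} (hz : z ∈ strip J) :
    DifferentiableAt ℂ (G.L J) (G.E z) := by
  unfold L
  have h := G.slit hJ hz
  refine DifferentiableAt.const_add _ (DifferentiableAt.const_mul ?_ _)
  exact DifferentiableAt.clog (differentiableAt_id.mul_const _) h

lemma differentiable_E : Differentiable ℂ G.E := by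
  unfold E
  fun_prop

lemma continuous_E : Continuous G.E := G.differentiable_E.continuous

lemma isOpenMap_E : IsOpenMap G.E := by
  have h1 : IsOpenMap (fun z : ℂ => (2 * Real.pi * Complex.I / G.lam) * z) := by
    have : (2 * Real.pi * Complex.I / G.lam : ℂ) ≠ 0 := div_ne_zero twoPiI_ne G.lamC_ne
    exact (Homeomorph.mulLeft₀ _ this).isOpenMap
  have h2 := Complex.isOpenMap_exp.comp h1
  convert h2 using 1
  ext z
  unfold E
  simp only [Function.comp]
  congr 1
  ring

end Region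

end Pool.Agent.MP_b90f02
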