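import Pool.Agent.MP_b90f02_an.Atlas

set_option autoImplicit false

open Complex Set Topology
open scoped Manifold ContDiff ComplexConjugate

namespace Pool.Agent.MP_b90f02

/-- Two charts are compatible: the coordinate change has open domain and is holomorphic. -/
def Compat {X : Type*} (e e' : PartialEquiv X ℂ) : Prop :=
  IsOpen (e.symm.trans e').source ∧ DifferentiableOn ℂ (e.symm.trans e') (e.symm.trans e').source

lemma compat_of {X : Type*} {e e' : PartialEquiv X ℂ} (S : Set ℂ) (hS : IsOpen S) (f : ℂ → ℂ)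
    (hf : ∀ z ∈ S, DifferentiableAt ℂ f z)
    (hsrc : ∀ z, (z ∈ e.target ∧ e.symm z ∈ e'.source) ↔ z ∈ S)
    (heq : ∀ z ∈ S, e' (e.symm z) = f z) : Compat e e' := by
  have h1 : (e.symm.trans e').source = S := by
    rw [PartialEquiv.trans_source, PartialEquiv.symm_source]
    ext z
    exact hsrc z
  constructor
  · rw [h1]
    exact hS
  · rw [h1]
    refine DifferentiableOn.congr (fun z hz => (hf z hz).differentiableWithinAt) ?_
    intro z hz
    rw [PartialEquiv.coe_trans]
    exact heq z hz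

lemma compat_refl {X : Type*} {e : PartialEquiv X ℂ} (h : IsOpen e.target) : Compat e e := by
  refine compat_of e.target h id (fun z _ => differentiableAt_id) ?_ ?_
  · intro z
    exact ⟨fun h => h.1, fun h => ⟨h, e.map_target h⟩⟩
  · intro z hz
    exact e.right_inv hz

lemma compat_empty {X : Type*} {e e' : PartialEquiv X ℂ}
    (h : ∀ z, z ∈ e.target → e.symm z ∉ e'.source) : Compat e e' := by
  refine compat_of ∅ isOpen_empty id (fun z _ => differentiableAt_id) ?_ ?_
  · intro z
    exact ⟨fun h' => absurd h'.2 (h z h'.1), fun h' => absurd h' (notMem_empty z)⟩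
  · intro z hz
    exact absurd hz (notMem_empty z)

lemma differentiableAt_conj_comp {f : ℂ → ℂ} {z : ℂ} (h : DifferentiableAt ℂ f (conj z)) :
    DifferentiableAt ℂ (fun w => conj (f (conj w))) z := by
  have := h.conj_conj
  rw [conj_conj] at this
  exact this

lemma refl_eq_conj (J : ℝ × ℝ) (z : ℂ) :
    refl J z = cen J + (rad J : ℂ) ^ 2 / (conj z - cen J) := by
  unfold refl
  rw [map_sub, conj_ofReal]

namespace Region

variable (G : Region)

lemma isOpen_Q : IsOpen (G.E '' G.D) := G.isOpenMap_E _ G.D_open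

lemma continuous_normSq_sub (c : ℝ) : Continuous (fun z : ℂ => normSq (z - c)) :=
  continuous_normSq.comp (continuous_id.sub continuous_const)

lemma isOpen_DJ (J : ℝ × ℝ) : IsOpen (G.D ∩ strip J) := G.D_open.inter (isOpen_strip J)

/-- Pull back of open sets under the reflection, inside the open half plane. -/
lemma isOpen_refl_preimage (J : ℝ × ℝ) {U : Set ℂ} (hU : IsOpen U) :
    IsOpen {w : ℂ | 0 < w.im ∧ refl J w ∈ U} := by
  have h1 : IsOpen {w : ℂ | 0 < w.im} := isOpen_lt continuous_const continuous_im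
  have h2 : ContinuousOn (refl J) {w : ℂ | 0 < w.im} := fun w hw =>
    (continuousAt_refl hw).continuousWithinAt
  exact h2.isOpen_inter_preimage h1 hU

/-- The part of the domain of a side chart coming from the back copy. -/
def backPart (J : ℝ × ℝ) : Set ℂ :=
  {w : ℂ | (0 < w.im ∧ refl J w ∈ G.V ∩ strip J) ∧ normSq (w - cen J) < rad J ^ 2}

lemma isOpen_backPart (J : ℝ × ℝ) : IsOpen (G.backPart J) :=
  (isOpen_refl_preimage J (G.V_open.inter (isOpen_strip J))).inter
    (isOpen_lt (continuous_normSq_sub _) continuous_const)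

lemma isOpen_sideTarget {J : ℝ × ℝ} (hJ : J ∈ G.side) : IsOpen (G.sideChart J hJ).target := by
  have hr := G.rad_pos hJ
  have h1 : (G.sideChart J hJ).target =
      ({w : ℂ | 0 < w.im ∧ w ∈ G.V ∩ strip J} ∩ {w | rad J ^ 2 < normSq (w - cen J)}) ∪
      G.backPart J ∪
      ({w : ℂ | 0 < w.im ∧ refl J w ∈ G.V ∩ strip J} ∩ (G.V ∩ strip J)) := by
    ext w
    constructor
    · rintro ⟨h1, h2, h3⟩
      rcases lt_trichotomy (normSq (w - cen J)) (rad J ^ 2) with h | h | h
      · exact Or.inl (Or.inr ⟨⟨h1, h3 h⟩, h⟩)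
      · refine Or.inr ⟨⟨h1, ?_⟩, h2 h.ge⟩
        rw [refl_eq_self h1 h]
        exact h2 h.ge
      · exact Or.inl (Or.inl ⟨⟨h1, h2 h.le⟩, h⟩)
    · rintro ((⟨⟨h1, h2⟩, h3⟩ | ⟨⟨h1, h2⟩, h3⟩) | ⟨⟨h1, h2⟩, h3⟩)
      · exact ⟨h1, fun _ => h2, fun h => absurd h (not_lt.2 (le_of_lt h3))⟩
      · exact ⟨h1, fun h => absurd h3 (not_lt.2 h), fun _ => h2⟩
      · exact ⟨h1, fun _ => h3, fun _ => h2⟩
  rw [h1]
  have him : IsOpen {w : ℂ | 0 < w.im} := isOpen_lt continuous_const continuous_im
  refine ((IsOpen.inter ?_ ?_).union (G.isOpen_backPart J)).union (IsOpen.inter ?_ ?_)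
  · exact him.inter (G.V_open.inter (isOpen_strip J))
  · exact isOpen_lt continuous_const (continuous_normSq_sub _)
  · exact isOpen_refl_preimage J (G.V_open.inter (isOpen_strip J))
  · exact G.V_open.inter (isOpen_strip J)

lemma backPart_iff {J : ℝ × ℝ} (hJ : J ∈ G.side) {w : ℂ} (hw : w ∈ G.backPart J) :
    refl J w ∈ G.D := by
  obtain ⟨⟨h1, h2⟩, h3⟩ := hw
  exact (G.mem_D_iff hJ h2.2).2 ⟨refl_im_pos (G.rad_pos hJ) h1, h2.1,
    lt_normSq_refl (G.rad_pos hJ) h1 h3⟩

lemma compat_front_back : Compat G.front G.back := by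
  apply compat_empty
  rintro _ ⟨z, hz, rfl⟩ h
  have h' : (G.pt (G.E z) true).isFront = false := h
  rw [G.pt_isFront (G.valid_true (G.D_subset_Y hz))] at h'
  exact absurd h' (by simp)

lemma compat_back_front : Compat G.back G.front := by
  apply compat_empty
  rintro q ⟨z, hz, hzq⟩ h
  have h' : (G.pt (conj q) false).isFront = true := h.1
  rw [← hzq, G.pt_isFront (G.valid_false hz)] at h'
  exact absurd h' (by simp)

lemma compat_front_side {J : ℝ × ℝ} (hJ : J ∈ G.side) :
    Compat G.front (G.sideChart J hJ) := by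
  refine compat_of (G.E '' (G.D ∩ strip J)) (G.isOpenMap_E _ (G.isOpen_DJ J)) (G.L J) ?_ ?_ ?_
  · rintro _ ⟨z, hz, rfl⟩
    exact G.differentiableAt_L hJ hz.2
  · intro q
    constructor
    · rintro ⟨⟨z, hz, rfl⟩, ⟨w, hw, h⟩⟩
      have h' : G.E w = (G.pt (G.E z) true).q := h
      rw [G.pt_q (G.valid_true (G.D_subset_Y hz))] at h'
      exact ⟨w, ⟨G.mem_D_of_E h' hz, hw.2⟩, h'⟩
    · rintro ⟨z, hz, rfl⟩
      refine ⟨⟨z, hz.1, rfl⟩, z, ⟨G.D_subset_Y hz.1, hz.2⟩, ?_⟩
      exact (G.pt_q (G.valid_true (G.D_subset_Y hz.1))).symm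
  · rintro _ ⟨z, hz, rfl⟩
    have hv := G.valid_true (G.D_subset_Y hz.1)
    change (if (G.pt (G.E z) true).isFront = true then G.L J (G.pt (G.E z) true).q else _) = _
    rw [G.pt_isFront hv, if_pos rfl, G.pt_q hv]

lemma compat_back_side {J : ℝ × ℝ} (hJ : J ∈ G.side) :
    Compat G.back (G.sideChart J hJ) := by
  refine compat_of {q | conj q ∈ G.E '' (G.D ∩ strip J)}
    ((G.isOpenMap_E _ (G.isOpen_DJ J)).preimage continuous_conj)
    (fun q => refl J (G.L J (conj q))) ?_ ?_ ?_
  · rintro q ⟨z, hz, hzq⟩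
    have h1 : DifferentiableAt ℂ (fun w => conj (G.L J (conj w))) q := by
      apply differentiableAt_conj_comp
      rw [← hzq]
      exact G.differentiableAt_L hJ hz.2
    have h2 : (fun q => refl J (G.L J (conj q))) =
        fun q => (cen J : ℂ) + (rad J : ℂ) ^ 2 / (conj (G.L J (conj q)) - cen J) := by
      ext q
      exact refl_eq_conj J _
    rw [h2]
    refine DifferentiableAt.const_add _ (DifferentiableAt.div (differentiableAt_const _)
      (h1.sub_const _) ?_)
    rw [← hzq, G.L_E hJ hz.2, ← conj_ofReal (cen J), ← map_sub]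
    exact (map_ne_zero _).2 (sub_cen_ne (G.D_subset_Y hz.1).1)
  · intro q
    constructor
    · rintro ⟨⟨z, hz, hzq⟩, ⟨w, hw, h⟩⟩
      have h' : G.E w = (G.pt (conj q) false).q := h
      rw [← hzq, G.pt_q (G.valid_false hz)] at h'
      exact ⟨w, ⟨G.mem_D_of_E h' hz, hw.2⟩, h'.trans hzq⟩
    · rintro ⟨z, hz, hzq⟩
      refine ⟨⟨z, hz.1, hzq⟩, z, ⟨G.D_subset_Y hz.1, hz.2⟩, ?_⟩
      change _ = (G.pt (conj q) false).q
      rw [← hzq, G.pt_q (G.valid_false hz.1)]
  · rintro q ⟨z, hz, hzq⟩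
    have hv := G.valid_false hz.1
    change (if (G.pt (conj q) false).isFront = true then _ else
      refl J (G.L J (G.pt (conj q) false).q)) = _
    rw [← hzq, G.pt_isFront hv, if_neg (by simp), G.pt_q hv]

lemma compat_side_front {J : ℝ × ℝ} (hJ : J ∈ G.side) :
    Compat (G.sideChart J hJ) G.front := by
  have hr := G.rad_pos hJ
  refine compat_of (G.D ∩ strip J) (G.isOpen_DJ J) G.E
    (fun z _ => G.differentiable_E z) ?_ ?_
  · intro w
    constructor
    · rintro ⟨⟨h1, h2, h3⟩, h4⟩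
      have h5 : (if rad J ^ 2 ≤ normSq (w - cen J) then G.pt (G.E w) true
        else G.pt (G.E (refl J w)) false).isFront = true ∧
        (if rad J ^ 2 ≤ normSq (w - cen J) then G.pt (G.E w) true
        else G.pt (G.E (refl J w)) false).q ∈ G.E '' G.D := h4
      by_cases h : rad J ^ 2 ≤ normSq (w - cen J)
      · have hwY : w ∈ G.Y := (G.mem_Y_iff hJ (h2 h).2).2 ⟨h1, (h2 h).1, h⟩
        rw [if_pos h, G.pt_q (G.valid_true hwY)] at h5
        obtain ⟨z, hz, hz'⟩ := h5.2
        exact ⟨G.mem_D_of_E hz'.symm hz, (h2 h).2⟩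
      · push Not at h
        have hwD : refl J w ∈ G.D := G.backPart_iff hJ ⟨⟨h1, h3 h⟩, h⟩
        rw [if_neg (not_le.2 h), G.pt_isFront (G.valid_false hwD)] at h5
        exact absurd h5.1 (by simp)
    · rintro ⟨h1, h2⟩
      have h3 := (G.mem_D_iff hJ h2).1 h1
      have hv := G.valid_true (G.D_subset_Y h1)
      refine ⟨⟨h3.1, fun _ => ⟨h3.2.1, h2⟩, fun h => absurd h (not_lt.2 h3.2.2.le)⟩, ?_⟩
      change (if rad J ^ 2 ≤ normSq (w - cen J) then G.pt (G.E w) true
        else G.pt (G.E (refl J w)) false) ∈ G.front.source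
      rw [if_pos h3.2.2.le]
      exact ⟨G.pt_isFront hv, w, h1, (G.pt_q hv).symm⟩
  · rintro w ⟨h1, h2⟩
    have h3 := (G.mem_D_iff hJ h2).1 h1
    have hv := G.valid_true (G.D_subset_Y h1)
    change (if rad J ^ 2 ≤ normSq (w - cen J) then G.pt (G.E w) true
        else G.pt (G.E (refl J w)) false).q = _
    rw [if_pos h3.2.2.le, G.pt_q hv]

lemma compat_side_back {J : ℝ × ℝ} (hJ : J ∈ G.side) :
    Compat (G.sideChart J hJ) G.back := by
  have hr := G.rad_pos hJ
  refine compat_of (G.backPart J) (G.isOpen_backPart J) (fun w => conj (G.E (refl J w))) ?_ ?_ ?_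
  · rintro w ⟨⟨h1, h2⟩, h3⟩
    have h4 : (fun w => conj (G.E (refl J w))) =
        fun w => conj ((fun v => G.E (cen J + (rad J : ℂ) ^ 2 / (v - cen J))) (conj w)) := by
      ext w
      simp only
      rw [refl_eq_conj]
    rw [h4]
    refine differentiableAt_conj_comp
      (f := fun v => G.E (cen J + (rad J : ℂ) ^ 2 / (v - cen J))) ?_
    have h5 : conj w - cen J ≠ 0 := by
      rw [← conj_ofReal (cen J), ← map_sub]
      exact (map_ne_zero _).2 (sub_cen_ne h1)
    have h6 : DifferentiableAt ℂ (fun v : ℂ => (cen J : ℂ) + (rad J : ℂ) ^ 2 / (v - cen J))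
        (conj w) := by
      have h7 : DifferentiableAt ℂ (fun v : ℂ => v - (cen J : ℂ)) (conj w) :=
        differentiableAt_id.sub_const _
      exact DifferentiableAt.const_add _ ((differentiableAt_const _).div h7 h5)
    exact DifferentiableAt.comp (g := G.E) (conj w) (G.differentiable_E _) h6
  · intro w
    constructor
    · rintro ⟨⟨h1, h2, h3⟩, h4⟩
      have h5 : (if rad J ^ 2 ≤ normSq (w - cen J) then G.pt (G.E w) true
        else G.pt (G.E (refl J w)) false).isFront = false := h4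
      by_cases h : rad J ^ 2 ≤ normSq (w - cen J)
      · have hwY : w ∈ G.Y := (G.mem_Y_iff hJ (h2 h).2).2 ⟨h1, (h2 h).1, h⟩
        rw [if_pos h, G.pt_isFront (G.valid_true hwY)] at h5
        exact absurd h5 (by simp)
      · push Not at h
        exact ⟨⟨h1, h3 h⟩, h⟩
    · intro hw
      have hwD := G.backPart_iff hJ hw
      obtain ⟨⟨h1, h2⟩, h3⟩ := hw
      refine ⟨⟨h1, fun h => absurd h3 (not_lt.2 h), fun _ => h2⟩, ?_⟩
      change (if rad J ^ 2 ≤ normSq (w - cen J) then G.pt (G.E w) true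
        else G.pt (G.E (refl J w)) false).isFront = false
      rw [if_neg (not_le.2 h3), G.pt_isFront (G.valid_false hwD)]
  · intro w hw
    have hwD := G.backPart_iff hJ hw
    obtain ⟨⟨h1, h2⟩, h3⟩ := hw
    change conj (if rad J ^ 2 ≤ normSq (w - cen J) then G.pt (G.E w) true
        else G.pt (G.E (refl J w)) false).q = _
    rw [if_neg (not_le.2 h3), G.pt_q (G.valid_false hwD)]

/-- Points in the strips over sides are separated by `E`. -/
lemma strip_inj {J K : ℝ × ℝ} (hJ : J ∈ G.side) (hK : K ∈ G.side) {z w : ℂ}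
    (hz : z ∈ strip J) (hw : w ∈ strip K) (h : G.E z = G.E w) : z = w := by
  obtain ⟨k, hk⟩ := G.E_eq_iff.1 h
  have hl := G.lam_pos
  have a1 := G.side_nonneg J hJ
  have a2 := G.side_le J hJ
  have b1 := G.side_nonneg K hK
  have b2 := G.side_le K hK
  have hre : z.re = w.re + k * G.lam := by
    have := congrArg Complex.re hk
    simpa using this
  obtain ⟨z1, z2⟩ := hz
  obtain ⟨w1, w2⟩ := hw
  have hk0 : k = 0 := by
    rcases lt_trichotomy k 0 with h' | h' | h'
    · exfalso
      have : (k : ℝ) ≤ -1 := by exact_mod_cast Int.le_sub_one_of_lt h'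
      nlinarith
    · exact h'
    · exfalso
      have : (1 : ℝ) ≤ k := by exact_mod_cast h'
      nlinarith
  rw [hk, hk0]
  simp

lemma strip_unique {J K : ℝ × ℝ} (hJ : J ∈ G.side) (hK : K ∈ G.side) {z w : ℂ}
    (hz : z ∈ strip J) (hw : w ∈ strip K) (h : G.E z = G.E w) : J = K := by
  have := G.strip_inj hJ hK hz hw h
  subst this
  obtain ⟨z1, z2⟩ := hz
  obtain ⟨w1, w2⟩ := hw
  rcases G.side_disj J hJ K hK with h | h | h
  · exact h
  · linarith
  · linarith

lemma compat_side_side {J K : ℝ × ℝ} (hJ : J ∈ G.side) (hK : K ∈ G.side) :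
    Compat (G.sideChart J hJ) (G.sideChart K hK) := by
  by_cases hJK : J = K
  · subst hJK
    exact compat_refl (G.isOpen_sideTarget hJ)
  · apply compat_empty
    intro w hw hw'
    have h1 := (G.sideChart J hJ).map_target hw
    obtain ⟨z, hz, h⟩ := h1
    obtain ⟨z', hz', h'⟩ := hw'
    exact hJK (G.strip_unique hJ hK hz.2 hz'.2 (h.trans h'.symm))

/-- The charts of the double. -/
def charts : Set (PartialEquiv G.X ℂ) :=
  {e | e = G.front ∨ e = G.back ∨ ∃ J, ∃ hJ : J ∈ G.side, e = G.sideChart J hJ}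

lemma compat_charts {e e' : PartialEquiv G.X ℂ} (he : e ∈ G.charts) (he' : e' ∈ G.charts) :
    Compat e e' := by
  rcases he with rfl | rfl | ⟨J, hJ, rfl⟩ <;> rcases he' with rfl | rfl | ⟨K, hK, rfl⟩
  · exact compat_refl G.isOpen_Q
  · exact G.compat_front_back
  · exact G.compat_front_side hK
  · exact G.compat_back_front
  · exact compat_refl (G.isOpen_Q.preimage continuous_conj)
  · exact G.compat_back_side hK
  · exact G.compat_side_front hJ
  · exact G.compat_side_back hJ
  · exact G.compat_side_side hJ hK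

lemma exists_side (x : G.X) (_ : x.isFront = true) (h2 : x.q ∉ G.E '' G.D) :
    ∃ J, ∃ hJ : J ∈ G.side, x ∈ (G.sideChart J hJ).source := by
  obtain ⟨z, hz, hzq⟩ := x.mem_Y
  have hzD : z ∉ G.D := fun h => h2 ⟨z, h, hzq⟩
  have h3 : ∃ J ∈ G.side, ∃ k : ℤ,
      normSq (z - ((cen J + k * G.lam : ℝ) : ℂ)) = rad J ^ 2 := by
    by_contra hcon
    push Not at hcon
    apply hzD
    exact ⟨hz.1, hz.2.1, fun J hJ k => lt_of_le_of_ne (hz.2.2 J hJ k) (hcon J hJ k).symm⟩
  obtain ⟨J, hJ, k, h4⟩ := h3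
  refine ⟨J, hJ, z + ((-k : ℤ) : ℂ) * G.lam, ⟨(G.Y_add (-k)).2 hz, ?_⟩, ?_⟩
  · apply mem_strip_of_normSq_le (G.rad_pos hJ)
    · simpa using hz.1
    · apply le_of_eq
      rw [← h4]
      congr 1
      push_cast
      ring
  · rw [← hzq]
    exact G.E_eq_iff.2 ⟨-k, rfl⟩

open Classical in
/-- The preferred chart at a point. -/
noncomputable def chart (x : G.X) : PartialEquiv G.X ℂ :=
  if h1 : x.isFront = true then
    if h2 : x.q ∈ G.E '' G.D then G.front
    else G.sideChart (G.exists_side x h1 h2).choose (G.exists_side x h1 h2).choose_spec.choose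
  else G.back

lemma mem_chart_source (x : G.X) : x ∈ (G.chart x).source := by
  unfold chart
  by_cases h1 : x.isFront = true
  · rw [dif_pos h1]
    by_cases h2 : x.q ∈ G.E '' G.D
    · rw [dif_pos h2]
      exact ⟨h1, h2⟩
    · rw [dif_neg h2]
      exact (G.exists_side x h1 h2).choose_spec.choose_spec
  · rw [dif_neg h1]
    change x.isFront = false
    simpa using h1

lemma chart_mem (x : G.X) : G.chart x ∈ G.charts := by
  unfold chart
  by_cases h1 : x.isFront = true
  · rw [dif_pos h1]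
    by_cases h2 : x.q ∈ G.E '' G.D
    · rw [dif_pos h2]
      exact Or.inl rfl
    · rw [dif_neg h2]
      exact Or.inr (Or.inr ⟨_, _, rfl⟩)
  · rw [dif_neg h1]
    exact Or.inr (Or.inl rfl)

/-- The Riemann surface structure of the double. -/
noncomputable def core : ChartedSpaceCore ℂ G.X where
  atlas := G.charts
  chartAt := G.chart
  mem_chart_source := G.mem_chart_source
  chart_mem_atlas := G.chart_mem
  open_source _ _ he he' := (G.compat_charts he he').1
  continuousOn_toFun _ _ he he' := (G.compat_charts he he').2.continuousOn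

noncomputable instance : TopologicalSpace G.X := G.core.toTopologicalSpace

noncomputable instance : ChartedSpace ℂ G.X := G.core.toChartedSpace

lemma mem_atlas_iff {e : OpenPartialHomeomorph G.X ℂ} : e ∈ atlas ℂ G.X ↔
    ∃ e0, ∃ h : e0 ∈ G.charts, e = G.core.openPartialHomeomorph e0 h := by
  change e ∈ ⋃ (e : PartialEquiv G.X ℂ) (he : e ∈ G.core.atlas),
    {G.core.openPartialHomeomorph e he} ↔ _
  simp only [mem_iUnion, mem_singleton_iff]
  rfl

instance : IsManifold 𝓘(ℂ) ω G.X := by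
  apply isManifold_of_contDiffOn
  intro e e' he he'
  obtain ⟨e0, h0, rfl⟩ := G.mem_atlas_iff.1 he
  obtain ⟨e1, h1, rfl⟩ := G.mem_atlas_iff.1 he'
  have h2 := G.compat_charts h0 h1
  have h3 : ContDiffOn ℂ ω (e0.symm.trans e1) (e0.symm.trans e1).source := h2.2.contDiffOn h2.1
  simp only [modelWithCornersSelf_coe, modelWithCornersSelf_coe_symm, Function.id_comp,
    Function.comp_id, preimage_id, range_id, inter_univ]
  exact h3

end Region

end Pool.Agent.MP_b90f02
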