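import Mathlib

set_option autoImplicit false

namespace Pool.Agent.MP_b90f02_an

open Pointwise

section PP

variable {ι G α : Type*} [Group G] [MulAction G α] (g : ι → G) (Z : ι → Bool → Set α) (T : Set α)

/-- the ping-pong lemma for a reduced word -/
theorem word_mem (hdisj : ∀ i b j b', (i, b) ≠ (j, b') → Disjoint (Z i b) (Z j b'))
    (hg : ∀ i, ∀ x, x ∉ Z i false → g i • x ∈ Z i true)
    (hg' : ∀ i, ∀ x, x ∉ Z i true → (g i)⁻¹ • x ∈ Z i false)
    (hT : ∀ i b, Disjoint (Z i b) T) (L : List (ι × Bool)) (hL : FreeGroup.IsReduced L) :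
    ∀ p L', L = p :: L' → ∀ x ∈ T,
      (List.prod (L.map fun x => cond x.2 (g x.1) (g x.1)⁻¹)) • x ∈ Z p.1 p.2 := by
  have step : ∀ i b x, x ∉ Z i (!b) → (cond b (g i) (g i)⁻¹) • x ∈ Z i b := by
    intro i b x hx
    cases b
    · exact hg' i x hx
    · exact hg i x hx
  induction L with
  | nil => intro p L' h; exact absurd h (by simp)
  | cons q L ih =>
    intro p L' h x hx
    obtain ⟨rfl, rfl⟩ := List.cons.inj h
    rw [List.map_cons, List.prod_cons, mul_smul]
    apply step
    rcases L with _ | ⟨r, L''⟩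
    · simp only [List.map_nil, List.prod_nil, one_smul]
      intro hz
      exact (Set.disjoint_left.mp (hT _ _)) hz hx
    · have h1 := ih (hL.tail) r L'' rfl x hx
      intro hz
      rw [FreeGroup.isReduced_cons_cons] at hL
      by_cases hqr : q.1 = r.1
      · have h2 := hL.1 hqr
        rw [← hqr, ← h2] at h1
        exact (Set.disjoint_left.mp (hdisj q.1 q.2 q.1 (!q.2)
          (by intro h; have h5 := congrArg Prod.snd h; simp at h5))) h1 hz
      · exact (Set.disjoint_left.mp (hdisj r.1 r.2 q.1 (!q.2)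
          (by intro h; exact hqr (congrArg Prod.fst h).symm))) h1 hz

theorem pingpong (hdisj : ∀ i b j b', (i, b) ≠ (j, b') → Disjoint (Z i b) (Z j b'))
    (hg : ∀ i, ∀ x, x ∉ Z i false → g i • x ∈ Z i true)
    (hg' : ∀ i, ∀ x, x ∉ Z i true → (g i)⁻¹ • x ∈ Z i false)
    (hT : ∀ i b, Disjoint (Z i b) T) (γ : G) (hγ : γ ∈ Subgroup.closure (Set.range g))
    (hne : γ ≠ 1) (x : α) (hx : x ∈ T) : γ • x ∉ T := by
  classical
  have h1 : γ ∈ (FreeGroup.lift g).range := by
    rw [FreeGroup.range_lift_eq_closure]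
    exact hγ
  obtain ⟨w, rfl⟩ := h1
  have h2 : w = FreeGroup.mk w.toWord := FreeGroup.mk_toWord.symm
  rcases hw : w.toWord with _ | ⟨p, L'⟩
  · exfalso
    apply hne
    rw [h2, hw]
    simp
  · have h3 := word_mem g Z T hdisj hg hg' hT w.toWord FreeGroup.isReduced_toWord p L' hw x hx
    rw [← FreeGroup.lift_mk, ← h2] at h3
    intro h4
    exact (Set.disjoint_left.mp (hT _ _)) h3 h4

end PP

end Pool.Agent.MP_b90f02_an
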