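import Pool.Agent.MP_b90f02_an.Local2
import Pool.Agent.MP_b90f02_an.PingPong

set_option autoImplicit false

open Matrix UpperHalfPlane
open scoped MatrixGroups

namespace Pool.Agent.MP_b90f02_an

/-- global coordinate frames -/
noncomputable def F (ℓ : ℕ → ℝ) (ε : ℕ → Bool) : ℕ → GL (Fin 2) ℝ
  | 0 => 1
  | n + 1 => F ℓ ε n * loc (ε n) (ℓ n) (ℓ (n + 1))

theorem F_succ (ℓ : ℕ → ℝ) (ε : ℕ → Bool) (n : ℕ) :
    F ℓ ε (n + 1) = F ℓ ε n * loc (ε n) (ℓ n) (ℓ (n + 1)) := rfl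

/-- the new mirror of level `n + 1` -/
noncomputable def mirror (ℓ : ℕ → ℝ) (ε : ℕ → Bool) (n : ℕ) : GL (Fin 2) ℝ :=
  F ℓ ε (n + 1) * mir (ε n) (ℓ (n + 1)) * (F ℓ ε (n + 1))⁻¹

theorem mirror_sq (ℓ : ℕ → ℝ) (ε : ℕ → Bool) (n : ℕ) : mirror ℓ ε n * mirror ℓ ε n = 1 := by
  unfold mirror
  have h := mir_sq (ε n) (ℓ (n + 1))
  calc _ = F ℓ ε (n + 1) * (mir (ε n) (ℓ (n + 1)) * mir (ε n) (ℓ (n + 1))) *
      (F ℓ ε (n + 1))⁻¹ := by group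
    _ = 1 := by rw [h, mul_one, mul_inv_cancel]

/-- the side of the new mirror away from the free interval -/
noncomputable def XX (ℓ : ℕ → ℝ) (ε : ℕ → Bool) (n : ℕ) : Set ℍ :=
  {z | (F ℓ ε (n + 1))⁻¹ • z ∈ R (ε n) (ℓ (n + 1))}

/-- the strips -/
noncomputable def VV (ℓ : ℕ → ℝ) (ε : ℕ → Bool) (n : ℕ) : Set ℍ :=
  {z | (F ℓ ε n)⁻¹ • z ∈ HD 1 (Real.exp (ℓ n / 2))}

theorem F_inv_smul (ℓ : ℕ → ℝ) (ε : ℕ → Bool) (n : ℕ) (z : ℍ) :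
    (F ℓ ε n)⁻¹ • z = loc (ε n) (ℓ n) (ℓ (n + 1)) • ((F ℓ ε (n + 1))⁻¹ • z) := by
  rw [F_succ, ← mul_smul, _root_.mul_inv_rev, mul_inv_cancel_left]

theorem mirror_mem (ℓ : ℕ → ℝ) (ε : ℕ → Bool) (n : ℕ) (z : ℍ) (hz : z ∉ XX ℓ ε n) :
    mirror ℓ ε n • z ∈ XX ℓ ε n := by
  change (F ℓ ε (n + 1))⁻¹ • z ∉ R (ε n) (ℓ (n + 1)) at hz
  change (F ℓ ε (n + 1))⁻¹ • (mirror ℓ ε n • z) ∈ R (ε n) (ℓ (n + 1))
  have h := mir_mem _ _ _ hz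
  unfold mirror
  rw [← mul_smul, ← mul_assoc, ← mul_assoc, inv_mul_cancel, one_mul, mul_smul]
  exact h

section pos

variable {ℓ : ℕ → ℝ} (hpos : ∀ n, 0 < ℓ n) (ε : ℕ → Bool)
include hpos

theorem VV_succ (n : ℕ) : VV ℓ ε (n + 1) ⊆ VV ℓ ε n := by
  intro z hz
  change (F ℓ ε n)⁻¹ • z ∈ HD 1 (Real.exp (ℓ n / 2))
  rw [F_inv_smul]
  exact loc_V _ (hpos _) (hpos _) _ (Or.inl hz)

theorem XX_sub (n : ℕ) : XX ℓ ε n ⊆ VV ℓ ε n := by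
  intro z hz
  change (F ℓ ε n)⁻¹ • z ∈ HD 1 (Real.exp (ℓ n / 2))
  rw [F_inv_smul]
  exact loc_V _ (hpos _) (hpos _) _ (Or.inr hz)

theorem XX_VV (n : ℕ) (z : ℍ) (hz : z ∈ XX ℓ ε n) (hz' : z ∈ VV ℓ ε (n + 1)) : False :=
  R_disj_HD (ε n) (hpos (n + 1)) _ hz hz'

theorem VV_anti : Antitone (VV ℓ ε) := antitone_nat_of_succ_le (VV_succ hpos ε)

theorem XX_disj (n m : ℕ) (h : n ≠ m) (z : ℍ) (hz : z ∈ XX ℓ ε n) (hz' : z ∈ XX ℓ ε m) : False := by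
  rcases lt_or_gt_of_ne h with h | h
  · exact XX_VV hpos ε n z hz (VV_anti hpos ε (by omega : n + 1 ≤ m) (XX_sub hpos ε m hz'))
  · exact XX_VV hpos ε m z hz' (VV_anti hpos ε (by omega : m + 1 ≤ n) (XX_sub hpos ε n hz))

theorem VV_sub (n : ℕ) : VV ℓ ε n ⊆ HD 1 (Real.exp (ℓ 0 / 2)) := by
  intro z hz
  have h := VV_anti hpos ε (Nat.zero_le n) hz
  change (F ℓ ε 0)⁻¹ • z ∈ HD 1 (Real.exp (ℓ 0 / 2)) at h
  simpa [F] using h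

theorem T_sub (hs : ∀ n, 2 ≤ th (ℓ (n + 1)) ^ 2 * (3 - th (ℓ n) ^ 2)) (z : ℍ)
    (hz : z ∈ HD (lo (ℓ 0)) (hi (ℓ 0))) (n : ℕ) :
    (F ℓ ε n)⁻¹ • z ∈ HD (lo (ℓ n)) (hi (ℓ n)) := by
  induction n with
  | zero => simpa [F] using hz
  | succ n ih =>
    rw [F_succ, _root_.mul_inv_rev, mul_smul]
    exact loc_T _ (hpos _) (hpos _) (hs n) _ ih

theorem T_VV (hs : ∀ n, 2 ≤ th (ℓ (n + 1)) ^ 2 * (3 - th (ℓ n) ^ 2)) (z : ℍ)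
    (hz : z ∈ HD (lo (ℓ 0)) (hi (ℓ 0))) (n : ℕ) : z ∈ VV ℓ ε n := by
  have h := T_sub hpos ε hs z hz n
  exact HD_subset (lo_lt_hi (hpos n)).le (one_lt_lo (hpos n)).le (hi_lt (hpos n)).le h

end pos

/-- generators of the ping-pong group -/
noncomputable def gen (ℓ : ℕ → ℝ) (ε : ℕ → Bool) : Option (Option ℕ) → GL (Fin 2) ℝ
  | none => ((cuspHol ℓ : SL(2, ℝ)) : GL (Fin 2) ℝ)
  | some none => ((trans (ℓ 0) : SL(2, ℝ)) : GL (Fin 2) ℝ)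
  | some (some n) => mirror ℓ ε n * rf (ℓ 0 / 2)

/-- ping-pong regions -/
noncomputable def reg (ℓ : ℕ → ℝ) (ε : ℕ → Bool) (τ : ℝ) : Option (Option ℕ) → Bool → Set ℍ
  | none, true => HD (-τ) (-τ⁻¹)
  | none, false => HD (-τ⁻¹) (-(τ⁻¹ ^ 3))
  | some none, true => {z | (0 ≤ z.re ∧ τ ^ 8 ≤ nrm z) ∨ (z.re < 0 ∧ τ ^ 2 ≤ nrm z)}
  | some none, false => {z | (0 ≤ z.re ∧ nrm z ≤ 1) ∨ (z.re < 0 ∧ nrm z ≤ (τ⁻¹) ^ 6)}
  | some (some n), true => XX ℓ ε n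
  | some (some n), false => {z | rf (ℓ 0 / 2) • z ∈ XX ℓ ε n}

open Classical in
/-- coarse colour of a point -/
noncomputable def col (τ : ℝ) (z : ℍ) : ℕ :=
  if z.re < 0 then
    (if nrm z ≤ (τ⁻¹) ^ 6 then 0 else if nrm z < (τ⁻¹) ^ 2 then 1 else
      if nrm z < τ ^ 2 then 2 else 3)
  else (if nrm z ≤ 1 then 0 else if nrm z < τ ^ 4 then 4 else if nrm z < τ ^ 8 then 5 else 3)

/-- colour of a region -/
def code : Option (Option ℕ) → Bool → ℕ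
  | none, true => 2
  | none, false => 1
  | some none, true => 3
  | some none, false => 0
  | some (some _), true => 4
  | some (some _), false => 5

end Pool.Agent.MP_b90f02_an
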