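import Pool.Agent.MP_b90f02_an.Config

set_option autoImplicit false

open Matrix UpperHalfPlane
open scoped MatrixGroups

namespace Pool.Agent.MP_b90f02_an

theorem exp_powers (a : ℝ) : Real.exp (a / 2) = Real.exp (a / 4) ^ 2 ∧
    Real.exp a = Real.exp (a / 4) ^ 4 := by
  constructor <;> rw [← Real.exp_nat_mul] <;> ring_nf

section cusp

/-- the cusp holonomy maps the complement of one half-disc into another -/
theorem cusp_N (ℓ : ℕ → ℝ) (h0 : 0 < ℓ 0) (z : ℍ) :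
    ∃ r : ℝ, r < 0 ∧ N (-Real.exp (ℓ 0 / 4)) (-(Real.exp (ℓ 0 / 4))⁻¹)
      (((cuspHol ℓ : SL(2, ℝ)) : GL (Fin 2) ℝ) • z) * r =
      N (-(Real.exp (ℓ 0 / 4))⁻¹) (-((Real.exp (ℓ 0 / 4))⁻¹ ^ 3)) z := by
  set g : GL (Fin 2) ℝ := ((cuspHol ℓ : SL(2, ℝ)) : GL (Fin 2) ℝ) with hg
  set τ := Real.exp (ℓ 0 / 4) with hτ
  have hτ1 : 1 < τ := by rw [hτ, ← Real.exp_zero]; exact Real.exp_lt_exp.mpr (by positivity)
  have hτ0 : 0 < τ := by linarith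
  have hsq : 0 < τ ^ 2 - 1 := by nlinarith
  -- entries of the orthogeodesic translation
  have hS : Real.sinh (-orthSelf (ℓ 0) / 2) = -(2 * τ / (τ ^ 2 - 1)) := by
    unfold orthSelf
    rw [neg_div, mul_div_cancel_left₀ _ (two_ne_zero), Real.sinh_neg, Real.sinh_arsinh]
    congr 1
    rw [Real.sinh_eq, Real.exp_neg, ← hτ]
    field_simp
  have hC : Real.cosh (-orthSelf (ℓ 0) / 2) = (τ ^ 2 + 1) / (τ ^ 2 - 1) := by
    have h1 := Real.cosh_sq (-orthSelf (ℓ 0) / 2)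
    rw [hS] at h1
    have h2 : (-(2 * τ / (τ ^ 2 - 1))) ^ 2 + 1 = ((τ ^ 2 + 1) / (τ ^ 2 - 1)) ^ 2 := by
      field_simp
      ring
    rw [h2] at h1
    exact (pow_left_inj₀ (Real.cosh_pos _).le (by positivity) two_ne_zero).mp h1
  have hval : g.val = !![-(2 * τ ^ 2 / (τ ^ 2 - 1)), -((τ ^ 2 + 1) / (τ * (τ ^ 2 - 1)));
      τ * (τ ^ 2 + 1) / (τ ^ 2 - 1), 2 / (τ ^ 2 - 1)] := by
    have h1 : g.val = (cross (-orthSelf (ℓ 0))).val * halfTurn.val * (trans (ℓ 0 / 2)).val := rfl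
    rw [h1]
    simp only [cross, halfTurn, trans]
    rw [hS, hC]
    have e1 : Real.exp (ℓ 0 / 2 / 2) = τ := by rw [hτ]; congr 1; ring
    have e2 : Real.exp (-(ℓ 0 / 2 / 2)) = τ⁻¹ := by rw [Real.exp_neg, e1]
    rw [e1, e2, Matrix.mul_fin_two, Matrix.mul_fin_two]
    ext i j
    fin_cases i <;> fin_cases j <;> simp <;> field_simp
  have g00 : g 0 0 = -(2 * τ ^ 2 / (τ ^ 2 - 1)) := by
    rw [hval]; rfl
  have g01 : g 0 1 = -((τ ^ 2 + 1) / (τ * (τ ^ 2 - 1))) := by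
    rw [hval]; rfl
  have g10 : g 1 0 = τ * (τ ^ 2 + 1) / (τ ^ 2 - 1) := by
    rw [hval]; rfl
  have g11 : g 1 1 = 2 / (τ ^ 2 - 1) := by
    rw [hval]; rfl
  have hdet : ((g.det : ℝ)) = 1 := by
    rw [Matrix.GeneralLinearGroup.val_det_apply]
    exact (cuspHol ℓ).det_coe
  have d1 : g 1 0 * (-(τ⁻¹ ^ 3)) + g 1 1 = τ⁻¹ ^ 2 := by
    rw [g10, g11]; field_simp; ring
  have d2 : g 1 0 * (-τ⁻¹) + g 1 1 = -1 := by
    rw [g10, g11]; field_simp; ring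
  have n1 : (g 0 0 * (-(τ⁻¹ ^ 3)) + g 0 1) / (g 1 0 * (-(τ⁻¹ ^ 3)) + g 1 1) = -τ := by
    rw [d1, g00, g01]; field_simp; ring
  have n2 : (g 0 0 * (-τ⁻¹) + g 0 1) / (g 1 0 * (-τ⁻¹) + g 1 1) = -τ⁻¹ := by
    rw [d2, g00, g01]; field_simp; ring
  have key := N_smul g (-(τ⁻¹ ^ 3)) (-τ⁻¹) z (by rw [d1]; positivity) (by rw [d2]; norm_num)
  rw [n1, n2, d1, d2, hdet] at key
  have hn := normSq_denom_pos g z.im_ne_zero
  refine ⟨Complex.normSq (denom g z) * (τ⁻¹ ^ 2 * -1), ?_, ?_⟩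
  · have : 0 < τ⁻¹ ^ 2 := by positivity
    nlinarith [mul_pos hn this]
  · rw [key]; unfold N; ring

theorem cusp_map (ℓ : ℕ → ℝ) (h0 : 0 < ℓ 0) (z : ℍ)
    (hz : z ∉ HD (-(Real.exp (ℓ 0 / 4))⁻¹) (-((Real.exp (ℓ 0 / 4))⁻¹ ^ 3))) :
    ((cuspHol ℓ : SL(2, ℝ)) : GL (Fin 2) ℝ) • z ∈
      HD (-Real.exp (ℓ 0 / 4)) (-(Real.exp (ℓ 0 / 4))⁻¹) := by
  obtain ⟨r, hr, h⟩ := cusp_N ℓ h0 z
  rw [mem_HD, ← h] at hz
  rw [mem_HD]
  by_contra h1
  push Not at h1 hz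
  have := mul_neg_of_pos_of_neg h1 hr
  linarith

theorem cusp_map' (ℓ : ℕ → ℝ) (h0 : 0 < ℓ 0) (z : ℍ)
    (hz : z ∉ HD (-Real.exp (ℓ 0 / 4)) (-(Real.exp (ℓ 0 / 4))⁻¹)) :
    (((cuspHol ℓ : SL(2, ℝ)) : GL (Fin 2) ℝ))⁻¹ • z ∈
      HD (-(Real.exp (ℓ 0 / 4))⁻¹) (-((Real.exp (ℓ 0 / 4))⁻¹ ^ 3)) := by
  by_contra h
  apply hz
  have := cusp_map ℓ h0 _ h
  rwa [smul_inv_smul] at this

end cusp

section colours

variable {ℓ : ℕ → ℝ} (hpos : ∀ n, 0 < ℓ n) (ε : ℕ → Bool)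
include hpos

theorem col_strip (z : ℍ) (hz : z ∈ HD 1 (Real.exp (ℓ 0 / 2))) :
    col (Real.exp (ℓ 0 / 4)) z = 4 := by
  have h1 : 1 ≤ Real.exp (ℓ 0 / 2) := Real.one_le_exp (by have := hpos 0; positivity)
  obtain ⟨h2, h3, h4⟩ := HD_pos one_pos h1 hz
  rw [(exp_powers _).1] at h4
  unfold col nrm
  rw [if_neg (by linarith), if_neg (by linarith), if_pos (by linarith)]

theorem tau_gt : 1 < Real.exp (ℓ 0 / 4) := by
  rw [← Real.exp_zero]; exact Real.exp_lt_exp.mpr (by have := hpos 0; positivity)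

theorem col_strip' (z : ℍ) (hz : rf (ℓ 0 / 2) • z ∈ HD 1 (Real.exp (ℓ 0 / 2))) :
    col (Real.exp (ℓ 0 / 4)) z = 5 := by
  have h1 : 1 ≤ Real.exp (ℓ 0 / 2) := Real.one_le_exp (by have := hpos 0; positivity)
  obtain ⟨h2, h3, h4⟩ := HD_pos one_pos h1 hz
  have h5 := nrm_rf (ℓ 0 / 2) z
  have h6 := re_rf (ℓ 0 / 2) z
  have hn := nrm_pos z
  have h5' : (rf (ℓ 0 / 2) • z).re ^ 2 + (rf (ℓ 0 / 2) • z).im ^ 2 =
    Real.exp (ℓ 0 / 2) ^ 4 / nrm z := h5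
  rw [h5'] at h3 h4
  rw [h6] at h2
  rw [(exp_powers _).1] at h2 h3 h4
  have hτ1 : 1 < Real.exp (ℓ 0 / 4) := tau_gt hpos
  have hτ : 0 < Real.exp (ℓ 0 / 4) := Real.exp_pos _
  generalize Real.exp (ℓ 0 / 4) = τ at *
  have hre : 0 < z.re := by
    by_contra h
    push Not at h
    have : (τ ^ 2) ^ 2 * z.re / nrm z ≤ 0 := by
      apply div_nonpos_of_nonpos_of_nonneg _ hn.le
      exact mul_nonpos_of_nonneg_of_nonpos (by positivity) h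
    linarith
  rw [lt_div_iff₀ hn] at h3
  rw [div_lt_iff₀ hn] at h4
  have h7 : τ ^ 4 < nrm z := by
    by_contra h
    push Not at h
    have : (τ ^ 2) ^ 2 * nrm z ≤ (τ ^ 2) ^ 2 * τ ^ 4 := by
      apply mul_le_mul_of_nonneg_left h (by positivity)
    nlinarith
  have h8 : 1 < τ ^ 4 := one_lt_pow₀ hτ1 (by norm_num)
  unfold col
  rw [if_neg (by linarith), if_neg (by linarith), if_neg (by linarith), if_pos (by nlinarith)]

theorem reg_col (i : Option (Option ℕ)) (b : Bool) (z : ℍ)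
    (hz : z ∈ reg ℓ ε (Real.exp (ℓ 0 / 4)) i b) :
    col (Real.exp (ℓ 0 / 4)) z = code i b := by
  have hτ1 : 1 < Real.exp (ℓ 0 / 4) := tau_gt hpos
  have hτ : 0 < Real.exp (ℓ 0 / 4) := Real.exp_pos _
  rcases i with _ | _ | n
  · have i1 : (Real.exp (ℓ 0 / 4))⁻¹ < 1 := inv_lt_one_of_one_lt₀ hτ1
    have i0 : 0 < (Real.exp (ℓ 0 / 4))⁻¹ := by positivity
    generalize Real.exp (ℓ 0 / 4) = τ at *
    cases b
    · change z ∈ HD (-τ⁻¹) (-(τ⁻¹ ^ 3)) at hz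
      have h3 : τ⁻¹ ^ 3 ≤ τ⁻¹ := by nlinarith [mul_pos i0 i0, mul_pos i0 (mul_pos i0 i0)]
      obtain ⟨h4, h5, h6⟩ := HD_neg (by simp; positivity) (by linarith) hz
      have e5 : (-(τ⁻¹ ^ 3)) ^ 2 = τ⁻¹ ^ 6 := by ring
      have e6 : (-τ⁻¹) ^ 2 = τ⁻¹ ^ 2 := by ring
      rw [e5] at h5
      rw [e6] at h6
      unfold col nrm
      rw [if_pos h4, if_neg (by linarith), if_pos h6]
      rfl
    · change z ∈ HD (-τ) (-τ⁻¹) at hz
      obtain ⟨h4, h5, h6⟩ := HD_neg (by linarith) (by linarith) hz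
      have e5 : (-τ⁻¹) ^ 2 = τ⁻¹ ^ 2 := by ring
      have e6 : (-τ) ^ 2 = τ ^ 2 := by ring
      rw [e5] at h5
      rw [e6] at h6
      have h7 : τ⁻¹ ^ 6 ≤ τ⁻¹ ^ 2 := pow_le_pow_of_le_one i0.le i1.le (by norm_num)
      unfold col nrm
      rw [if_pos h4, if_neg (by linarith), if_neg (by linarith), if_pos h6]
      rfl
  · have i1 : (Real.exp (ℓ 0 / 4))⁻¹ < 1 := inv_lt_one_of_one_lt₀ hτ1
    have i0 : 0 < (Real.exp (ℓ 0 / 4))⁻¹ := by positivity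
    generalize Real.exp (ℓ 0 / 4) = τ at *
    cases b
    · rcases hz with ⟨h1, h2⟩ | ⟨h1, h2⟩
      · unfold col
        rw [if_neg (by linarith), if_pos h2]
        rfl
      · unfold col
        rw [if_pos h1, if_pos h2]
        rfl
    · have j1 : τ ^ 4 ≤ τ ^ 8 := pow_le_pow_right₀ hτ1.le (by norm_num)
      have j2 : 1 < τ ^ 8 := one_lt_pow₀ hτ1 (by norm_num)
      have j3 : 1 < τ ^ 2 := one_lt_pow₀ hτ1 (by norm_num)
      have j4 : τ⁻¹ ^ 6 < 1 := pow_lt_one₀ i0.le i1 (by norm_num)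
      have j5 : τ⁻¹ ^ 2 < 1 := pow_lt_one₀ i0.le i1 (by norm_num)
      rcases hz with ⟨h1, h2⟩ | ⟨h1, h2⟩
      · unfold col
        rw [if_neg (by linarith), if_neg (by linarith), if_neg (by linarith), if_neg (by linarith)]
        rfl
      · unfold col
        rw [if_pos h1, if_neg (by linarith), if_neg (by linarith), if_neg (by linarith)]
        rfl
  · cases b
    · exact col_strip' hpos z (VV_sub hpos ε n (XX_sub hpos ε n hz))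
    · exact col_strip hpos z (VV_sub hpos ε n (XX_sub hpos ε n hz))

theorem reg_disj (i : Option (Option ℕ)) (b : Bool) (j : Option (Option ℕ)) (b' : Bool)
    (h : (i, b) ≠ (j, b')) : Disjoint (reg ℓ ε (Real.exp (ℓ 0 / 4)) i b)
      (reg ℓ ε (Real.exp (ℓ 0 / 4)) j b') := by
  rw [Set.disjoint_left]
  intro z hz hz'
  have h1 := reg_col hpos ε i b z hz
  have h2 := reg_col hpos ε j b' z hz'
  rw [h1] at h2
  rcases i with _ | _ | n <;> rcases j with _ | _ | m <;> cases b <;> cases b' <;>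
    simp [code] at h2 h
  · exact XX_disj hpos ε n m h _ hz hz'
  · exact XX_disj hpos ε n m h _ hz hz'

omit hpos in
theorem nrm_tau (z : ℍ) : nrm (((trans (ℓ 0) : SL(2, ℝ)) : GL (Fin 2) ℝ) • z) =
    Real.exp (ℓ 0 / 4) ^ 8 * nrm z := by
  rw [nrm_trans, (exp_powers _).2]; ring

theorem gen_map (i : Option (Option ℕ)) (z : ℍ)
    (hz : z ∉ reg ℓ ε (Real.exp (ℓ 0 / 4)) i false) :
    gen ℓ ε i • z ∈ reg ℓ ε (Real.exp (ℓ 0 / 4)) i true := by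
  rcases i with _ | _ | n
  · exact cusp_map ℓ (hpos 0) z hz
  · have h1 := nrm_tau (ℓ := ℓ) z
    have h2 := re_trans (ℓ 0) z
    have hτ : 0 < Real.exp (ℓ 0 / 4) := Real.exp_pos _
    have he : 0 < Real.exp (ℓ 0) := Real.exp_pos _
    change ¬ ((0 ≤ z.re ∧ nrm z ≤ 1) ∨ (z.re < 0 ∧ nrm z ≤ ((Real.exp (ℓ 0 / 4))⁻¹) ^ 6)) at hz
    push Not at hz
    change (0 ≤ (((trans (ℓ 0) : SL(2, ℝ)) : GL (Fin 2) ℝ) • z).re ∧ Real.exp (ℓ 0 / 4) ^ 8 ≤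
      nrm (((trans (ℓ 0) : SL(2, ℝ)) : GL (Fin 2) ℝ) • z)) ∨
      ((((trans (ℓ 0) : SL(2, ℝ)) : GL (Fin 2) ℝ) • z).re < 0 ∧ Real.exp (ℓ 0 / 4) ^ 2 ≤
      nrm (((trans (ℓ 0) : SL(2, ℝ)) : GL (Fin 2) ℝ) • z))
    rw [h1, h2]
    generalize Real.exp (ℓ 0 / 4) = τ at *
    rcases le_or_gt 0 z.re with h | h
    · left
      refine ⟨by positivity, ?_⟩
      have := hz.1 h
      have h8 : 0 < τ ^ 8 := by positivity
      nlinarith
    · right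
      refine ⟨mul_neg_of_pos_of_neg he h, ?_⟩
      have := hz.2 h
      have h8 : 0 < τ ^ 8 := by positivity
      have e : τ ^ 2 = τ ^ 8 * τ⁻¹ ^ 6 := by field_simp
      rw [e]
      exact mul_le_mul_of_nonneg_left this.le h8.le
  · change (mirror ℓ ε n * rf (ℓ 0 / 2)) • z ∈ XX ℓ ε n
    rw [mul_smul]
    exact mirror_mem ℓ ε n _ hz

theorem gen_map' (i : Option (Option ℕ)) (z : ℍ)
    (hz : z ∉ reg ℓ ε (Real.exp (ℓ 0 / 4)) i true) :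
    (gen ℓ ε i)⁻¹ • z ∈ reg ℓ ε (Real.exp (ℓ 0 / 4)) i false := by
  rcases i with _ | _ | n
  · exact cusp_map' ℓ (hpos 0) z hz
  · set w : ℍ := (gen ℓ ε (some none))⁻¹ • z with hw
    have hwz : z = ((trans (ℓ 0) : SL(2, ℝ)) : GL (Fin 2) ℝ) • w := by
      rw [hw]; exact (smul_inv_smul _ _).symm
    have h1 := nrm_tau (ℓ := ℓ) w
    have h2 := re_trans (ℓ 0) w
    have hτ : 0 < Real.exp (ℓ 0 / 4) := Real.exp_pos _
    have he : 0 < Real.exp (ℓ 0) := Real.exp_pos _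
    change ¬ ((0 ≤ z.re ∧ Real.exp (ℓ 0 / 4) ^ 8 ≤ nrm z) ∨
      (z.re < 0 ∧ Real.exp (ℓ 0 / 4) ^ 2 ≤ nrm z)) at hz
    push Not at hz
    change (0 ≤ w.re ∧ nrm w ≤ 1) ∨ (w.re < 0 ∧ nrm w ≤ ((Real.exp (ℓ 0 / 4))⁻¹) ^ 6)
    rw [hwz, h1, h2] at hz
    clear_value w
    generalize Real.exp (ℓ 0 / 4) = τ at *
    have h8 : 0 < τ ^ 8 := by positivity
    rcases le_or_gt 0 w.re with h | h
    · left
      refine ⟨h, ?_⟩
      have := hz.1 (by positivity)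
      by_contra h'
      push Not at h'
      nlinarith
    · right
      refine ⟨h, ?_⟩
      have := hz.2 (mul_neg_of_pos_of_neg he h)
      have e : τ ^ 2 = τ ^ 8 * τ⁻¹ ^ 6 := by field_simp
      rw [e] at this
      exact (lt_of_mul_lt_mul_left this h8.le).le
  · change rf (ℓ 0 / 2) • ((mirror ℓ ε n * rf (ℓ 0 / 2))⁻¹ • z) ∈ XX ℓ ε n
    rw [_root_.mul_inv_rev, rf_inv, mul_smul, smul_smul, rf_sq, one_smul]
    have h := mirror_mem ℓ ε n z hz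
    have e : (mirror ℓ ε n)⁻¹ = mirror ℓ ε n := by
      rw [inv_eq_iff_mul_eq_one, mirror_sq]
    rw [e]
    exact h

/-- the translates of the half-disc `T` under the group generated by `gen` are disjoint -/
theorem T_disj (hs : ∀ n, 2 ≤ th (ℓ (n + 1)) ^ 2 * (3 - th (ℓ n) ^ 2)) (γ : GL (Fin 2) ℝ)
    (hγ : γ ∈ Subgroup.closure (Set.range (gen ℓ ε))) (hne : γ ≠ 1) (z : ℍ)
    (hz : z ∈ HD (lo (ℓ 0)) (hi (ℓ 0))) : γ • z ∉ HD (lo (ℓ 0)) (hi (ℓ 0)) := by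
  refine pingpong (gen ℓ ε) (reg ℓ ε (Real.exp (ℓ 0 / 4))) _ ?_ ?_ ?_ ?_ γ hγ hne z hz
  · exact reg_disj hpos ε
  · exact gen_map hpos ε
  · exact gen_map' hpos ε
  · intro i b
    rw [Set.disjoint_left]
    intro u hu hu'
    have h1 := reg_col hpos ε i b u hu
    have hV : u ∈ HD 1 (Real.exp (ℓ 0 / 2)) := VV_sub hpos ε 0 (T_VV hpos ε hs u hu' 0)
    have h2 := col_strip hpos u hV
    rw [h1] at h2
    rcases i with _ | _ | n <;> cases b <;> simp [code] at h2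
    exact XX_VV hpos ε n u hu (T_VV hpos ε hs u hu' (n + 1))

end colours

end Pool.Agent.MP_b90f02_an
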