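import Mathlib

/-!
# Flute surfaces from Fenchel-Nielsen parameters, and Green's functions
-/

set_option autoImplicit false

open Matrix UpperHalfPlane Topology
open scoped MatrixGroups

namespace Pool.Agent.MP_b90f02_an

/-- The hyperbolic translation of the upper half-plane by the (signed) distance `s` along the
geodesic from `0` to `∞`. -/
noncomputable def trans (s : ℝ) : SL(2, ℝ) :=
  ⟨!![Real.exp (s / 2), 0; 0, Real.exp (-(s / 2))], by
    rw [Matrix.det_fin_two_of, ← Real.exp_add]; simp⟩

/-- The hyperbolic translation of the upper half-plane by the (signed) distance `s` along the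
geodesic from `-1` to `1`; this geodesic meets the geodesic from `0` to `∞` orthogonally at `i`. -/
noncomputable def cross (s : ℝ) : SL(2, ℝ) :=
  ⟨!![Real.cosh (s / 2), Real.sinh (s / 2); Real.sinh (s / 2), Real.cosh (s / 2)], by
    rw [Matrix.det_fin_two_of]
    have := Real.cosh_sq_sub_sinh_sq (s / 2)
    nlinarith⟩

/-- The half-turn about `i`. -/
def halfTurn : SL(2, ℝ) := ⟨!![0, -1; 1, 0], by rw [Matrix.det_fin_two_of]; norm_num⟩

/-- The distance between the two boundary geodesics of lengths `a` and `b` in a pair of pants whose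
third end is a cusp. -/
noncomputable def orth (a b : ℝ) : ℝ :=
  Real.arcosh ((1 + Real.cosh (a / 2) * Real.cosh (b / 2)) /
    (Real.sinh (a / 2) * Real.sinh (b / 2)))

/-- The length of the orthogeodesic from the boundary geodesic of length `a` to itself in a pair of
pants whose two other ends are cusps. -/
noncomputable def orthSelf (a : ℝ) : ℝ := 2 * Real.arsinh (1 / Real.sinh (a / 4))

/-- The frames of the universal covering of the flute surface. The geodesic `α_{n+1}` of the
problem is covered by the geodesic `L n`, the image under `frame ℓ t n` of the geodesic from `0` to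
`∞`; the image of `i` is the foot on `L n` of the orthogeodesic of the pair of pants `P_{n+1}`
joining `α_{n+1}` to `α_{n+2}`. To pass from `L n` to `L (n + 1)` one moves along this orthogeodesic
by its length and then along `L (n + 1)` by the twist `t_{n+2} ℓ_{n+2}`. (The sequences
`ℓ` and `t` are indexed from `0`, so that `ℓ n` and `t n` are the parameters at `α_{n+1}`.) -/
noncomputable def frame (ℓ t : ℕ → ℝ) : ℕ → SL(2, ℝ)
  | 0 => trans (t 0 * ℓ 0)
  | n + 1 => frame ℓ t n * cross (orth (ℓ n) (ℓ (n + 1))) * trans (t (n + 1) * ℓ (n + 1))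

/-- The holonomy of the closed geodesic `α_{n+1}`: the translation by `ℓ n` along `L n`. -/
noncomputable def hol (ℓ t : ℕ → ℝ) (n : ℕ) : SL(2, ℝ) :=
  frame ℓ t n * trans (ℓ n) * (frame ℓ t n)⁻¹

/-- The holonomy of one of the cusps of `P_0`. The reference point on `α_1`, seen from `P_0`, is
covered by `i`; going from there along the orthogeodesic of `P_0` from `α_1` to itself (by its
length, to the left of `L 0`), turning round, and moving along `α_1` by half its length, to the
antipodal foot, one goes once round a cusp of `P_0`. -/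
noncomputable def cuspHol (ℓ : ℕ → ℝ) : SL(2, ℝ) :=
  cross (-orthSelf (ℓ 0)) * halfTurn * trans (ℓ 0 / 2)

/-- The Fuchsian group of the flute surface with Fenchel-Nielsen parameters `ℓ`, `t`. -/
noncomputable def fluteGroup (ℓ t : ℕ → ℝ) : Subgroup SL(2, ℝ) :=
  Subgroup.closure (insert (cuspHol ℓ) (Set.range (hol ℓ t)))

/-- `G` is (the lift to `Ω` of) a positive function on the Riemann surface `Ω / Γ` which is harmonic
except for a positive logarithmic pole at the point covered by `w`. -/
structure HasLogPole (Γ : Subgroup SL(2, ℝ)) (Ω : Set ℍ) (w : ℍ) (G : ℍ → ℝ) : Prop where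
  invariant : ∀ γ ∈ Γ, ∀ z ∈ Ω, G (γ • z) = G z
  pos : ∀ z ∈ Ω, z ∉ MulAction.orbit Γ w → 0 < G z
  harmonic : ∀ z ∈ Ω, z ∉ MulAction.orbit Γ w →
    InnerProductSpace.HarmonicAt (fun x : ℂ => G (ofComplex x)) (z : ℂ)
  pole : ∃ h : ℂ → ℝ, InnerProductSpace.HarmonicAt h (w : ℂ) ∧
    ∀ᶠ x in 𝓝[≠] (w : ℂ), G (ofComplex x) = h x - Real.log ‖x - w‖

/-- `G` is (the lift to `Ω` of) the Green's function of the Riemann surface `Ω / Γ` with pole at the
point covered by `w`: the least positive function which is harmonic except for a positive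
logarithmic pole there. -/
def IsGreen (Γ : Subgroup SL(2, ℝ)) (Ω : Set ℍ) (w : ℍ) (G : ℍ → ℝ) : Prop :=
  HasLogPole Γ Ω w G ∧ ∀ G' : ℍ → ℝ, HasLogPole Γ Ω w G' →
    ∀ z ∈ Ω, z ∉ MulAction.orbit Γ w → G z ≤ G' z

end Pool.Agent.MP_b90f02_an
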