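import Mathlib

set_option autoImplicit false

/-!
# Pairs of geodesics

A `Quad` is a pair of disjoint geodesics of the upper half-plane: the geodesic with end points
`a < b` and the geodesic with end points `c < d`, where `b < c`.  Their hyperbolic distance `δ` is
given by `sinh (δ / 2) ^ 2 = (c - b) * (d - a) / ((b - a) * (d - c))`.

`Quad.next S e` replaces one of the two geodesics by the geodesic which starts at its inner end
point (the new cusp), goes inwards, and for which the new pair satisfies
`(c - b) * (d - a) = S * ((b - a) * (d - c))`; the geodesic with end points `a`, `b` is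
replaced if `e = true` and the other one if `e = false`.
-/

namespace Pool.Agent.MP_b90f02

/-- A pair of geodesics of the upper half-plane, one with end points `a`, `b` and one with end
points `c`, `d`. -/
structure Quad where
  /-- left end point of the left geodesic -/
  a : ℝ
  /-- right end point of the left geodesic -/
  b : ℝ
  /-- left end point of the right geodesic -/
  c : ℝ
  /-- right end point of the right geodesic -/
  d : ℝ

namespace Quad

/-- The next pair of geodesics: the new cusp is `s.b` if `e = true` and `s.c` if `e = false`. -/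
noncomputable def next (S : ℝ) (e : Bool) (s : Quad) : Quad :=
  if e = true then
    ⟨s.b, s.b + (s.c - s.b) * (s.d - s.b) / ((s.d - s.b) + S * (s.d - s.c)), s.c, s.d⟩
  else
    ⟨s.a, s.b, s.c - (s.c - s.b) * (s.c - s.a) / ((s.c - s.a) + S * (s.b - s.a)), s.c⟩

/-- The end points are in the right order. -/
def Good (s : Quad) : Prop := s.a < s.b ∧ s.b < s.c ∧ s.c < s.d

/-- The distance condition between the two geodesics, in terms of the cross ratio. -/
def Cross (S : ℝ) (s : Quad) : Prop :=
  (s.c - s.b) * (s.d - s.a) = S * ((s.b - s.a) * (s.d - s.c))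

/-- Centre of the geodesic perpendicular to both geodesics of the pair. -/
noncomputable def m (s : Quad) : ℝ := (s.c * s.d - s.a * s.b) / ((s.c + s.d) - (s.a + s.b))

/-- Squared radius of the geodesic perpendicular to both geodesics of the pair. -/
noncomputable def R2 (s : Quad) : ℝ := (s.m - s.a) * (s.m - s.b)

variable {s : Quad} {S : ℝ}

lemma next_true : s.next S true =
    ⟨s.b, s.b + (s.c - s.b) * (s.d - s.b) / ((s.d - s.b) + S * (s.d - s.c)), s.c, s.d⟩ := rfl

lemma next_false : s.next S false =
    ⟨s.a, s.b, s.c - (s.c - s.b) * (s.c - s.a) / ((s.c - s.a) + S * (s.b - s.a)), s.c⟩ := rfl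

lemma next_good (h : s.Good) (hS : 0 < S) (e : Bool) : (s.next S e).Good := by
  obtain ⟨h1, h2, h3⟩ := h
  cases e with
  | true =>
    have hden : 0 < (s.d - s.b) + S * (s.d - s.c) := by
      have : 0 < S * (s.d - s.c) := mul_pos hS (by linarith)
      linarith
    have hpos : 0 < (s.c - s.b) * (s.d - s.b) / ((s.d - s.b) + S * (s.d - s.c)) :=
      div_pos (mul_pos (by linarith) (by linarith)) hden
    have hlt : (s.c - s.b) * (s.d - s.b) / ((s.d - s.b) + S * (s.d - s.c)) < s.c - s.b := by
      rw [div_lt_iff₀ hden]
      have : 0 < (s.c - s.b) * (S * (s.d - s.c)) :=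
        mul_pos (by linarith) (mul_pos hS (by linarith))
      nlinarith
    rw [next_true]
    exact ⟨by simp only; linarith, by simp only; linarith, h3⟩
  | false =>
    have hden : 0 < (s.c - s.a) + S * (s.b - s.a) := by
      have : 0 < S * (s.b - s.a) := mul_pos hS (by linarith)
      linarith
    have hpos : 0 < (s.c - s.b) * (s.c - s.a) / ((s.c - s.a) + S * (s.b - s.a)) :=
      div_pos (mul_pos (by linarith) (by linarith)) hden
    have hlt : (s.c - s.b) * (s.c - s.a) / ((s.c - s.a) + S * (s.b - s.a)) < s.c - s.b := by
      rw [div_lt_iff₀ hden]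
      have : 0 < (s.c - s.b) * (S * (s.b - s.a)) :=
        mul_pos (by linarith) (mul_pos hS (by linarith))
      nlinarith
    rw [next_false]
    exact ⟨h1, by simp only; linarith, by simp only; linarith⟩

lemma next_cross (h : s.Good) (hS : 0 < S) (e : Bool) : (s.next S e).Cross S := by
  obtain ⟨h1, h2, h3⟩ := h
  cases e with
  | true =>
    have hden : 0 < (s.d - s.b) + S * (s.d - s.c) := by
      have : 0 < S * (s.d - s.c) := mul_pos hS (by linarith)
      linarith
    rw [next_true]
    unfold Cross
    simp only
    field_simp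
    ring
  | false =>
    have hden : 0 < (s.c - s.a) + S * (s.b - s.a) := by
      have : 0 < S * (s.b - s.a) := mul_pos hS (by linarith)
      linarith
    rw [next_false]
    unfold Cross
    simp only
    field_simp
    ring

lemma m_sub_a (h : s.Good) : s.m - s.a = (s.c - s.a) * (s.d - s.a) / ((s.c + s.d) - (s.a + s.b)) := by
  obtain ⟨h1, h2, h3⟩ := h
  have hden : 0 < (s.c + s.d) - (s.a + s.b) := by linarith
  unfold m
  field_simp
  ring

lemma m_sub_b (h : s.Good) : s.m - s.b = (s.c - s.b) * (s.d - s.b) / ((s.c + s.d) - (s.a + s.b)) := by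
  obtain ⟨h1, h2, h3⟩ := h
  have hden : 0 < (s.c + s.d) - (s.a + s.b) := by linarith
  unfold m
  field_simp
  ring

lemma R2_pos (h : s.Good) : 0 < s.R2 := by
  unfold R2
  rw [m_sub_a h, m_sub_b h]
  obtain ⟨h1, h2, h3⟩ := h
  have hden : 0 < (s.c + s.d) - (s.a + s.b) := by linarith
  have e1 : 0 < s.c - s.a := by linarith
  have e2 : 0 < s.d - s.a := by linarith
  have e3 : 0 < s.c - s.b := by linarith
  have e4 : 0 < s.d - s.b := by linarith
  positivity

/-- The common perpendicular, in terms of the second geodesic. -/
lemma R2_eq (h : s.Good) : s.R2 = (s.c - s.m) * (s.d - s.m) := by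
  obtain ⟨h1, h2, h3⟩ := h
  have hden : (s.c + s.d) - (s.a + s.b) ≠ 0 := by
    have : 0 < (s.c + s.d) - (s.a + s.b) := by linarith
    exact this.ne'
  unfold R2
  have hm : s.m * ((s.c + s.d) - (s.a + s.b)) = s.c * s.d - s.a * s.b := by
    unfold m
    field_simp
  linarith

end Quad

end Pool.Agent.MP_b90f02
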