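import Pool.Agent.MP_b90f02_an.Region
import Pool.Agent.MP_b90f02_an.Quad

set_option autoImplicit false

/-!
# The hyperbolic distance of two geodesics

`GeodDist I J δ` says that `δ` is the hyperbolic distance of the geodesics of the upper half-plane
with end points `I.1`, `I.2` and `J.1`, `J.2`.  For the two geodesics of a `Quad` we show that this
is equivalent to the cross ratio condition `Quad.Cross`.
-/

open Complex Set Topology Filter
open scoped UpperHalfPlane

namespace Pool.Agent.MP_b90f02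

/-- The geodesic of the upper half-plane with end points `I.1` and `I.2`. -/
def geod (I : ℝ × ℝ) : Set ℍ := {z | normSq ((z : ℂ) - cen I) = rad I ^ 2}

/-- The hyperbolic distance between the geodesics with end points `I.1`, `I.2` and `J.1`, `J.2`
is `δ` (and it is attained). -/
def GeodDist (I J : ℝ × ℝ) (δ : ℝ) : Prop :=
  IsLeast {r : ℝ | ∃ z ∈ geod I, ∃ w ∈ geod J, r = dist z w} δ

/-- The geodesic with centre `m` on the real line and radius `r` is perpendicular to the geodesic
with end points `I.1` and `I.2`. -/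
def Perp (m r : ℝ) (I : ℝ × ℝ) : Prop := (m - cen I) ^ 2 = r ^ 2 + rad I ^ 2

/-- The identity behind the hyperbolic cosine of the distance of two points on two geodesics with
common perpendicular of centre `0` and radius `ρ`. -/
lemma core_le {A C u v ρ X Y y1 y2 S : ℝ} (hA : 0 < A) (hC : 0 < C) (hu : 0 < u) (hv : 0 < v)
    (hρ : 0 < ρ) (hy1 : 0 < y1) (hy2 : 0 < y2) (hRA : u ^ 2 = A ^ 2 - ρ ^ 2)
    (hRC : v ^ 2 = C ^ 2 - ρ ^ 2) (hzX : 2 * A * X = X ^ 2 + y1 ^ 2 + ρ ^ 2)
    (hwY : 2 * C * Y = Y ^ 2 + y2 ^ 2 + ρ ^ 2)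
    (hS : S * (2 * u * v) = ρ ^ 2 + A * C - u * v) :
    1 + 2 * S ≤ 1 + ((X + Y) ^ 2 + (y1 - y2) ^ 2) / (2 * y1 * y2) := by
  have hX0 : 0 < X := by
    have h1 : 0 < 2 * A * X := by
      rw [hzX]
      positivity
    exact pos_of_mul_pos_right h1 (by positivity)
  have hY0 : 0 < Y := by
    have h1 : 0 < 2 * C * Y := by
      rw [hwY]
      positivity
    exact pos_of_mul_pos_right h1 (by positivity)
  set p := X * u / (ρ * y1) with hp
  set p' := (A * X - ρ ^ 2) / (ρ * y1) with hp'
  set q := Y * v / (ρ * y2) with hq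
  set q' := (C * Y - ρ ^ 2) / (ρ * y2) with hq'
  have hp0 : 0 < p := by positivity
  have hq0 : 0 < q := by positivity
  have hpp : p ^ 2 = 1 + p' ^ 2 := by
    rw [hp, hp', div_pow, div_pow, mul_pow X u, hRA]
    field_simp
    linear_combination ρ ^ 2 * hzX
  have hqq : q ^ 2 = 1 + q' ^ 2 := by
    rw [hq, hq', div_pow, div_pow, mul_pow Y v, hRC]
    field_simp
    linear_combination ρ ^ 2 * hwY
  set K := (ρ ^ 2 + A * C) / (u * v) with hK
  have huA : u < A := by
    apply lt_of_pow_lt_pow_left₀ 2 hA.le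
    have : 0 < ρ ^ 2 := by positivity
    linarith
  have hvC : v < C := by
    apply lt_of_pow_lt_pow_left₀ 2 hC.le
    have : 0 < ρ ^ 2 := by positivity
    linarith
  have hK1 : 1 ≤ K := by
    rw [hK, le_div_iff₀ (by positivity), one_mul]
    have h1 : u * v ≤ A * C := mul_le_mul huA.le hvC.le hv.le hA.le
    have : 0 < ρ ^ 2 := by positivity
    linarith
  have hpq : 1 + p' * q' ≤ p * q := by
    have h1 : (1 + |p' * q'|) ^ 2 ≤ (p * q) ^ 2 := by
      have h5 : (p * q) ^ 2 = (1 + p' ^ 2) * (1 + q' ^ 2) := by rw [mul_pow, hpp, hqq]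
      have h6 : (1 + |p' * q'|) ^ 2 = 1 + 2 * (|p'| * |q'|) + (p' * q') ^ 2 := by
        rw [add_sq, sq_abs, abs_mul]
        ring
      have h7 := two_mul_le_add_sq |p'| |q'|
      rw [sq_abs, sq_abs] at h7
      rw [h5, h6]
      linarith [h7, show (1 + p' ^ 2) * (1 + q' ^ 2) = 1 + (p' ^ 2 + q' ^ 2) + (p' * q') ^ 2 by ring]
    have h2 := abs_le_of_sq_le_sq h1 (by positivity)
    have h3 := le_abs_self (p' * q')
    have h4 := le_abs_self (1 + |p' * q'|)
    linarith
  have hpq1 : 1 ≤ p * q := by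
    have h1 : 1 ≤ p := by
      apply le_of_sq_le_sq _ hp0.le
      rw [hpp]
      linarith [sq_nonneg p']
    have h2 : 1 ≤ q := by
      apply le_of_sq_le_sq _ hq0.le
      rw [hqq]
      linarith [sq_nonneg q']
    calc (1 : ℝ) = 1 * 1 := by ring
      _ ≤ p * q := mul_le_mul h1 h2 zero_le_one hp0.le
  have k1 : K * (p * q) - p' * q' = (X * Y + A * X + C * Y - ρ ^ 2) / (y1 * y2) := by
    rw [hK, hp, hp', hq, hq']
    field_simp
    ring
  have k2 : 1 + ((X + Y) ^ 2 + (y1 - y2) ^ 2) / (2 * y1 * y2) =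
      (X * Y + A * X + C * Y - ρ ^ 2) / (y1 * y2) := by
    field_simp
    linear_combination - hzX - hwY
  have hcosh2 : 1 + 2 * S = K := by
    rw [hK, eq_div_iff (by positivity)]
    linear_combination hS
  rw [k2, ← k1, hcosh2]
  have h8 : 0 ≤ (K - 1) * (p * q - 1) := mul_nonneg (by linarith) (by linarith)
  linarith [show (K - 1) * (p * q - 1) = K * (p * q) - K - p * q + 1 by ring]

/-- The same for the feet of the common perpendicular. -/
lemma core_eq {A C u v ρ S : ℝ} (hA : 0 < A) (hC : 0 < C) (hu : 0 < u) (hv : 0 < v)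
    (hρ : 0 < ρ) (hRA : u ^ 2 = A ^ 2 - ρ ^ 2)
    (hRC : v ^ 2 = C ^ 2 - ρ ^ 2) (hS : S * (2 * u * v) = ρ ^ 2 + A * C - u * v) :
    ((A - u ^ 2 / A + (C - v ^ 2 / C)) ^ 2 + (u * ρ / A - v * ρ / C) ^ 2) /
      (2 * (u * ρ / A) * (v * ρ / C)) = 2 * S := by
  have t1 : A - u ^ 2 / A = ρ ^ 2 / A := by
    rw [hRA]
    field_simp
    ring
  have t2 : C - v ^ 2 / C = ρ ^ 2 / C := by
    rw [hRC]
    field_simp
    ring
  have hS' : S = (ρ ^ 2 + A * C - u * v) / (2 * u * v) := by
    rw [eq_div_iff (by positivity), hS]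
  rw [t1, t2, hS', div_eq_iff (by positivity)]
  have key : (ρ ^ 2 / A + ρ ^ 2 / C) ^ 2 + (u * ρ / A - v * ρ / C) ^ 2 =
      ρ ^ 2 / (A ^ 2 * C ^ 2) * (ρ ^ 2 * (A + C) ^ 2 + (u * C - v * A) ^ 2) := by
    field_simp
    ring
  have key2 : ρ ^ 2 * (A + C) ^ 2 + (u * C - v * A) ^ 2 =
      2 * A * C * (ρ ^ 2 + A * C - u * v) := by
    calc ρ ^ 2 * (A + C) ^ 2 + (u * C - v * A) ^ 2 =
          ρ ^ 2 * (A + C) ^ 2 + (u ^ 2 * C ^ 2 + v ^ 2 * A ^ 2 - 2 * u * v * A * C) := by ring
      _ = 2 * A * C * (ρ ^ 2 + A * C - u * v) := by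
          rw [hRA, hRC]
          ring
  rw [key, key2]
  field_simp

namespace Quad

/-- The left geodesic, given by its end points. -/
def left (s : Quad) : ℝ × ℝ := (s.a, s.b)

/-- The right geodesic, given by its end points. -/
def right (s : Quad) : ℝ × ℝ := (s.c, s.d)

variable {s : Quad}

lemma radL_pos (h : s.Good) : 0 < rad s.left := by
  unfold rad left
  simp only
  linarith [h.1]

lemma radR_pos (h : s.Good) : 0 < rad s.right := by
  unfold rad right
  simp only
  linarith [h.2.2]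

lemma perpL_aux (s : Quad) : (s.m - cen s.left) ^ 2 = s.R2 + rad s.left ^ 2 := by
  unfold R2 cen rad left
  ring

lemma perpR_aux (h : s.Good) : (s.m - cen s.right) ^ 2 = s.R2 + rad s.right ^ 2 := by
  rw [R2_eq h]
  unfold cen rad right
  ring

lemma sqrt_R2_pos (h : s.Good) : 0 < √s.R2 := Real.sqrt_pos.2 (R2_pos h)

lemma sqrt_R2_sq (h : s.Good) : √s.R2 ^ 2 = s.R2 := Real.sq_sqrt (R2_pos h).le

lemma perpL (h : s.Good) : Perp s.m (√s.R2) s.left := by
  unfold Perp
  rw [sqrt_R2_sq h]
  exact perpL_aux s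

lemma perpR (h : s.Good) : Perp s.m (√s.R2) s.right := by
  unfold Perp
  rw [sqrt_R2_sq h]
  exact perpR_aux h

lemma m_gt (h : s.Good) : cen s.left < s.m := by
  have h1 := m_sub_b h
  obtain ⟨g1, g2, g3⟩ := h
  have h2 : 0 < (s.c - s.b) * (s.d - s.b) / ((s.c + s.d) - (s.a + s.b)) :=
    div_pos (mul_pos (by linarith) (by linarith)) (by linarith)
  unfold cen left
  simp only
  linarith

lemma m_lt (h : s.Good) : s.m < cen s.right := by
  have h1 : s.c - s.m = (s.c - s.a) * (s.c - s.b) / ((s.c + s.d) - (s.a + s.b)) := by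
    obtain ⟨g1, g2, g3⟩ := h
    have hden : 0 < (s.c + s.d) - (s.a + s.b) := by linarith
    unfold m
    field_simp
    ring
  obtain ⟨g1, g2, g3⟩ := h
  have h2 : 0 < (s.c - s.a) * (s.c - s.b) / ((s.c + s.d) - (s.a + s.b)) :=
    div_pos (mul_pos (by linarith) (by linarith)) (by linarith)
  unfold cen right
  simp only
  linarith

lemma eqA (h : s.Good) : rad s.left ^ 2 = (s.m - cen s.left) ^ 2 - √s.R2 ^ 2 := by
  have := perpL h
  unfold Perp at this
  linarith

lemma eqC (h : s.Good) : rad s.right ^ 2 = (cen s.right - s.m) ^ 2 - √s.R2 ^ 2 := by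
  have := perpR h
  unfold Perp at this
  have h2 : (cen s.right - s.m) ^ 2 = (s.m - cen s.right) ^ 2 := by ring
  linarith

lemma eqS (h : s.Good) {S : ℝ} (hc : s.Cross S) :
    S * (2 * rad s.left * rad s.right) =
      √s.R2 ^ 2 + (s.m - cen s.left) * (cen s.right - s.m) - rad s.left * rad s.right := by
  have hRA := eqA h
  have hRC := eqC h
  unfold Cross at hc
  have c1 : s.c - s.b = (s.m - cen s.left) + (cen s.right - s.m) - rad s.left - rad s.right := by
    unfold cen rad left right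
    simp only
    ring
  have c2 : s.d - s.a = (s.m - cen s.left) + (cen s.right - s.m) + rad s.left + rad s.right := by
    unfold cen rad left right
    simp only
    ring
  have c3 : s.b - s.a = 2 * rad s.left := by
    unfold rad left
    simp only
    ring
  have c4 : s.d - s.c = 2 * rad s.right := by
    unfold rad right
    simp only
    ring
  rw [c1, c2, c3, c4] at hc
  linear_combination (-1 / 2) * hc - (1 / 2) * hRA - (1 / 2) * hRC

/-- The point of intersection of the common perpendicular with the left geodesic. -/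
noncomputable def footL (s : Quad) (h : s.Good) : ℍ :=
  ⟨⟨cen s.left + rad s.left ^ 2 / (s.m - cen s.left),
    rad s.left * √s.R2 / (s.m - cen s.left)⟩,
    div_pos (mul_pos (radL_pos h) (sqrt_R2_pos h)) (by linarith [m_gt h])⟩

/-- The point of intersection of the common perpendicular with the right geodesic. -/
noncomputable def footR (s : Quad) (h : s.Good) : ℍ :=
  ⟨⟨cen s.right - rad s.right ^ 2 / (cen s.right - s.m),
    rad s.right * √s.R2 / (cen s.right - s.m)⟩,
    div_pos (mul_pos (radR_pos h) (sqrt_R2_pos h)) (by linarith [m_lt h])⟩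

lemma footL_mem (h : s.Good) : footL s h ∈ geod s.left := by
  have h1 := m_gt h
  have h1' : s.m - cen s.left ≠ 0 := by linarith
  have hR := eqA h
  unfold geod
  rw [mem_ofPred_eq, Region.normSq_sub_real]
  unfold footL
  simp only
  rw [add_sub_cancel_left, div_pow, div_pow, mul_pow, show √s.R2 ^ 2 =
    (s.m - cen s.left) ^ 2 - rad s.left ^ 2 by linarith]
  field_simp
  ring

lemma footR_mem (h : s.Good) : footR s h ∈ geod s.right := by
  have h1 := m_lt h
  have h1' : cen s.right - s.m ≠ 0 := by linarith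
  have hR := eqC h
  unfold geod
  rw [mem_ofPred_eq, Region.normSq_sub_real]
  unfold footR
  simp only
  rw [div_pow, mul_pow, show √s.R2 ^ 2 =
    (cen s.right - s.m) ^ 2 - rad s.right ^ 2 by linarith]
  field_simp
  ring

lemma cosh_half (L : ℝ) : Real.cosh (L / 2) = 1 + 2 * Real.sinh (L / 4) ^ 2 := by
  rw [show L / 2 = 2 * (L / 4) by ring, Real.cosh_two_mul, Real.cosh_sq]
  ring

/-- The length of the common perpendicular. -/
lemma dist_feet (h : s.Good) {L : ℝ} (hL : 0 ≤ L) (hc : s.Cross (Real.sinh (L / 4) ^ 2)) :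
    dist (footL s h) (footR s h) = L / 2 := by
  have hcosh : Real.cosh (dist (footL s h) (footR s h)) = Real.cosh (L / 2) := by
    rw [UpperHalfPlane.cosh_dist, cosh_half]
    congr 1
    have hdist : dist ((footL s h : ℍ) : ℂ) ((footR s h : ℍ) : ℂ) ^ 2 =
        ((s.m - cen s.left) - rad s.left ^ 2 / (s.m - cen s.left) +
          ((cen s.right - s.m) - rad s.right ^ 2 / (cen s.right - s.m))) ^ 2 +
        (rad s.left * √s.R2 / (s.m - cen s.left) -
          rad s.right * √s.R2 / (cen s.right - s.m)) ^ 2 := by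
      rw [dist_eq_norm, ← Complex.normSq_eq_norm_sq, normSq_apply, sub_re, sub_im]
      unfold footL footR
      simp only
      ring
    have him1 : (footL s h).im = rad s.left * √s.R2 / (s.m - cen s.left) := rfl
    have him2 : (footR s h).im = rad s.right * √s.R2 / (cen s.right - s.m) := rfl
    rw [hdist, him1, him2]
    exact core_eq (by linarith [m_gt h]) (by linarith [m_lt h]) (radL_pos h) (radR_pos h)
      (sqrt_R2_pos h) (eqA h) (eqC h) (eqS h hc)
  exact Real.cosh_strictMonoOn.injOn (Set.mem_Ici.2 dist_nonneg)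
    (Set.mem_Ici.2 (by linarith)) hcosh

/-- The distance of two arbitrary points on the two geodesics of a pair. -/
lemma le_dist (h : s.Good) {L : ℝ} (hL : 0 ≤ L) (hc : s.Cross (Real.sinh (L / 4) ^ 2)) {z w : ℍ}
    (hz : z ∈ geod s.left) (hw : w ∈ geod s.right) : L / 2 ≤ dist z w := by
  have hcosh : Real.cosh (L / 2) ≤ Real.cosh (dist z w) := by
    rw [UpperHalfPlane.cosh_dist, cosh_half]
    have hRA := eqA h
    have hRC := eqC h
    have hzX : 2 * (s.m - cen s.left) * (s.m - (z : ℂ).re) =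
        (s.m - (z : ℂ).re) ^ 2 + z.im ^ 2 + √s.R2 ^ 2 := by
      have h1 : normSq ((z : ℂ) - cen s.left) = rad s.left ^ 2 := hz
      rw [Region.normSq_sub_real] at h1
      have h3 : (z : ℂ).im = z.im := rfl
      rw [h3] at h1
      linear_combination - h1 - hRA
    have hwY : 2 * (cen s.right - s.m) * ((w : ℂ).re - s.m) =
        ((w : ℂ).re - s.m) ^ 2 + w.im ^ 2 + √s.R2 ^ 2 := by
      have h1 : normSq ((w : ℂ) - cen s.right) = rad s.right ^ 2 := hw
      rw [Region.normSq_sub_real] at h1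
      have h3 : (w : ℂ).im = w.im := rfl
      rw [h3] at h1
      linear_combination - h1 - hRC
    have hd : dist ((z : ℍ) : ℂ) ((w : ℍ) : ℂ) ^ 2 =
        ((s.m - (z : ℂ).re) + ((w : ℂ).re - s.m)) ^ 2 + (z.im - w.im) ^ 2 := by
      rw [dist_eq_norm, ← Complex.normSq_eq_norm_sq, normSq_apply, sub_re, sub_im]
      have h3 : (z : ℂ).im = z.im := rfl
      have h4 : (w : ℂ).im = w.im := rfl
      rw [h3, h4]
      ring
    rw [hd]
    exact core_le (by linarith [m_gt h]) (by linarith [m_lt h]) (radL_pos h) (radR_pos h)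
      (sqrt_R2_pos h) z.im_pos w.im_pos hRA hRC hzX hwY (eqS h hc)
  exact (Real.cosh_strictMonoOn.le_iff_le (Set.mem_Ici.2 (by linarith))
    (Set.mem_Ici.2 dist_nonneg)).1 hcosh

/-- The distance of the two geodesics of a pair is determined by the cross ratio. -/
theorem geodDist_of_cross (h : s.Good) {L : ℝ} (hL : 0 ≤ L)
    (hc : s.Cross (Real.sinh (L / 4) ^ 2)) : GeodDist s.left s.right (L / 2) := by
  constructor
  · exact ⟨footL s h, footL_mem h, footR s h, footR_mem h, (dist_feet h hL hc).symm⟩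
  · rintro r ⟨z, hz, w, hw, rfl⟩
    exact le_dist h hL hc hz hw

theorem cross_of_geodDist (h : s.Good) {L : ℝ}
    (hd : GeodDist s.left s.right (L / 2)) : s.Cross (Real.sinh (L / 4) ^ 2) := by
  obtain ⟨h1, h2, h3⟩ := h
  set x := (s.c - s.b) * (s.d - s.a) / ((s.b - s.a) * (s.d - s.c)) with hx
  have e1 : 0 < (s.b - s.a) * (s.d - s.c) := mul_pos (by linarith) (by linarith)
  have hx0 : 0 ≤ x := div_nonneg (mul_nonneg (by linarith) (by linarith)) e1.le
  set L' := 4 * Real.arsinh (√x) with hL'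
  have hL'0 : 0 ≤ L' := by
    rw [hL']
    have := Real.arsinh_nonneg_iff.2 (Real.sqrt_nonneg x)
    linarith
  have hcr : s.Cross (Real.sinh (L' / 4) ^ 2) := by
    have e2 : L' / 4 = Real.arsinh (√x) := by
      rw [hL']
      ring
    rw [e2, Real.sinh_arsinh, Real.sq_sqrt hx0]
    unfold Cross
    rw [hx, div_mul_cancel₀ _ e1.ne']
  have hd' := geodDist_of_cross ⟨h1, h2, h3⟩ hL'0 hcr
  have : L / 2 = L' / 2 := hd.unique hd'
  have hLL : L = L' := by linarith
  rw [hLL]
  exact hcr

end Quad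

end Pool.Agent.MP_b90f02
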