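import Pool.Agent.MP_b90f02_an.Chain

set_option autoImplicit false

open Real

namespace Pool.Agent.MP_b90f02

/-- The basic estimate for one step. -/
lemma step_estimate {A B S S' J ρ : ℝ} (hA : 0 < A) (hB : 0 < B) (_ : 0 < S) (hS' : 0 < S')
    (hJ : 0 < J) (hρ : 0 < ρ) (hρ1 : ρ < 1) (hSS : S ≤ ρ * S') (hcr : 1 + A + B = S * (A * B))
    {A' B' J' : ℝ} (hA' : A' = (1 + B) / (S' * B)) (hB' : B' = B + (1 + B) / S')
    (hJ' : J' = J / (1 + A')) :
    (1 + A') * (1 + B') ≤ (1 + A) * (1 + B) * (1 + 1 / S') ∧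
    log J - ρ / (1 - ρ) * (A + B) - ρ / (1 - ρ) * ((1 + A) * (1 + B)) * (1 / S') ≤
      log J' - ρ / (1 - ρ) * (A' + B') := by
  have hA'0 : 0 < A' := by
    rw [hA']
    positivity
  have h1 : A' ≤ ρ * A := by
    rw [hA', div_le_iff₀ (by positivity)]
    have h2 : 1 + B ≤ S * (A * B) := by linarith
    have h3 : S * (A * B) ≤ ρ * S' * (A * B) := mul_le_mul_of_nonneg_right hSS (by positivity)
    nlinarith
  have hAA : A' ≤ A := by nlinarith
  have hρ' : 0 < 1 - ρ := by linarith
  set κ := ρ / (1 - ρ) with hκ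
  have hκ0 : 0 < κ := div_pos hρ hρ'
  have hκρ : (1 + κ) * ρ = κ := by
    rw [hκ]
    field_simp
    ring
  have e1 : 1 + B' = (1 + B) * (1 + 1 / S') := by
    rw [hB']
    field_simp
    ring
  constructor
  · rw [e1]
    have h4 : 0 < (1 + B) * (1 + 1 / S') := by positivity
    nlinarith
  · have h5 : log J' = log J - log (1 + A') := by
      rw [hJ', log_div hJ.ne' (by positivity)]
    have h6 : log (1 + A') ≤ A' := by
      have := log_le_sub_one_of_pos (show (0 : ℝ) < 1 + A' by positivity)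
      linarith
    have h7 : (1 + κ) * A' ≤ κ * A := by
      calc (1 + κ) * A' ≤ (1 + κ) * (ρ * A) := mul_le_mul_of_nonneg_left h1 (by positivity)
        _ = ((1 + κ) * ρ) * A := by ring
        _ = κ * A := by rw [hκρ]
    have h8 : κ * ((1 + B) / S') ≤ κ * ((1 + A) * (1 + B)) * (1 / S') := by
      have h9 : (1 + B) / S' ≤ (1 + A) * (1 + B) * (1 / S') := by
        rw [mul_one_div]
        apply div_le_div_of_nonneg_right _ hS'.le
        nlinarith
      calc κ * ((1 + B) / S') ≤ κ * ((1 + A) * (1 + B) * (1 / S')) :=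
            mul_le_mul_of_nonneg_left h9 hκ0.le
        _ = _ := by ring
    rw [h5, hB']
    have e2 : κ * (A' + (B + (1 + B) / S')) = κ * A' + κ * B + κ * ((1 + B) / S') := by ring
    have e3 : κ * (A + B) = κ * A + κ * B := by ring
    have e4 : (1 + κ) * A' = A' + κ * A' := by ring
    rw [e2, e3]
    linarith

namespace Quad

/-- the gap -/
noncomputable def J (s : Quad) : ℝ := s.c - s.b
/-- width of the first geodesic relative to the gap -/
noncomputable def A (s : Quad) : ℝ := (s.b - s.a) / (s.c - s.b)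
/-- width of the second geodesic relative to the gap -/
noncomputable def B (s : Quad) : ℝ := (s.d - s.c) / (s.c - s.b)

variable {s : Quad} {S S' : ℝ}

lemma J_pos (h : s.Good) : 0 < s.J := by
  unfold J
  linarith [h.2.1]

lemma A_pos (h : s.Good) : 0 < s.A := by
  unfold A
  exact div_pos (by linarith [h.1]) (by linarith [h.2.1])

lemma B_pos (h : s.Good) : 0 < s.B := by
  unfold B
  exact div_pos (by linarith [h.2.2]) (by linarith [h.2.1])

lemma cross_AB (h : s.Good) (hc : s.Cross S) : 1 + s.A + s.B = S * (s.A * s.B) := by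
  unfold Cross at hc
  unfold A B
  obtain ⟨h1, h2, h3⟩ := h
  have h4 : 0 < s.c - s.b := by linarith
  field_simp
  nlinarith

lemma next_true_formulas (h : s.Good) (hS' : 0 < S') :
    (s.next S' true).A = (1 + s.B) / (S' * s.B) ∧
    (s.next S' true).B = s.B + (1 + s.B) / S' ∧
    (s.next S' true).J = s.J / (1 + (s.next S' true).A) := by
  obtain ⟨h1, h2, h3⟩ := h
  have e1 : 0 < s.c - s.b := by linarith
  have e2 : 0 < s.d - s.c := by linarith
  have e3 : 0 < s.d - s.b := by linarith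
  have e4 : 0 < (s.d - s.b) + S' * (s.d - s.c) := by positivity
  have eJ : s.c - (s.b + (s.c - s.b) * (s.d - s.b) / ((s.d - s.b) + S' * (s.d - s.c))) =
      (s.c - s.b) * (S' * (s.d - s.c)) / ((s.d - s.b) + S' * (s.d - s.c)) := by
    field_simp
    ring
  have hA : (s.next S' true).A = (s.d - s.b) / (S' * (s.d - s.c)) := by
    rw [next_true]
    unfold A
    simp only
    rw [eJ]
    field_simp
    ring
  refine ⟨?_, ?_, ?_⟩
  · rw [hA]
    unfold B
    field_simp
    ring
  · rw [next_true]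
    unfold B
    simp only
    rw [eJ]
    field_simp
    ring
  · rw [hA, next_true]
    unfold J
    simp only
    rw [eJ]
    field_simp
    ring

lemma next_false_formulas (h : s.Good) (hS' : 0 < S') :
    (s.next S' false).B = (1 + s.A) / (S' * s.A) ∧
    (s.next S' false).A = s.A + (1 + s.A) / S' ∧
    (s.next S' false).J = s.J / (1 + (s.next S' false).B) := by
  obtain ⟨h1, h2, h3⟩ := h
  have e1 : 0 < s.c - s.b := by linarith
  have e2 : 0 < s.b - s.a := by linarith
  have e3 : 0 < s.c - s.a := by linarith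
  have e4 : 0 < (s.c - s.a) + S' * (s.b - s.a) := by positivity
  have eJ : s.c - (s.c - s.b) * (s.c - s.a) / ((s.c - s.a) + S' * (s.b - s.a)) - s.b =
      (s.c - s.b) * (S' * (s.b - s.a)) / ((s.c - s.a) + S' * (s.b - s.a)) := by
    field_simp
    ring
  have hB : (s.next S' false).B = (s.c - s.a) / (S' * (s.b - s.a)) := by
    rw [next_false]
    unfold B
    simp only
    rw [eJ]
    field_simp
    ring
  refine ⟨?_, ?_, ?_⟩
  · rw [hB]
    unfold A
    field_simp
    ring
  · rw [next_false]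
    unfold A
    simp only
    rw [eJ]
    field_simp
    ring
  · rw [hB, next_false]
    unfold J
    simp only
    rw [eJ]
    field_simp
    ring

/-- potential -/
noncomputable def Psi (ρ : ℝ) (s : Quad) : ℝ := log s.J - ρ / (1 - ρ) * (s.A + s.B)

/-- size -/
noncomputable def M (s : Quad) : ℝ := (1 + s.A) * (1 + s.B)

lemma next_estimate (h : s.Good) (hc : s.Cross S) (hS : 0 < S) (hS' : 0 < S') {ρ : ℝ}
    (hρ : 0 < ρ) (hρ1 : ρ < 1) (hSS : S ≤ ρ * S') (e : Bool) :
    (s.next S' e).M ≤ s.M * (1 + 1 / S') ∧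
    s.Psi ρ - ρ / (1 - ρ) * s.M * (1 / S') ≤ (s.next S' e).Psi ρ := by
  have hcr := cross_AB h hc
  cases e with
  | true =>
    obtain ⟨f1, f2, f3⟩ := next_true_formulas h hS'
    exact step_estimate (A_pos h) (B_pos h) hS hS' (J_pos h) hρ hρ1 hSS hcr f1 f2 f3
  | false =>
    obtain ⟨f1, f2, f3⟩ := next_false_formulas h hS'
    have hcr' : 1 + s.B + s.A = S * (s.B * s.A) := by linarith
    obtain ⟨g1, g2⟩ := step_estimate (B_pos h) (A_pos h) hS hS' (J_pos h) hρ hρ1 hSS hcr' f1 f2 f3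
    unfold M Psi
    constructor
    · linarith
    · rw [add_comm s.A s.B, add_comm (s.next S' false).A, mul_comm (1 + s.A)]
      exact g2

end Quad

/-- Sequence estimate. -/
lemma potential_bound {M Ψ f : ℕ → ℝ} {κ : ℝ} (hκ : 0 ≤ κ) (hf : ∀ j, 0 ≤ f j) (hsum : Summable f)
    (hM0 : ∀ j, 0 ≤ M j) (hM : ∀ j, M (j + 1) ≤ M j * (1 + f j))
    (hΨ : ∀ j, Ψ j - κ * M j * f j ≤ Ψ (j + 1)) :
    ∃ C : ℝ, ∀ j, C ≤ Ψ j := by
  set σ := ∑' j, f j with hσ
  have hpart : ∀ j, ∑ i ∈ Finset.range j, f i ≤ σ := fun j =>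
    hsum.sum_le_tsum _ (fun i _ => hf i)
  have h1 : ∀ j, M j ≤ M 0 * exp (∑ i ∈ Finset.range j, f i) := by
    intro j
    induction j with
    | zero => simp
    | succ j ih =>
      have h2 : 1 + f j ≤ exp (f j) := by
        have := add_one_le_exp (f j)
        linarith
      have h3 : 0 ≤ 1 + f j := by linarith [hf j]
      calc M (j + 1) ≤ M j * (1 + f j) := hM j
        _ ≤ (M 0 * exp (∑ i ∈ Finset.range j, f i)) * exp (f j) := by
            apply mul_le_mul ih h2 h3
            exact mul_nonneg (hM0 0) (exp_pos _).le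
        _ = M 0 * exp (∑ i ∈ Finset.range (j + 1), f i) := by
            rw [Finset.sum_range_succ, exp_add]
            ring
  have h2 : ∀ j, M j ≤ M 0 * exp σ := fun j =>
    (h1 j).trans (mul_le_mul_of_nonneg_left (exp_le_exp.2 (hpart j)) (hM0 0))
  have h3 : ∀ j, Ψ 0 - κ * (M 0 * exp σ) * ∑ i ∈ Finset.range j, f i ≤ Ψ j := by
    intro j
    induction j with
    | zero => simp
    | succ j ih =>
      have h4 : κ * M j * f j ≤ κ * (M 0 * exp σ) * f j :=
        mul_le_mul_of_nonneg_right (mul_le_mul_of_nonneg_left (h2 j) hκ) (hf j)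
      rw [Finset.sum_range_succ, mul_add]
      linarith [hΨ j]
  refine ⟨Ψ 0 - κ * (M 0 * exp σ) * σ, fun j => ?_⟩
  have h5 : κ * (M 0 * exp σ) * ∑ i ∈ Finset.range j, f i ≤ κ * (M 0 * exp σ) * σ := by
    apply mul_le_mul_of_nonneg_left (hpart j)
    have := hM0 0
    positivity
  linarith [h3 j]

/-- Growth of the hyperbolic sine. -/
lemma sinhSq_growth {x h : ℝ} (hx : 0 < x) (hh : 0 ≤ h) :
    sinh x ^ 2 ≤ exp (-(2 * h)) * sinh (x + h) ^ 2 := by
  have h1 : exp h * sinh x ≤ sinh (x + h) := by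
    rw [sinh_add]
    have h2 : exp h = cosh h + sinh h := (cosh_add_sinh h).symm
    have h3 : sinh x ≤ cosh x := (sinh_lt_cosh x).le
    have h4 : 0 ≤ sinh h := sinh_nonneg_iff.2 hh
    rw [h2]
    nlinarith
  have h5 : 0 < exp h * sinh x := mul_pos (exp_pos _) (sinh_pos_iff.2 hx)
  have h6 : (exp h * sinh x) ^ 2 ≤ sinh (x + h) ^ 2 := pow_le_pow_left₀ h5.le h1 2
  calc sinh x ^ 2 = exp (-(2 * h)) * (exp h * sinh x) ^ 2 := by
        rw [mul_pow, ← mul_assoc, ← exp_nat_mul, ← exp_add]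
        norm_num
    _ ≤ exp (-(2 * h)) * sinh (x + h) ^ 2 := mul_le_mul_of_nonneg_left h6 (exp_pos _).le

/-- The gap does not close. -/
theorem gap_pos {l : ℕ → ℝ} (hl : ∀ n, 0 < l n) {Q : ℕ → Quad} (hQ : Chain Q)
    (hcross : ∀ n, (Q n).Cross (sinh (l n / 4) ^ 2)) {e : ℕ → Bool}
    (hnext : ∀ n, Q (n + 1) = (Q n).next (sinh (l (n + 1) / 4) ^ 2) (e n))
    {c : ℝ} (hc : 0 < c) {N : ℕ} (hN : ∀ n, N ≤ n → l n + c ≤ l (n + 1)) :
    ∃ j0 : ℝ, 0 < j0 ∧ ∀ n k, (Q n).b + j0 ≤ (Q k).c := by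
  set S : ℕ → ℝ := fun n => sinh (l n / 4) ^ 2 with hS
  have hSpos : ∀ n, 0 < S n := fun n => sinhSq_pos hl n
  set ρ := exp (-(c / 2)) with hρ
  have hρ0 : 0 < ρ := exp_pos _
  have hρ1 : ρ < 1 := by
    rw [hρ, exp_lt_one_iff]
    linarith
  have hSS : ∀ n, N ≤ n → S n ≤ ρ * S (n + 1) := by
    intro n hn
    have h1 := sinhSq_growth (x := l n / 4) (h := c / 4) (by linarith [hl n]) (by linarith)
    have h2 : sinh (l n / 4 + c / 4) ^ 2 ≤ S (n + 1) := by
      apply pow_le_pow_left₀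
      · exact sinh_nonneg_iff.2 (by linarith [hl n])
      · exact sinh_le_sinh.2 (by linarith [hN n hn])
    have h3 : exp (-(2 * (c / 4))) = ρ := by
      rw [hρ]
      congr 1
      ring
    rw [h3] at h1
    exact h1.trans (mul_le_mul_of_nonneg_left h2 hρ0.le)
  set f : ℕ → ℝ := fun j => 1 / S (N + j + 1) with hf
  have hf0 : ∀ j, 0 ≤ f j := fun j => by
    have := hSpos (N + j + 1)
    simp only [hf]
    positivity
  have hgeo : ∀ j, S N ≤ ρ ^ j * S (N + j) := by
    intro j
    induction j with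
    | zero => simp
    | succ j ih =>
      have h1 := hSS (N + j) (Nat.le_add_right _ _)
      calc S N ≤ ρ ^ j * S (N + j) := ih
        _ ≤ ρ ^ j * (ρ * S (N + j + 1)) := mul_le_mul_of_nonneg_left h1 (by positivity)
        _ = ρ ^ (j + 1) * S (N + (j + 1)) := by
            rw [pow_succ, ← add_assoc]
            ring
  have hsum : Summable f := by
    have hg : Summable (fun j : ℕ => (1 / S N) * ρ ^ (j + 1)) := by
      have := (summable_geometric_of_lt_one hρ0.le hρ1).mul_left (1 / S N * ρ)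
      refine this.congr (fun j => ?_)
      rw [pow_succ]
      ring
    refine Summable.of_nonneg_of_le hf0 (fun j => ?_) hg
    have h1 := hgeo (j + 1)
    have h2 := hSpos N
    have h3 := hSpos (N + (j + 1))
    simp only [hf]
    rw [← add_assoc] at h1 h3
    rw [div_le_iff₀ h3, mul_assoc, one_div, ← div_eq_inv_mul, le_div_iff₀ h2]
    linarith
  have hest : ∀ j, (Q (N + j + 1)).M ≤ (Q (N + j)).M * (1 + f j) ∧
      (Q (N + j)).Psi ρ - ρ / (1 - ρ) * (Q (N + j)).M * f j ≤ (Q (N + j + 1)).Psi ρ := by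
    intro j
    rw [hnext (N + j)]
    exact Quad.next_estimate (hQ.good (N + j)) (hcross (N + j)) (hSpos (N + j))
      (hSpos (N + j + 1)) hρ0 hρ1 (hSS (N + j) (Nat.le_add_right _ _)) (e (N + j))
  have hM0 : ∀ n, 0 ≤ (Q n).M := by
    intro n
    have h1 := Quad.A_pos (hQ.good n)
    have h2 := Quad.B_pos (hQ.good n)
    unfold Quad.M
    positivity
  have hκ : 0 ≤ ρ / (1 - ρ) := div_nonneg hρ0.le (by linarith)
  obtain ⟨C, hC⟩ := potential_bound (M := fun j => (Q (N + j)).M)
    (Ψ := fun j => (Q (N + j)).Psi ρ) hκ hf0 hsum (fun j => hM0 _)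
    (fun j => (hest j).1) (fun j => (hest j).2)
  have hJ : ∀ j, exp C ≤ (Q (N + j)).J := by
    intro j
    have h1 := Quad.A_pos (hQ.good (N + j))
    have h2 := Quad.B_pos (hQ.good (N + j))
    have h3 := Quad.J_pos (hQ.good (N + j))
    have h4 := hC j
    unfold Quad.Psi at h4
    have h5 : 0 ≤ ρ / (1 - ρ) * ((Q (N + j)).A + (Q (N + j)).B) := by positivity
    have h6 : C ≤ log (Q (N + j)).J := by linarith
    calc exp C ≤ exp (log (Q (N + j)).J) := exp_le_exp.2 h6
      _ = _ := exp_log h3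
  refine ⟨exp C, exp_pos _, fun n k => ?_⟩
  have h1 := hJ (max n k)
  have h2 := hQ.b_mono (show n ≤ N + max n k from (le_max_left n k).trans (Nat.le_add_left _ _))
  have h3 := hQ.c_anti (show k ≤ N + max n k from (le_max_right n k).trans (Nat.le_add_left _ _))
  unfold Quad.J at h1
  simp only at h2 h3
  linarith

end Pool.Agent.MP_b90f02
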