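import Pool.Agent.MP_b90f02_an.Dist
import Pool.Agent.MP_b90f02_an.Gap

set_option autoImplicit false

/-!
# The front half of a flute surface with twists `0` and `1/2`

Lengths and twists are indexed from `0`: `l n` is the length `ℓ_(n+1)` of `α_(n+1)`, and `t n` is the
twist `t_(n+1)`.

For twists in `{0, 1/2}` the orientation reversing involutions of the pairs of pants (for `P_0` the
one which exchanges its two cusps and fixes the orthogeodesic from `α_1` to itself pointwise, for
`P_n` with `n ≥ 1` the one which fixes all its simple orthogeodesics) fit together to an involution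
of the flute surface, and the surface is the double of its front half.

The front half of `P_n`, `n ≥ 1`, is a pentagon with one ideal vertex (the cusp) and four right
angles, with sides: half of `α_n`, the orthogeodesic from `α_n` to `α_(n+1)`, half of `α_(n+1)`,
and two rays to the cusp.  The front half of `P_0` is a punctured disc, bounded by half of `α_1` and
by the orthogeodesic from `α_1` to itself.

We develop the front half of the surface into the upper half-plane, with the cusp of `P_0` at
infinity and with the corresponding parabolic element `z ↦ z + lam`.  The fixed lines of the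
involution become geodesics.  The front half of `α_(n+1)` is the segment of the common perpendicular
of two of them, `left n` and `right n`; since its length is `l n / 2`, this is the distance of
`left n` and `right n`.  The geodesics `left 0` and `right 0` both correspond to the orthogeodesic
from `α_1` to itself, hence `right 0` is the translate of `left 0` by `lam`; we normalise `left 0` to
have the end points `-1` and `0`.  The cusp of `P_(n+1)` is the end point `(left n).2` of `left n`
if it is on the left, and then the next two geodesics are `left (n + 1)`, which starts in this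
cusp, and `right (n + 1) = right n`, which contains the orthogeodesic from `α_(n+1)` to `α_(n+2)`;
if it is on the right it is the end point `(right n).1` of `right n`, and then the next two
geodesics are `left (n + 1) = left n` and `right (n + 1)`, which ends in this cusp.  The cusps of
`P_(n+1)` and `P_(n+2)` are on the same side if and only if the twist `t (n + 1)` at `α_(n+2)` is
zero.  (For the twist at `α_1`, both `0` and `1/2` give the same two isometric pictures.)
-/

open Complex Set Topology Filter
open scoped UpperHalfPlane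

namespace Pool.Agent.MP_b90f02

/-- The front half of the flute surface with lengths `l` and twists `t` in `{0, 1/2}`, developed in
the upper half-plane. -/
structure FluteData (l t : ℕ → ℝ) where
  /-- the translation length of the parabolic element at infinity -/
  lam : ℝ
  /-- the left geodesic which meets the front half of `α (n + 1)`, given by its end points -/
  left : ℕ → ℝ × ℝ
  /-- the right geodesic which meets the front half of `α (n + 1)`, given by its end points -/
  right : ℕ → ℝ × ℝ
  /-- the centre of the geodesic containing the front half of `α (n + 1)` -/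
  centre : ℕ → ℝ
  /-- the radius of the geodesic containing the front half of `α (n + 1)` -/
  radius : ℕ → ℝ
  /-- whether the cusp of `P (n + 1)` is on the left -/
  cuspLeft : ℕ → Bool
  left_lt : ∀ n, (left n).1 < (left n).2
  left_lt_right : ∀ n, (left n).2 < (right n).1
  right_lt : ∀ n, (right n).1 < (right n).2
  radius_pos : ∀ n, 0 < radius n
  perp_left : ∀ n, Perp (centre n) (radius n) (left n)
  perp_right : ∀ n, Perp (centre n) (radius n) (right n)
  dist_eq : ∀ n, GeodDist (left n) (right n) (l n / 2)
  left_zero : left 0 = (-1, 0)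
  right_zero : right 0 = (lam - 1, lam)
  cusp_iff : ∀ n, cuspLeft (n + 1) = cuspLeft n ↔ t (n + 1) = 0
  step_left : ∀ n, cuspLeft n = true → (left (n + 1)).1 = (left n).2 ∧ right (n + 1) = right n
  step_right : ∀ n, cuspLeft n = false → (right (n + 1)).2 = (right n).1 ∧ left (n + 1) = left n

namespace FluteData

variable {l t : ℕ → ℝ} (F : FluteData l t)

/-- The pairs of geodesics. -/
def q (n : ℕ) : Quad := ⟨(F.left n).1, (F.left n).2, (F.right n).1, (F.right n).2⟩

lemma q_good (n : ℕ) : (F.q n).Good := ⟨F.left_lt n, F.left_lt_right n, F.right_lt n⟩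

lemma chain : Chain F.q where
  good := F.q_good
  step := by
    intro n
    cases h : F.cuspLeft n with
    | true =>
      obtain ⟨h1, h2⟩ := F.step_left n h
      left
      unfold q
      simp only [h1, h2, and_self]
    | false =>
      obtain ⟨h1, h2⟩ := F.step_right n h
      right
      unfold q
      simp only [h1, h2, and_self]

lemma q_cross (n : ℕ) : (F.q n).Cross (Real.sinh (l n / 4) ^ 2) :=
  Quad.cross_of_geodDist (F.q_good n) (F.dist_eq n)

lemma q_next (n : ℕ) :
    F.q (n + 1) = (F.q n).next (Real.sinh (l (n + 1) / 4) ^ 2) (F.cuspLeft n) := by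
  set S := Real.sinh (l (n + 1) / 4) ^ 2 with hS
  have hS0 : 0 ≤ S := sq_nonneg _
  have hc := F.q_cross (n + 1)
  rw [← hS] at hc
  unfold Quad.Cross at hc
  have g1 := F.left_lt n
  have g2 := F.left_lt_right n
  have g3 := F.right_lt n
  cases h : F.cuspLeft n with
  | true =>
    obtain ⟨h1, h2⟩ := F.step_left n h
    have hb : (F.left (n + 1)).2 = (F.left n).2 + ((F.right n).1 - (F.left n).2) *
        ((F.right n).2 - (F.left n).2) /
        (((F.right n).2 - (F.left n).2) + S * ((F.right n).2 - (F.right n).1)) := by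
      have hden : 0 < ((F.right n).2 - (F.left n).2) + S * ((F.right n).2 - (F.right n).1) := by
        have := mul_nonneg hS0 (show 0 ≤ (F.right n).2 - (F.right n).1 by linarith)
        linarith
      unfold q at hc
      simp only [h1, h2] at hc
      rw [← sub_eq_iff_eq_add', eq_div_iff hden.ne']
      linear_combination -hc
    rw [Quad.next_true]
    unfold q
    simp only [h1, h2, hb]
  | false =>
    obtain ⟨h1, h2⟩ := F.step_right n h
    have hb : (F.right (n + 1)).1 = (F.right n).1 - ((F.right n).1 - (F.left n).2) *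
        ((F.right n).1 - (F.left n).1) /
        (((F.right n).1 - (F.left n).1) + S * ((F.left n).2 - (F.left n).1)) := by
      have hden : 0 < ((F.right n).1 - (F.left n).1) + S * ((F.left n).2 - (F.left n).1) := by
        have := mul_nonneg hS0 (show 0 ≤ (F.left n).2 - (F.left n).1 by linarith)
        linarith
      unfold q at hc
      simp only [h1, h2] at hc
      rw [eq_sub_iff_add_eq, ← eq_sub_iff_add_eq', div_eq_iff hden.ne']
      linear_combination hc
    rw [Quad.next_false]
    unfold q
    simp only [h1, h2, hb]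

lemma q_zero : F.q 0 = ⟨-1, 0, F.lam - 1, F.lam⟩ := by
  unfold q
  rw [F.left_zero, F.right_zero]

lemma one_lt_lam : 1 < F.lam := by
  have := F.left_lt_right 0
  rw [F.left_zero, F.right_zero] at this
  simp only at this
  linarith

lemma lam_pos : 0 < F.lam := by linarith [F.one_lt_lam]

lemma zero_le_b (n : ℕ) : 0 ≤ (F.left n).2 := by
  have h := F.chain.b_mono (Nat.zero_le n)
  simp only [F.q_zero] at h
  exact h

lemma d_le (n : ℕ) : (F.right n).2 ≤ F.lam := by
  have h := F.chain.d_anti (Nat.zero_le n)
  simp only [F.q_zero] at h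
  exact h

/-- The sides of the front half: all geodesics `left n` and `right n`, where `(-1, 0)` is left out
since it is a translate of the side `(lam - 1, lam)`. -/
def side : Set (ℝ × ℝ) :=
  {I | ∃ n, I = F.right n} ∪ {I | ∃ n, I = F.left n ∧ 0 ≤ I.1}

/-- The points above one of the geodesics containing the front halves of the curves `α (n + 1)`,
and above all its translates. -/
def V : Set ℂ := {z | ∃ n, Above F.lam (F.centre n) (F.radius n ^ 2) z}

lemma side_lt : ∀ I ∈ F.side, I.1 < I.2 := by
  rintro I (⟨n, rfl⟩ | ⟨n, rfl, -⟩)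
  · exact F.right_lt n
  · exact F.left_lt n

lemma side_nonneg : ∀ I ∈ F.side, 0 ≤ I.1 := by
  rintro I (⟨n, rfl⟩ | ⟨n, -, h⟩)
  · linarith [F.zero_le_b n, F.left_lt_right n]
  · exact h

lemma side_le : ∀ I ∈ F.side, I.2 ≤ F.lam := by
  rintro I (⟨n, rfl⟩ | ⟨n, rfl, -⟩)
  · exact F.d_le n
  · linarith [F.d_le n, F.left_lt_right n, F.right_lt n]

lemma side_width : ∀ I ∈ F.side, I.2 - I.1 < F.lam := by
  rintro I (⟨n, rfl⟩ | ⟨n, rfl, h⟩)
  · linarith [F.zero_le_b n, F.left_lt_right n, F.d_le n]
  · linarith [F.d_le n, F.left_lt_right n, F.right_lt n]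

lemma side_disj : ∀ I ∈ F.side, ∀ J ∈ F.side, I = J ∨ I.2 ≤ J.1 ∨ J.2 ≤ I.1 := by
  have hrr : ∀ n k, n ≤ k → F.right k = F.right n ∨ (F.right k).2 ≤ (F.right n).1 := by
    intro n k h
    rcases F.chain.right_or h with ⟨h1, h2⟩ | h1
    · exact Or.inl (Prod.ext h1 h2)
    · exact Or.inr h1
  have hll : ∀ n k, n ≤ k → F.left k = F.left n ∨ (F.left n).2 ≤ (F.left k).1 := by
    intro n k h
    rcases F.chain.left_or h with ⟨h1, h2⟩ | h1
    · exact Or.inl (Prod.ext h1 h2)
    · exact Or.inr h1
  rintro I (⟨n, rfl⟩ | ⟨n, rfl, -⟩) J (⟨k, rfl⟩ | ⟨k, rfl, -⟩)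
  · rcases le_total n k with h | h
    · rcases hrr n k h with h1 | h1
      · exact Or.inl h1.symm
      · exact Or.inr (Or.inr h1)
    · rcases hrr k n h with h1 | h1
      · exact Or.inl h1
      · exact Or.inr (Or.inl h1)
  · exact Or.inr (Or.inr (F.chain.b_lt_c k n).le)
  · exact Or.inr (Or.inl (F.chain.b_lt_c n k).le)
  · rcases le_total n k with h | h
    · rcases hll n k h with h1 | h1
      · exact Or.inl h1.symm
      · exact Or.inr (Or.inl h1)
    · rcases hll k n h with h1 | h1
      · exact Or.inl h1
      · exact Or.inr (Or.inr h1)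

/-- Only finitely many sides are large. -/
lemma side_fin : ∀ ε : ℝ, 0 < ε → {I | I ∈ F.side ∧ ε ≤ rad I}.Finite := by
  intro ε hε
  have hbdd : BddAbove (range fun n => (F.q n).b) :=
    ⟨(F.q 0).c, by rintro _ ⟨n, rfl⟩; exact (F.chain.b_lt_c n 0).le⟩
  have hbdd' : BddBelow (range fun n => (F.q n).c) :=
    ⟨(F.q 0).b, by rintro _ ⟨n, rfl⟩; exact (F.chain.b_lt_c 0 n).le⟩
  have hconv := tendsto_atTop_ciSup F.chain.b_mono hbdd
  have hconv' := tendsto_atTop_ciInf F.chain.c_anti hbdd'
  set x1 := ⨆ n, (F.q n).b with hx1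
  set x2 := ⨅ n, (F.q n).c with hx2
  have hle1 : ∀ n, (F.q n).b ≤ x1 := fun n => le_ciSup hbdd n
  have hle2 : ∀ n, x2 ≤ (F.q n).c := fun n => ciInf_le hbdd' n
  obtain ⟨N1, hN1⟩ := Filter.eventually_atTop.1
    (hconv.eventually (lt_mem_nhds (show x1 - ε < x1 by linarith)))
  obtain ⟨N2, hN2⟩ := Filter.eventually_atTop.1
    (hconv'.eventually (gt_mem_nhds (show x2 < x2 + ε by linarith)))
  set N := max N1 N2 with hN
  have hfin : (F.right '' (Set.Iic N) ∪ F.left '' (Set.Iic N)).Finite :=
    ((Set.finite_Iic N).image _).union ((Set.finite_Iic N).image _)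
  apply hfin.subset
  rintro I ⟨(⟨n, rfl⟩ | ⟨n, rfl, -⟩), hI⟩
  · left
    rcases le_total n N with h | h
    · exact ⟨n, h, rfl⟩
    · rcases F.chain.right_or h with ⟨h1, h2⟩ | h1
      · exact ⟨N, mem_Iic.2 le_rfl, (Prod.ext h1 h2).symm⟩
      · exfalso
        have h2 := hN2 N (le_max_right _ _)
        have h3 := hle2 n
        unfold rad at hI
        simp only [q] at h1 h2 h3
        linarith
  · right
    rcases le_total n N with h | h
    · exact ⟨n, h, rfl⟩
    · rcases F.chain.left_or h with ⟨h1, h2⟩ | h1
      · exact ⟨N, mem_Iic.2 le_rfl, (Prod.ext h1 h2).symm⟩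
      · exfalso
        have h2 := hN1 N (le_max_left _ _)
        have h3 := hle1 n
        unfold rad at hI
        simp only [q] at h1 h2 h3
        linarith

lemma V_open : IsOpen F.V := by
  have : F.V = ⋃ n, {z | Above F.lam (F.centre n) (F.radius n ^ 2) z} := by
    ext z
    simp [V]
  rw [this]
  exact isOpen_iUnion fun n => isOpen_above F.lam_pos _ _

lemma V_per (z : ℂ) : z ∈ F.V ↔ z + F.lam ∈ F.V := by
  have h : ∀ c R2 : ℝ, Above F.lam c R2 (z + F.lam) ↔ Above F.lam c R2 z := by
    intro c R2
    have := Region.above_add (lam := F.lam) (c := c) (R2 := R2) (z := z) 1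
    rwa [Int.cast_one, one_mul] at this
  unfold V
  simp only [mem_ofPred_eq, h]

lemma V_up : ∀ z ∈ F.V, 0 < z.im → ∀ s : ℝ, 0 ≤ s → z + s * Complex.I ∈ F.V := by
  rintro z ⟨n, hn⟩ hz s hs
  refine ⟨n, fun k => ?_⟩
  have h1 := hn k
  rw [Region.normSq_sub_real] at h1 ⊢
  simp only [add_re, mul_re, ofReal_re, I_re, mul_zero, ofReal_im, I_im, mul_one, sub_self,
    add_zero, add_im, mul_im]
  nlinarith

lemma V_high : ∃ H : ℝ, ∀ z : ℂ, H < z.im → z ∈ F.V := by
  refine ⟨F.radius 0, fun z hz => ⟨0, fun k => ?_⟩⟩
  have h1 := F.radius_pos 0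
  rw [Region.normSq_sub_real]
  nlinarith [sq_nonneg (z.re - (F.centre 0 + k * F.lam))]

/-- The front half of the union of the pairs of pants `P_n`, as a periodic region in the upper
half-plane: the points above all sides and above the front half of one of the curves
`α (n + 1)`. -/
def region : Region where
  lam := F.lam
  side := F.side
  V := F.V
  lam_pos := F.lam_pos
  side_lt := F.side_lt
  side_nonneg := F.side_nonneg
  side_le := F.side_le
  side_width := F.side_width
  side_disj := F.side_disj
  side_fin := F.side_fin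
  V_open := F.V_open
  V_per := F.V_per
  V_up := F.V_up
  V_high := F.V_high

/-- The whole region above the sides.  Its double is the complete hyperbolic surface obtained from
the union of the pairs of pants by attaching half-planes if that union is not complete. -/
def fullRegion : Region where
  lam := F.lam
  side := F.side
  V := univ
  lam_pos := F.lam_pos
  side_lt := F.side_lt
  side_nonneg := F.side_nonneg
  side_le := F.side_le
  side_width := F.side_width
  side_disj := F.side_disj
  side_fin := F.side_fin
  V_open := isOpen_univ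
  V_per := by simp
  V_up := by simp
  V_high := ⟨0, by simp⟩

/-- The sides leave a gap if the lengths eventually increase by at least `c`. -/
theorem exists_gap (hl : ∀ n, 0 < l n) {c : ℝ} (hc : 0 < c) {N : ℕ}
    (hN : ∀ n, N ≤ n → l n + c ≤ l (n + 1)) :
    ∃ x1 x2 : ℝ, x1 < x2 ∧ 0 ≤ x1 ∧ x2 ≤ F.lam ∧
      ∀ I ∈ F.side, I.2 ≤ x1 ∨ x2 ≤ I.1 := by
  obtain ⟨j0, hj0, hj⟩ := gap_pos hl F.chain F.q_cross F.q_next hc hN
  have hbdd : BddAbove (range fun n => (F.q n).b) :=
    ⟨(F.q 0).c, by rintro _ ⟨n, rfl⟩; exact (F.chain.b_lt_c n 0).le⟩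
  refine ⟨⨆ n, (F.q n).b, (⨆ n, (F.q n).b) + j0, by linarith, ?_, ?_, ?_⟩
  · have h1 : (F.q 0).b ≤ ⨆ n, (F.q n).b := le_ciSup hbdd 0
    have h2 := F.zero_le_b 0
    exact h2.trans h1
  · have h1 : (⨆ n, (F.q n).b) ≤ (F.q 0).c - j0 := by
      apply ciSup_le
      intro n
      linarith [hj n 0]
    have h2 := F.right_lt 0
    have h3 := F.d_le 0
    have h4 : (F.q 0).c = (F.right 0).1 := rfl
    linarith
  · rintro I (⟨k, rfl⟩ | ⟨k, rfl, -⟩)
    · right
      have h1 : (⨆ n, (F.q n).b) ≤ (F.q k).c - j0 := by
        apply ciSup_le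
        intro n
        linarith [hj n k]
      have h4 : (F.q k).c = (F.right k).1 := rfl
      linarith
    · left
      have h1 : (F.q k).b ≤ ⨆ n, (F.q n).b := le_ciSup hbdd k
      exact h1

/-- The point at the top of the side `right 0`. -/
lemma side_point_aux {z : ℂ} (hz : z = ⟨F.lam - 1 / 2, 1 / 2⟩) :
    z ∈ Region.strip (F.right 0) ∧ normSq (z - cen (F.right 0)) = rad (F.right 0) ^ 2 ∧
      z ∈ F.V ∧ 0 < z.im := by
  have hr := F.right_zero
  have hlam := F.one_lt_lam
  subst hz
  refine ⟨⟨?_, ?_⟩, ?_, ?_, ?_⟩
  · rw [hr]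
    change F.lam - 1 < F.lam - 1 / 2
    linarith
  · rw [hr]
    change F.lam - 1 / 2 < F.lam
    linarith
  · rw [Region.normSq_sub_real, hr]
    unfold cen rad
    simp only
    ring
  · refine ⟨0, fun k => ?_⟩
    have p1 := F.perp_left 0
    have p2 := F.perp_right 0
    unfold Perp cen rad at p1 p2
    rw [F.left_zero] at p1
    rw [F.right_zero] at p2
    simp only at p1 p2
    have hm : F.centre 0 = (F.lam - 1) / 2 := by
      have : F.lam * (F.centre 0 - (F.lam - 1) / 2) = 0 := by nlinarith
      rcases mul_eq_zero.1 this with h | h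
      · linarith
      · linarith
    rw [hm] at p1 ⊢
    rw [Region.normSq_sub_real]
    simp only
    have hk : (1 : ℝ) / 4 ≤ (1 / 2 - (k : ℝ)) ^ 2 := by
      rcases le_or_gt k 0 with h | h
      · have : (k : ℝ) ≤ 0 := by exact_mod_cast h
        nlinarith
      · have : (1 : ℝ) ≤ k := by exact_mod_cast h
        nlinarith
    have h5 : (F.lam - 1 / 2 - ((F.lam - 1) / 2 + k * F.lam)) = F.lam * (1 / 2 - k) := by ring
    rw [h5, mul_pow]
    have h6 : F.lam ^ 2 * (1 / 4) ≤ F.lam ^ 2 * (1 / 2 - (k : ℝ)) ^ 2 :=
      mul_le_mul_of_nonneg_left hk (sq_nonneg _)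
    nlinarith
  · change (0 : ℝ) < 1 / 2
    norm_num

lemma region_side_point : ∃ z ∈ F.region.Y, z ∉ F.region.D := by
  obtain ⟨h1, h2, h3, h4⟩ := F.side_point_aux rfl
  have hI : F.right 0 ∈ F.region.side := Or.inl ⟨0, rfl⟩
  refine ⟨_, (F.region.mem_Y_iff hI h1).2 ⟨h4, h3, h2.ge⟩, fun h => ?_⟩
  have := ((F.region.mem_D_iff hI h1).1 h).2.2
  linarith

lemma fullRegion_side_point : ∃ z ∈ F.fullRegion.Y, z ∉ F.fullRegion.D := by
  obtain ⟨h1, h2, h3, h4⟩ := F.side_point_aux rfl
  have hI : F.right 0 ∈ F.fullRegion.side := Or.inl ⟨0, rfl⟩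
  refine ⟨_, (F.fullRegion.mem_Y_iff hI h1).2 ⟨h4, mem_univ _, h2.ge⟩, fun h => ?_⟩
  have := ((F.fullRegion.mem_D_iff hI h1).1 h).2.2
  linarith

end FluteData

open Classical in
/-- The sides of the cusps. -/
noncomputable def cuspSeq (t : ℕ → ℝ) : ℕ → Bool
  | 0 => true
  | n + 1 => if t (n + 1) = 0 then cuspSeq t n else !(cuspSeq t n)

/-- Flute surfaces exist for all lengths. -/
theorem nonempty_fluteData {l : ℕ → ℝ} (hl : ∀ n, 0 < l n) (t : ℕ → ℝ) :
    Nonempty (FluteData l t) := by
  set e := cuspSeq t with he
  have hgood := quadRec_good hl e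
  refine ⟨{
    lam := Real.cosh (l 0 / 4)
    left := fun n => (quadRec l e n).left
    right := fun n => (quadRec l e n).right
    centre := fun n => (quadRec l e n).m
    radius := fun n => √(quadRec l e n).R2
    cuspLeft := e
    left_lt := fun n => (hgood n).1
    left_lt_right := fun n => (hgood n).2.1
    right_lt := fun n => (hgood n).2.2
    radius_pos := fun n => Quad.sqrt_R2_pos (hgood n)
    perp_left := fun n => Quad.perpL (hgood n)
    perp_right := fun n => Quad.perpR (hgood n)
    dist_eq := fun n => Quad.geodDist_of_cross (hgood n) (hl n).le (quadRec_cross hl e n)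
    left_zero := rfl
    right_zero := rfl
    cusp_iff := ?_
    step_left := ?_
    step_right := ?_ }⟩
  · intro n
    have h : e (n + 1) = if t (n + 1) = 0 then e n else !(e n) := rfl
    by_cases ht : t (n + 1) = 0
    · rw [h, if_pos ht]
      simp [ht]
    · rw [h, if_neg ht]
      simp [ht]
  · intro n hn
    have h : quadRec l e (n + 1) =
        (quadRec l e n).next (Real.sinh (l (n + 1) / 4) ^ 2) (e n) := rfl
    rw [h, hn]
    exact ⟨rfl, rfl⟩
  · intro n hn
    have h : quadRec l e (n + 1) =
        (quadRec l e n).next (Real.sinh (l (n + 1) / 4) ^ 2) (e n) := rfl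
    rw [h, hn]
    exact ⟨rfl, rfl⟩

end Pool.Agent.MP_b90f02
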