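import Mathlib

set_option autoImplicit false

open UpperHalfPlane Topology InnerProductSpace Filter
open scoped MatrixGroups ComplexConjugate

namespace Pool.Agent.MP_b90f02_an

/-- the Green's function of the upper half-plane -/
noncomputable def gh (z u : ℍ) : ℝ := -Real.log (Real.tanh (dist z u / 2))

theorem gh_smul (γ : SL(2, ℝ)) (z u : ℍ) : gh (γ • z) (γ • u) = gh z u := by
  unfold gh; rw [dist_smul]

theorem gh_nonneg (z u : ℍ) : 0 ≤ gh z u := by
  unfold gh
  have h1 : 0 ≤ Real.tanh (dist z u / 2) := by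
    rw [Real.tanh_eq_sinh_div_cosh]
    exact div_nonneg (Real.sinh_nonneg_iff.mpr (by positivity)) (Real.cosh_pos _).le
  have h2 := Real.log_nonpos h1 (Real.tanh_lt_one _).le
  linarith

theorem gh_pos (z u : ℍ) (h : z ≠ u) : 0 < gh z u := by
  unfold gh
  have hd : 0 < dist z u := dist_pos.mpr h
  have h1 : 0 < Real.tanh (dist z u / 2) := by
    rw [Real.tanh_eq_sinh_div_cosh]
    exact div_pos (Real.sinh_pos_iff.mpr (by positivity)) (Real.cosh_pos _)
  have h2 := Real.log_neg h1 (Real.tanh_lt_one _)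
  linarith

theorem gh_eq (z u : ℍ) : gh z u = -Real.log (‖(z : ℂ) - u‖ / ‖(z : ℂ) - conj (u : ℂ)‖) := by
  unfold gh
  rw [tanh_half_dist, Complex.dist_eq, Complex.dist_eq]

theorem sub_conj_ne (x : ℂ) (hx : 0 < x.im) (u : ℍ) : x - conj (u : ℂ) ≠ 0 := by
  intro h
  have := congrArg Complex.im h
  simp at this
  have hu := u.im_pos
  linarith

theorem norm_sub_conj_ge (x : ℂ) (u : ℍ) : x.im + u.im ≤ ‖x - conj (u : ℂ)‖ := by
  have h := Complex.abs_im_le_norm (x - conj (u : ℂ))
  have e : (x - conj (u : ℂ)).im = x.im + u.im := by simp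
  rw [e] at h
  exact le_trans (le_abs_self _) h

/-- local holomorphic function whose real part is the Green's function -/
noncomputable def AA (u : ℍ) (x : ℂ) : ℂ :=
  -Complex.log (1 + -(((u : ℂ) - conj (u : ℂ)) / (x - conj (u : ℂ))))

theorem AA_re (u : ℍ) (x : ℂ) (hx : 0 < x.im) : (AA u x).re = gh (ofComplex x) u := by
  rw [gh_eq, ofComplex_apply_of_im_pos hx]
  unfold AA
  rw [Complex.neg_re, Complex.log_re]
  congr 2
  rw [← norm_div]
  congr 1
  have h := sub_conj_ne x hx u
  change _ = (x - u) / (x - conj (u : ℂ))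
  field_simp
  ring

theorem zeta_le (u : ℍ) (x : ℂ) (δ : ℝ) (hδ : 0 < δ) (hx : δ < x.im) :
    ‖-(((u : ℂ) - conj (u : ℂ)) / (x - conj (u : ℂ)))‖ ≤ 2 * u.im / δ := by
  rw [norm_neg, norm_div]
  have h1 := norm_sub_conj_ge x u
  have hu := u.im_pos
  have e : ‖(u : ℂ) - conj (u : ℂ)‖ = 2 * u.im := by
    rw [Complex.sub_conj]
    simp [abs_of_pos hu]
  rw [e]
  apply div_le_div_of_nonneg_left (by positivity) hδ
  linarith

theorem AA_bound (u : ℍ) (x : ℂ) (δ : ℝ) (hδ : 0 < δ) (hx : δ < x.im) (hu : u.im ≤ δ / 4) :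
    ‖AA u x‖ ≤ 3 / δ * u.im := by
  have h1 := zeta_le u x δ hδ hx
  have h2 : 2 * u.im / δ ≤ 1 / 2 := by
    rw [div_le_div_iff₀ hδ (by norm_num)]; linarith
  unfold AA
  rw [norm_neg]
  have h3 := Complex.norm_log_one_add_half_le_self (le_trans h1 h2)
  calc _ ≤ _ := h3
    _ ≤ 3 / 2 * (2 * u.im / δ) := by gcongr
    _ = _ := by ring

theorem AA_diff (u : ℍ) (x : ℂ) (δ : ℝ) (hδ : 0 < δ) (hx : δ < x.im) (hu : u.im ≤ δ / 4) :
    DifferentiableAt ℂ (AA u) x := by
  have h1 := zeta_le u x δ hδ hx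
  have h2 : 2 * u.im / δ ≤ 1 / 2 := by
    rw [div_le_div_iff₀ hδ (by norm_num)]; linarith
  have h3 : ‖-(((u : ℂ) - conj (u : ℂ)) / (x - conj (u : ℂ)))‖ < 1 := by linarith
  have hne := sub_conj_ne x (by linarith) u
  unfold AA
  apply DifferentiableAt.neg
  apply DifferentiableAt.clog
  · apply DifferentiableAt.add (differentiableAt_const _)
    apply DifferentiableAt.neg
    exact (differentiableAt_const _).div (differentiableAt_id.sub (differentiableAt_const _)) hne
  · exact Complex.mem_slitPlane_of_norm_lt_one h3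

section sums

variable {ι : Type*} (u : ι → ℍ) (hsum : Summable (fun i => (u i).im))
include hsum

theorem fin_big (δ : ℝ) (hδ : 0 < δ) : {i | δ < (u i).im}.Finite := by
  have h := hsum.tendsto_cofinite_zero
  have h1 := (tendsto_order.mp h).2 δ hδ
  rw [eventually_cofinite] at h1
  refine h1.subset ?_
  intro i hi
  simp only [Set.mem_ofPred_eq] at *
  linarith

/-- near a point the tail of the Green's series is the real part of a holomorphic function -/
theorem tail_re (z₀ : ℍ) (hsmall : ∀ i, (u i).im ≤ z₀.im / 2 / 4) :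
    HarmonicAt (fun x : ℂ => ∑' i, gh (ofComplex x) (u i)) (z₀ : ℂ) ∧
      Summable (fun i => gh z₀ (u i)) := by
  set δ := z₀.im / 2 with hδ
  have hz := z₀.im_pos
  have hδ0 : 0 < δ := by rw [hδ]; linarith
  have hs : Summable (fun i => 3 / δ * (u i).im) := hsum.mul_left _
  have hU : IsOpen {x : ℂ | δ < x.im} := isOpen_lt continuous_const Complex.continuous_im
  have hz0 : (z₀ : ℂ) ∈ {x : ℂ | δ < x.im} := by
    change δ < (z₀ : ℂ).im
    rw [coe_im, hδ]; linarith
  have hd : DifferentiableOn ℂ (fun x => ∑' i, AA (u i) x) {x : ℂ | δ < x.im} := by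
    apply Complex.differentiableOn_tsum_of_summable_norm hs
    · intro i x hx
      exact (AA_diff (u i) x δ hδ0 hx (hsmall i)).differentiableWithinAt
    · exact hU
    · intro i x hx
      exact AA_bound (u i) x δ hδ0 hx (hsmall i)
  have han : AnalyticAt ℂ (fun x => ∑' i, AA (u i) x) (z₀ : ℂ) :=
    hd.analyticAt (hU.mem_nhds hz0)
  have hsumm : ∀ x ∈ {x : ℂ | δ < x.im}, Summable (fun i => AA (u i) x) := by
    intro x hx
    apply Summable.of_norm_bounded hs
    intro i
    exact AA_bound (u i) x δ hδ0 hx (hsmall i)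
  constructor
  · have h1 := han.harmonicAt_re
    refine (harmonicAt_congr_nhds ?_).mp h1
    filter_upwards [hU.mem_nhds hz0] with x hx
    rw [Complex.re_tsum (hsumm x hx)]
    apply tsum_congr
    intro i
    exact AA_re (u i) x (lt_trans hδ0 hx)
  · have h1 := Complex.reCLM.summable (hsumm _ hz0)
    refine h1.congr ?_
    intro i
    change (AA (u i) z₀).re = _
    rw [AA_re (u i) _ (by rw [coe_im]; exact hz), ofComplex_apply]

end sums

end Pool.Agent.MP_b90f02_an
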