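import Pool.Agent.MP_b90f02_an.Green

set_option autoImplicit false

open UpperHalfPlane Topology InnerProductSpace Filter
open scoped MatrixGroups ComplexConjugate

namespace Pool.Agent.MP_b90f02_an

theorem gh_harm (z₀ u : ℍ) (h : z₀ ≠ u) :
    HarmonicAt (fun x : ℂ => gh (ofComplex x) u) (z₀ : ℂ) := by
  have hz : 0 < (z₀ : ℂ).im := by rw [coe_im]; exact z₀.im_pos
  have hne := sub_conj_ne (z₀ : ℂ) hz u
  have h1 : AnalyticAt ℂ (fun x : ℂ => (x - u) / (x - conj (u : ℂ))) (z₀ : ℂ) := by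
    apply AnalyticAt.div
    · exact analyticAt_id.sub analyticAt_const
    · exact analyticAt_id.sub analyticAt_const
    · exact hne
  have h2 : ((z₀ : ℂ) - u) / ((z₀ : ℂ) - conj (u : ℂ)) ≠ 0 := by
    apply div_ne_zero _ hne
    intro h3
    apply h
    exact UpperHalfPlane.ext (sub_eq_zero.mp h3)
  have h3 := (h1.harmonicAt_log_norm h2).neg
  refine (harmonicAt_congr_nhds ?_).mp h3
  filter_upwards [(isOpen_lt continuous_const Complex.continuous_im).mem_nhds hz] with x hx
  change 0 < x.im at hx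
  rw [gh_eq, ofComplex_apply_of_im_pos hx, ← norm_div]
  rfl

section sums

variable {ι : Type*} (u : ι → ℍ) (hsum : Summable (fun i => (u i).im))
include hsum

theorem green_summable (z : ℍ) : Summable (fun i => gh z (u i)) := by
  classical
  have hz := z.im_pos
  have hfin := fin_big u hsum (z.im / 2 / 4) (by positivity)
  rw [← hfin.toFinset.summable_compl_iff]
  refine (tail_re (fun i : {i // i ∉ hfin.toFinset} => u i) (hsum.subtype _) z ?_).2
  intro i
  have := i.2
  rw [Set.Finite.mem_toFinset] at this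
  exact not_lt.mp this

theorem green_harm (z₀ : ℍ) (h : ∀ i, z₀ ≠ u i) :
    HarmonicAt (fun x : ℂ => ∑' i, gh (ofComplex x) (u i)) (z₀ : ℂ) := by
  classical
  have hz := z₀.im_pos
  have hfin := fin_big u hsum (z₀.im / 2 / 4) (by positivity)
  have h1 := (tail_re (fun i : {i // i ∉ hfin.toFinset} => u i) (hsum.subtype _) z₀ (by
    intro i
    have := i.2
    rw [Set.Finite.mem_toFinset] at this
    exact not_lt.mp this)).1
  have h2 : ∀ s : Finset ι, HarmonicAt (fun x : ℂ => ∑ i ∈ s, gh (ofComplex x) (u i)) (z₀ : ℂ) := by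
    intro s
    induction s using Finset.induction_on with
    | empty => simp
    | insert a s ha ih =>
      have h3 := (gh_harm z₀ (u a) (h a)).add ih
      have e : (fun x : ℂ => ∑ i ∈ insert a s, gh (ofComplex x) (u i)) =
          (fun x : ℂ => gh (ofComplex x) (u a)) +
            fun x : ℂ => ∑ i ∈ s, gh (ofComplex x) (u i) := by
        funext x
        rw [Finset.sum_insert ha]
        rfl
      rw [e]
      exact h3
  have h3 := (h2 hfin.toFinset).add h1
  have e : (fun x : ℂ => ∑' i, gh (ofComplex x) (u i)) =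
      (fun x : ℂ => ∑ i ∈ hfin.toFinset, gh (ofComplex x) (u i)) +
        fun x : ℂ => ∑' i : {i // i ∉ hfin.toFinset}, gh (ofComplex x) (u i) := by
    funext x
    exact ((green_summable u hsum (ofComplex x)).sum_add_tsum_subtype_compl hfin.toFinset).symm
  rw [e]
  exact h3

end sums

/-- the Moebius map -/
noncomputable def mob (κ : SL(2, ℝ)) (x : ℂ) : ℂ :=
  ((κ 0 0 : ℝ) * x + (κ 0 1 : ℝ)) / ((κ 1 0 : ℝ) * x + (κ 1 1 : ℝ))

theorem mob_coe (κ : SL(2, ℝ)) (z : ℍ) : mob κ z = ((κ • z : ℍ) : ℂ) := by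
  rw [UpperHalfPlane.coe_specialLinearGroup_apply]
  rfl

theorem mob_denom (κ : SL(2, ℝ)) (z : ℍ) : ((κ 1 0 : ℝ) * (z : ℂ) + (κ 1 1 : ℝ) : ℂ) ≠ 0 :=
  denom_ne_zero (κ : Matrix.GeneralLinearGroup (Fin 2) ℝ) z

theorem mob_analytic (κ : SL(2, ℝ)) (z : ℍ) : AnalyticAt ℂ (mob κ) z := by
  unfold mob
  apply AnalyticAt.div
  · exact (analyticAt_const.mul analyticAt_id).add analyticAt_const
  · exact (analyticAt_const.mul analyticAt_id).add analyticAt_const
  · exact mob_denom κ z

theorem smul_ofComplex (κ : SL(2, ℝ)) (x : ℂ) (hx : 0 < x.im) :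
    κ • ofComplex x = ofComplex (mob κ x) := by
  have e : x = ((ofComplex x : ℍ) : ℂ) := by rw [ofComplex_apply_of_im_pos hx]
  conv_rhs => rw [e, mob_coe]
  rw [ofComplex_apply]

/-- harmonic functions composed with holomorphic functions are harmonic -/
theorem harm_comp (f : ℂ → ℝ) (m : ℂ → ℂ) (x₀ : ℂ) (hm : AnalyticAt ℂ m x₀)
    (hf : HarmonicAt f (m x₀)) : HarmonicAt (fun x => f (m x)) x₀ := by
  obtain ⟨ε, hε, hball⟩ := Metric.eventually_nhds_iff_ball.mp hf.eventually
  obtain ⟨F, hF, hre⟩ := HarmonicOnNhd.exists_analyticOnNhd_ball_re_eq (f := f) (z := m x₀)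
    (R := ε) (fun y hy => hball y hy)
  have h1 : AnalyticAt ℂ (fun x => F (m x)) x₀ :=
    (hF (m x₀) (Metric.mem_ball_self hε)).fun_comp hm
  refine (harmonicAt_congr_nhds ?_).mp h1.harmonicAt_re
  filter_upwards [hm.continuousAt (Metric.ball_mem_nhds _ hε)] with x hx
  exact hre hx

theorem harm_smul (G : ℍ → ℝ) (κ : SL(2, ℝ)) (z : ℍ)
    (h : HarmonicAt (fun x : ℂ => G (ofComplex x)) ((κ • z : ℍ) : ℂ)) :
    HarmonicAt (fun x : ℂ => G (κ • ofComplex x)) (z : ℂ) := by
  have h1 := harm_comp (fun x : ℂ => G (ofComplex x)) (mob κ) z (mob_analytic κ z)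
    (by rw [mob_coe]; exact h)
  refine (harmonicAt_congr_nhds ?_).mp h1
  have hz : 0 < (z : ℂ).im := by rw [coe_im]; exact z.im_pos
  filter_upwards [(isOpen_lt continuous_const Complex.continuous_im).mem_nhds hz] with x hx
  rw [smul_ofComplex κ x hx]

/-- Green's series with a change of coordinates -/
theorem green_harm' {ι : Type*} (u : ι → ℍ) (κ : SL(2, ℝ))
    (hsum : Summable (fun i => (κ • u i).im)) (z₀ : ℍ) (h : ∀ i, z₀ ≠ u i) :
    HarmonicAt (fun x : ℂ => ∑' i, gh (ofComplex x) (u i)) (z₀ : ℂ) := by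
  have h1 := green_harm (fun i => κ • u i) hsum (κ • z₀) (fun i e => h i (smul_left_cancel κ e))
  have h2 := harm_smul (fun z => ∑' i, gh z (κ • u i)) κ z₀ h1
  have e : (fun x : ℂ => ∑' i, gh (κ • ofComplex x) (κ • u i)) =
      fun x : ℂ => ∑' i, gh (ofComplex x) (u i) := by
    funext x
    exact tsum_congr fun i => gh_smul κ _ _
  rw [e] at h2
  exact h2

theorem green_summable' {ι : Type*} (u : ι → ℍ) (κ : SL(2, ℝ))
    (hsum : Summable (fun i => (κ • u i).im)) (z : ℍ) : Summable (fun i => gh z (u i)) := by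
  have h1 := green_summable (fun i => κ • u i) hsum (κ • z)
  refine h1.congr ?_
  intro i
  exact gh_smul κ _ _

end Pool.Agent.MP_b90f02_an
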