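import Pool.Agent.MP_b90f02_an.Green2
import Pool.Agent.MP_b90f02_an.Defs

set_option autoImplicit false

open UpperHalfPlane Topology InnerProductSpace Filter
open scoped MatrixGroups ComplexConjugate

namespace Pool.Agent.MP_b90f02_an

/-- the Green's function of the quotient -/
noncomputable def GG (Γ : Subgroup SL(2, ℝ)) (w z : ℍ) : ℝ :=
  ∑' u : MulAction.orbit Γ w, gh z u

theorem GG_inv (Γ : Subgroup SL(2, ℝ)) (w : ℍ) (γ : SL(2, ℝ)) (hγ : γ ∈ Γ) (z : ℍ) :
    GG Γ w (γ • z) = GG Γ w z := by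
  unfold GG
  have e := (MulAction.toPerm (α := Γ) (β := MulAction.orbit Γ w) ⟨γ, hγ⟩).tsum_eq
    (fun u : MulAction.orbit Γ w => gh (γ • z) u)
  rw [← e]
  apply tsum_congr
  intro u
  have : (((MulAction.toPerm (α := Γ) (β := MulAction.orbit Γ w) ⟨γ, hγ⟩) u :
    MulAction.orbit Γ w) : ℍ) = γ • (u : ℍ) := rfl
  rw [this, gh_smul]

section

variable (Γ : Subgroup SL(2, ℝ)) (w : ℍ) (κ : SL(2, ℝ))
  (hsum : Summable (fun u : MulAction.orbit Γ w => (κ • (u : ℍ)).im))
include hsum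

theorem GG_summable (z : ℍ) : Summable (fun u : MulAction.orbit Γ w => gh z u) :=
  green_summable' (fun u : MulAction.orbit Γ w => (u : ℍ)) κ hsum z

theorem GG_pos (z : ℍ) (hz : z ∉ MulAction.orbit Γ w) : 0 < GG Γ w z := by
  unfold GG
  refine (GG_summable Γ w κ hsum z).tsum_pos (fun u => gh_nonneg _ _)
    ⟨w, MulAction.mem_orbit_self w⟩ ?_
  apply gh_pos
  rintro rfl
  exact hz (MulAction.mem_orbit_self _)

theorem GG_harm (z : ℍ) (hz : z ∉ MulAction.orbit Γ w) :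
    HarmonicAt (fun x : ℂ => GG Γ w (ofComplex x)) (z : ℂ) := by
  apply green_harm' (fun u : MulAction.orbit Γ w => (u : ℍ)) κ hsum z
  intro u e
  exact hz (e ▸ u.2)

theorem GG_pole : ∃ h : ℂ → ℝ, HarmonicAt h (w : ℂ) ∧
    ∀ᶠ x in 𝓝[≠] (w : ℂ), GG Γ w (ofComplex x) = h x - Real.log ‖x - w‖ := by
  classical
  set o : MulAction.orbit Γ w := ⟨w, MulAction.mem_orbit_self w⟩ with ho
  have hw : 0 < (w : ℂ).im := by rw [coe_im]; exact w.im_pos
  have h1 := green_harm' (fun u : {u : MulAction.orbit Γ w // u ∉ ({o} : Finset _)} =>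
    ((u : MulAction.orbit Γ w) : ℍ)) κ (hsum.subtype _) w (by
      intro u e
      apply u.2
      rw [Finset.mem_singleton]
      apply Subtype.ext
      exact e.symm)
  have h2 : HarmonicAt (fun x : ℂ => Real.log ‖x - conj (w : ℂ)‖) (w : ℂ) := by
    have h3 : AnalyticAt ℂ (fun x : ℂ => x - conj (w : ℂ)) (w : ℂ) :=
      analyticAt_id.sub analyticAt_const
    exact h3.harmonicAt_log_norm (sub_conj_ne _ hw w)
  refine ⟨_, h2.add h1, ?_⟩
  rw [eventually_nhdsWithin_iff]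
  filter_upwards [(isOpen_lt continuous_const Complex.continuous_im).mem_nhds hw] with x hx hne
  change 0 < x.im at hx
  have e := (GG_summable Γ w κ hsum (ofComplex x)).sum_add_tsum_subtype_compl {o}
  unfold GG
  rw [← e, Finset.sum_singleton, ho, gh_eq, ofComplex_apply_of_im_pos hx]
  have n1 : ‖x - w‖ ≠ 0 := norm_ne_zero_iff.mpr (sub_ne_zero.mpr hne)
  have n2 : ‖x - conj (w : ℂ)‖ ≠ 0 := norm_ne_zero_iff.mpr (sub_conj_ne x hx w)
  change -Real.log (‖x - w‖ / ‖x - conj (w : ℂ)‖) + _ =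
    Real.log ‖x - conj (w : ℂ)‖ + _ - Real.log ‖x - w‖
  rw [Real.log_div n1 n2]
  have e3 : ∀ a b c d : ℝ, c = d → -(a - b) + c = b + d - a := by
    intro a b c d h; rw [h]; ring
  apply e3
  apply tsum_congr
  intro i
  rw [← ofComplex_apply_of_im_pos hx]

theorem GG_logPole (Ω : Set ℍ) : HasLogPole Γ Ω w (GG Γ w) where
  invariant := fun γ hγ z _ => GG_inv Γ w γ hγ z
  pos := fun z _ hz => GG_pos Γ w κ hsum z hz
  harmonic := fun z _ hz => GG_harm Γ w κ hsum z hz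
  pole := GG_pole Γ w κ hsum

end

end Pool.Agent.MP_b90f02_an
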