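import Pool.Agent.MP_b90f02_an.Config2

set_option autoImplicit false

open Matrix UpperHalfPlane
open scoped MatrixGroups

namespace Pool.Agent.MP_b90f02_an

/-- the translation in `GL` -/
noncomputable def tr (s : ℝ) : GL (Fin 2) ℝ := ((trans s : SL(2, ℝ)) : GL (Fin 2) ℝ)

/-- the orthogonal translation in `GL` -/
noncomputable def cr (s : ℝ) : GL (Fin 2) ℝ := ((cross s : SL(2, ℝ)) : GL (Fin 2) ℝ)

theorem tr_add (s s' : ℝ) : tr (s + s') = tr s * tr s' := by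
  unfold tr; rw [trans_add, map_mul]

theorem tr_zero : tr 0 = 1 := by unfold tr; rw [trans_zero, map_one]

theorem tr_neg (s : ℝ) : tr (-s) = (tr s)⁻¹ := by
  rw [eq_inv_iff_mul_eq_one, ← tr_add, neg_add_cancel, tr_zero]

theorem rf_rf_tr (s s' : ℝ) : rf s * rf s' = tr (2 * (s - s')) := rf_mul_rf s s'

theorem tr_rf (u s : ℝ) : tr u * rf s = rf (s + u / 2) := trans_mul_rf u s

theorem cr_rf (s : ℝ) : cr s * rf 0 = rf 0 * cr s := cross_comm_rf s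

theorem rf_conj (s s' : ℝ) : rf s * rf s' * rf s = rf (2 * s - s') := by
  rw [rf_rf_tr, tr_rf]; congr 1; ring

/-- position of the foot -/
noncomputable def pos (ε : Bool) (a : ℝ) : ℝ := cond ε (a / 2) 0

theorem loc_eq (ε : Bool) (a b : ℝ) :
    loc ε a b * tr (pos ε b) = tr (pos ε a) * cr (orth a b) := by
  cases ε
  · change cr (orth a b) * tr 0 = tr 0 * cr (orth a b)
    rw [tr_zero, mul_one, one_mul]
  · change rf (a / 4) * cr (orth a b) * rf (b / 4) * tr (b / 2) = tr (a / 2) * cr (orth a b)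
    have e1 : rf (b / 4) * tr (b / 2) = rf 0 := by
      have h := rf_mul_trans (b / 2) (b / 4)
      have h' : b / 4 - b / 2 / 2 = 0 := by ring
      rw [h'] at h
      exact h
    have e2 : rf (a / 4) * rf 0 = tr (a / 2) := by
      rw [rf_rf_tr]; congr 1; ring
    rw [mul_assoc, e1, mul_assoc, cr_rf, ← mul_assoc, e2]

section

variable (ℓ : ℕ → ℝ) (ε : ℕ → Bool)

/-- the group generated by the ping-pong generators -/
noncomputable def HH : Subgroup (GL (Fin 2) ℝ) := Subgroup.closure (Set.range (gen ℓ ε))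

theorem gen_mem (i : Option (Option ℕ)) : gen ℓ ε i ∈ HH ℓ ε :=
  Subgroup.subset_closure ⟨i, rfl⟩

/-- conjugated reflections -/
noncomputable def rc (n : ℕ) (s : ℝ) : GL (Fin 2) ℝ := F ℓ ε n * rf s * (F ℓ ε n)⁻¹

theorem rc_step_false (n : ℕ) (h : ε n = false) : rc ℓ ε (n + 1) 0 = rc ℓ ε n 0 := by
  unfold rc
  rw [F_succ, h]
  change F ℓ ε n * cr (orth (ℓ n) (ℓ (n + 1))) * rf 0 *
    (F ℓ ε n * cr (orth (ℓ n) (ℓ (n + 1))))⁻¹ = _
  rw [mul_assoc (F ℓ ε n), cr_rf, _root_.mul_inv_rev]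
  group

theorem rc_step_true (n : ℕ) (h : ε n = true) :
    rc ℓ ε (n + 1) (ℓ (n + 1) / 2) = rc ℓ ε n (ℓ n / 2) := by
  unfold rc
  rw [F_succ, h]
  change F ℓ ε n * (rf (ℓ n / 4) * cr (orth (ℓ n) (ℓ (n + 1))) * rf (ℓ (n + 1) / 4)) *
    rf (ℓ (n + 1) / 2) *
    (F ℓ ε n * (rf (ℓ n / 4) * cr (orth (ℓ n) (ℓ (n + 1))) * rf (ℓ (n + 1) / 4)))⁻¹ = _
  rw [_root_.mul_inv_rev, _root_.mul_inv_rev, _root_.mul_inv_rev, rf_inv, rf_inv]
  set c := cr (orth (ℓ n) (ℓ (n + 1))) with hc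
  have e1 : rf (ℓ (n + 1) / 4) * rf (ℓ (n + 1) / 2) * rf (ℓ (n + 1) / 4) = rf 0 := by
    rw [rf_conj]; congr 1; ring
  have e2 : rf (ℓ n / 4) * rf 0 * rf (ℓ n / 4) = rf (ℓ n / 2) := by
    rw [rf_conj]; congr 1; ring
  have e3 : c * rf 0 * c⁻¹ = rf 0 := by
    rw [hc, cr_rf, mul_inv_cancel_right]
  calc _ = F ℓ ε n * (rf (ℓ n / 4) * (c * (rf (ℓ (n + 1) / 4) * rf (ℓ (n + 1) / 2) *
      rf (ℓ (n + 1) / 4)) * c⁻¹) * rf (ℓ n / 4)) * (F ℓ ε n)⁻¹ := by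
        simp only [mul_assoc]
    _ = _ := by rw [e1, e3, e2]

theorem rc_mem (n : ℕ) : rc ℓ ε n 0 * rf (ℓ 0 / 2) ∈ HH ℓ ε ∧
    rc ℓ ε n (ℓ n / 2) * rf (ℓ 0 / 2) ∈ HH ℓ ε := by
  induction n with
  | zero =>
    unfold rc
    constructor
    · have e : F ℓ ε 0 * rf 0 * (F ℓ ε 0)⁻¹ * rf (ℓ 0 / 2) = (gen ℓ ε (some none))⁻¹ := by
        change 1 * rf 0 * 1⁻¹ * rf (ℓ 0 / 2) = (tr (ℓ 0))⁻¹
        rw [inv_one, one_mul, mul_one, rf_rf_tr, ← tr_neg]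
        congr 1; ring
      rw [e]
      exact Subgroup.inv_mem _ (gen_mem ℓ ε _)
    · have e : F ℓ ε 0 * rf (ℓ 0 / 2) * (F ℓ ε 0)⁻¹ * rf (ℓ 0 / 2) = 1 := by
        change 1 * rf (ℓ 0 / 2) * 1⁻¹ * rf (ℓ 0 / 2) = 1
        rw [inv_one, one_mul, mul_one, rf_sq]
      rw [e]
      exact Subgroup.one_mem _
  | succ n ih =>
    have hg := gen_mem ℓ ε (some (some n))
    cases h : ε n
    · constructor
      · rw [rc_step_false ℓ ε n h]; exact ih.1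
      · have e : rc ℓ ε (n + 1) (ℓ (n + 1) / 2) * rf (ℓ 0 / 2) = gen ℓ ε (some (some n)) := by
          change _ = mirror ℓ ε n * rf (ℓ 0 / 2)
          unfold rc mirror
          rw [h]
          rfl
        rw [e]; exact hg
    · constructor
      · have e : rc ℓ ε (n + 1) 0 * rf (ℓ 0 / 2) = gen ℓ ε (some (some n)) := by
          change _ = mirror ℓ ε n * rf (ℓ 0 / 2)
          unfold rc mirror
          rw [h]
          rfl
        rw [e]; exact hg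
      · rw [rc_step_true ℓ ε n h]; exact ih.2

theorem A_mem (n : ℕ) : F ℓ ε n * tr (ℓ n) * (F ℓ ε n)⁻¹ ∈ HH ℓ ε := by
  obtain ⟨h1, h2⟩ := rc_mem ℓ ε n
  have h3 := Subgroup.mul_mem _ h2 (Subgroup.inv_mem _ h1)
  have e : rc ℓ ε n (ℓ n / 2) * rf (ℓ 0 / 2) * (rc ℓ ε n 0 * rf (ℓ 0 / 2))⁻¹ =
      F ℓ ε n * tr (ℓ n) * (F ℓ ε n)⁻¹ := by
    have e1 : tr (ℓ n) = rf (ℓ n / 2) * rf 0 := by rw [rf_rf_tr]; congr 1; ring
    rw [e1]
    unfold rc
    rw [_root_.mul_inv_rev, _root_.mul_inv_rev, _root_.mul_inv_rev, inv_inv, rf_inv, rf_inv]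
    calc _ = F ℓ ε n * rf (ℓ n / 2) * (F ℓ ε n)⁻¹ * (rf (ℓ 0 / 2) * rf (ℓ 0 / 2)) *
        (F ℓ ε n * (rf 0 * (F ℓ ε n)⁻¹)) := by simp only [mul_assoc]
      _ = _ := by rw [rf_sq]; group
  rw [← e]
  exact h3

end

/-- the twist bits -/
noncomputable def bits (t : ℕ → ℝ) : ℕ → Bool
  | 0 => @decide (t 0 = 1 / 2) (Classical.dec _)
  | n + 1 => xor (bits t n) (@decide (t (n + 1) = 1 / 2) (Classical.dec _))

theorem frame_eq (ℓ t : ℕ → ℝ) (ht : ∀ n, t n = 0 ∨ t n = 1 / 2) (n : ℕ) :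
    ∃ h ∈ HH ℓ (bits t), ((frame ℓ t n : SL(2, ℝ)) : GL (Fin 2) ℝ) =
      h * F ℓ (bits t) n * tr (pos (bits t n) (ℓ n)) := by
  induction n with
  | zero =>
    refine ⟨1, Subgroup.one_mem _, ?_⟩
    change tr (t 0 * ℓ 0) = 1 * 1 * tr (pos (bits t 0) (ℓ 0))
    rw [one_mul, one_mul]
    rcases ht 0 with h | h
    · have : bits t 0 = false := by simp [bits, h]
      rw [this, h, zero_mul]; rfl
    · have : bits t 0 = true := by simp [bits, h]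
      rw [this, h]
      change _ = tr (ℓ 0 / 2)
      congr 1; ring
  | succ n ih =>
    obtain ⟨h, hh, e⟩ := ih
    set ε := bits t with hε
    have e1 : ((frame ℓ t (n + 1) : SL(2, ℝ)) : GL (Fin 2) ℝ) =
        h * F ℓ ε (n + 1) * tr (pos (ε n) (ℓ (n + 1)) + t (n + 1) * ℓ (n + 1)) := by
      have e0 : ((frame ℓ t (n + 1) : SL(2, ℝ)) : GL (Fin 2) ℝ) =
          ((frame ℓ t n : SL(2, ℝ)) : GL (Fin 2) ℝ) * cr (orth (ℓ n) (ℓ (n + 1))) *
            tr (t (n + 1) * ℓ (n + 1)) := by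
        change Matrix.SpecialLinearGroup.toGL (frame ℓ t n * cross (orth (ℓ n) (ℓ (n + 1))) *
          trans (t (n + 1) * ℓ (n + 1))) = _
        rw [map_mul, map_mul]
        rfl
      rw [e0, e, F_succ, tr_add]
      have e2 := loc_eq (ε n) (ℓ n) (ℓ (n + 1))
      calc _ = h * F ℓ ε n * (tr (pos (ε n) (ℓ n)) * cr (orth (ℓ n) (ℓ (n + 1)))) *
            tr (t (n + 1) * ℓ (n + 1)) := by simp only [mul_assoc]
        _ = _ := by rw [← e2]; simp only [mul_assoc]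
    have hb : ε (n + 1) = xor (ε n) (@decide (t (n + 1) = 1 / 2) (Classical.dec _)) := rfl
    rcases ht (n + 1) with h1 | h1
    · refine ⟨h, hh, ?_⟩
      have : ε (n + 1) = ε n := by rw [hb, h1]; simp
      rw [e1, this, h1, zero_mul, add_zero]
    · have h2 : ε (n + 1) = !(ε n) := by rw [hb, h1]; simp
      cases h3 : ε n
      · refine ⟨h, hh, ?_⟩
        rw [e1, h2, h3, h1]
        congr 1
        change tr (0 + 1 / 2 * ℓ (n + 1)) = tr (ℓ (n + 1) / 2)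
        congr 1; ring
      · refine ⟨h * (F ℓ ε (n + 1) * tr (ℓ (n + 1)) * (F ℓ ε (n + 1))⁻¹),
          Subgroup.mul_mem _ hh (A_mem ℓ ε (n + 1)), ?_⟩
        rw [e1, h2, h3, h1]
        change h * F ℓ ε (n + 1) * tr (ℓ (n + 1) / 2 + 1 / 2 * ℓ (n + 1)) =
          h * (F ℓ ε (n + 1) * tr (ℓ (n + 1)) * (F ℓ ε (n + 1))⁻¹) * F ℓ ε (n + 1) * tr 0
        have e4 : ℓ (n + 1) / 2 + 1 / 2 * ℓ (n + 1) = ℓ (n + 1) := by ring
        rw [e4, tr_zero]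
        group

theorem flute_le (ℓ t : ℕ → ℝ) (ht : ∀ n, t n = 0 ∨ t n = 1 / 2) (γ : SL(2, ℝ))
    (hγ : γ ∈ fluteGroup ℓ t) : (γ : GL (Fin 2) ℝ) ∈ HH ℓ (bits t) := by
  have h : fluteGroup ℓ t ≤ (HH ℓ (bits t)).comap Matrix.SpecialLinearGroup.toGL := by
    unfold fluteGroup
    rw [Subgroup.closure_le]
    rintro g (rfl | ⟨n, rfl⟩)
    · exact gen_mem ℓ (bits t) none
    · obtain ⟨h, hh, e⟩ := frame_eq ℓ t ht n
      change Matrix.SpecialLinearGroup.toGL (hol ℓ t n) ∈ HH ℓ (bits t)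
      have e1 : Matrix.SpecialLinearGroup.toGL (hol ℓ t n) =
          h * (F ℓ (bits t) n * tr (ℓ n) * (F ℓ (bits t) n)⁻¹) * h⁻¹ := by
        unfold hol
        rw [map_mul, map_mul, map_inv, e]
        change h * F ℓ (bits t) n * tr (pos (bits t n) (ℓ n)) * tr (ℓ n) *
          (h * F ℓ (bits t) n * tr (pos (bits t n) (ℓ n)))⁻¹ = _
        have e2 : tr (pos (bits t n) (ℓ n)) * tr (ℓ n) =
            tr (ℓ n) * tr (pos (bits t n) (ℓ n)) := by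
          rw [← tr_add, ← tr_add, add_comm]
        rw [mul_assoc _ (tr (pos (bits t n) (ℓ n))), e2]
        group
      rw [e1]
      exact Subgroup.mul_mem _ (Subgroup.mul_mem _ hh (A_mem ℓ _ n)) (Subgroup.inv_mem _ hh)
  exact h hγ

/-- the free half-disc -/
theorem flute_T (ℓ t : ℕ → ℝ) (hpos : ∀ n, 0 < ℓ n) (ht : ∀ n, t n = 0 ∨ t n = 1 / 2)
    (hs : ∀ n, 2 ≤ th (ℓ (n + 1)) ^ 2 * (3 - th (ℓ n) ^ 2)) (γ : SL(2, ℝ))
    (hγ : γ ∈ fluteGroup ℓ t) (hne : γ ≠ 1) (z : ℍ) (hz : z ∈ HD (lo (ℓ 0)) (hi (ℓ 0))) :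
    γ • z ∉ HD (lo (ℓ 0)) (hi (ℓ 0)) := by
  have h := T_disj hpos (bits t) hs (γ : GL (Fin 2) ℝ) (flute_le ℓ t ht γ hγ) (by
    intro h
    apply hne
    exact Matrix.SpecialLinearGroup.toGL_injective (by rw [h, map_one])) z hz
  exact h

end Pool.Agent.MP_b90f02_an
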