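import Pool.Agent.MP_b90f02_an.Series

set_option autoImplicit false

open Matrix UpperHalfPlane
open scoped MatrixGroups

namespace Pool.Agent.MP_b90f02_an

theorem exists_kappa (Γ : Subgroup SL(2, ℝ)) (p q : ℝ) (hp : 0 < p) (hpq : p < q)
    (hT : ∀ γ ∈ Γ, γ ≠ 1 → ∀ z ∈ HD p q, γ • z ∉ HD p q) :
    ∃ κ : SL(2, ℝ), ∀ w : ℍ, Summable (fun γ : Γ => (κ • ((γ : SL(2, ℝ)) • w)).im) := by
  have hq : 0 < q := by linarith
  obtain ⟨τ, hτ0, hτ⟩ : ∃ τ : ℝ, 0 < τ ∧ τ ^ 2 = p * q :=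
    ⟨Real.sqrt (p * q), Real.sqrt_pos.mpr (by positivity), Real.sq_sqrt (by positivity)⟩
  have hpτ : p < τ := by nlinarith
  obtain ⟨s, hs0, hs⟩ : ∃ s : ℝ, 0 < s ∧ 2 * τ * s ^ 2 = 1 := by
    refine ⟨1 / Real.sqrt (2 * τ), by positivity, ?_⟩
    rw [div_pow, Real.sq_sqrt (by positivity)]
    field_simp
  set κ : SL(2, ℝ) := ⟨!![s, s * τ; -s, s * τ], by
    rw [Matrix.det_fin_two_of]; linarith⟩ with hκ
  set M := (τ + p) / (τ - p) with hM
  have hM0 : 0 < M := by rw [hM]; apply div_pos <;> linarith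
  have key : ∀ u : ℍ, M ^ 2 ≤ (κ • u).re ^ 2 + (κ • u).im ^ 2 → u ∈ HD p q := by
    intro u hu
    rw [mem_iff] at hu
    have k00 : κ 0 0 = s := rfl
    have k01 : κ 0 1 = s * τ := rfl
    have k10 : κ 1 0 = -s := rfl
    have k11 : κ 1 1 = s * τ := rfl
    rw [k00, k01, k10, k11, hM, div_pow, div_mul_eq_mul_div, div_le_iff₀
      (by have : 0 < τ - p := by linarith
          positivity)] at hu
    rw [mem_HD]
    unfold N
    generalize u.re = x at *
    generalize u.im = y at *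
    have h1 : s ^ 2 * (4 * τ) * (p * (x ^ 2 + y ^ 2 + τ ^ 2) - x * (τ ^ 2 + p ^ 2)) ≤ 0 := by
      nlinarith
    have h2 : 0 < s ^ 2 * (4 * τ) := by positivity
    have h3 : p * (x ^ 2 + y ^ 2 + τ ^ 2) - x * (τ ^ 2 + p ^ 2) ≤ 0 := by
      by_contra h
      push Not at h
      have := mul_pos h2 h
      linarith
    rw [hτ] at h3
    have h4 : p * (x ^ 2 + y ^ 2 - (p + q) * x + p * q) ≤ 0 := by nlinarith
    by_contra h
    push Not at h
    have := mul_pos hp h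
    linarith
  refine ⟨κ, fun w => ?_⟩
  let φ : Γ →* SL(2, ℝ) := (MulAut.conj κ).toMonoidHom.comp Γ.subtype
  have hφ : ∀ γ : Γ, φ γ = κ * (γ : SL(2, ℝ)) * κ⁻¹ := fun γ => rfl
  have h := summable_im φ M hM0 (by
    intro γ hγ z hz hz'
    have h1 : κ⁻¹ • z ∈ HD p q := by
      apply key
      rw [smul_inv_smul]
      exact hz
    have h2 : (γ : SL(2, ℝ)) • (κ⁻¹ • z) ∈ HD p q := by
      apply key
      rw [hφ, mul_smul, mul_smul] at hz'
      exact hz'
    exact hT γ γ.2 (fun h => hγ (Subtype.ext h)) _ h1 h2) (κ • w)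
  have e : (fun γ : Γ => (φ γ • κ • w).im) =
      (fun γ : Γ => (κ • ((γ : SL(2, ℝ)) • w)).im) := by
    funext γ
    rw [hφ, mul_smul, mul_smul, inv_smul_smul]
  rw [e] at h
  exact h

theorem summable_orbit (Γ : Subgroup SL(2, ℝ)) (κ : SL(2, ℝ)) (w : ℍ)
    (h : Summable (fun γ : Γ => (κ • ((γ : SL(2, ℝ)) • w)).im)) :
    Summable (fun u : MulAction.orbit Γ w => (κ • (u : ℍ)).im) := by
  have h1 : ∀ u : MulAction.orbit Γ w, ∃ γ : Γ, γ • w = (u : ℍ) := fun u => u.2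
  choose f hf using h1
  have hinj : Function.Injective f := by
    intro u v huv
    apply Subtype.ext
    rw [← hf u, ← hf v, huv]
  have h2 := h.comp_injective hinj
  have e : (fun γ : Γ => (κ • ((γ : SL(2, ℝ)) • w)).im) ∘ f =
      fun u : MulAction.orbit Γ w => (κ • (u : ℍ)).im := by
    funext u
    have := hf u
    change (κ • (((f u : Γ) : SL(2, ℝ)) • w)).im = _
    have e2 : ((f u : Γ) : SL(2, ℝ)) • w = (u : ℍ) := this
    rw [e2]
  rw [e] at h2
  exact h2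

end Pool.Agent.MP_b90f02_an
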