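import Pool.Agent.MP_b90f02_an.Min

set_option autoImplicit false

open UpperHalfPlane Topology InnerProductSpace Filter
open scoped MatrixGroups ComplexConjugate

namespace Pool.Agent.MP_b90f02_an

section

variable (Γ : Subgroup SL(2, ℝ)) (w : ℍ) (κ : SL(2, ℝ))
  (hsum : Summable (fun u : MulAction.orbit Γ w => (κ • (u : ℍ)).im))
include hsum

/-- the orbit is discrete and closed -/
theorem orbit_discrete (z : ℍ) : ∀ᶠ x in 𝓝[≠] z, x ∉ MulAction.orbit Γ w := by
  have hz := (κ • z).im_pos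
  have hfin := fin_big (fun u : MulAction.orbit Γ w => κ • (u : ℍ)) hsum ((κ • z).im / 2)
    (by positivity)
  have hopen : ∀ᶠ x in 𝓝 z, (κ • z).im / 2 < (κ • x).im := by
    have hc : Continuous fun x : ℍ => (κ • x).im :=
      continuous_im.comp (isometry_smul ℍ κ).continuous
    exact (isOpen_lt continuous_const hc).mem_nhds (by
      change (κ • z).im / 2 < (κ • z).im
      linarith)
  set S : Set ℍ := (fun u : MulAction.orbit Γ w => (u : ℍ)) ''
    {u | (κ • z).im / 2 < (κ • (u : ℍ)).im} with hS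
  have hSf : S.Finite := hfin.image _
  have h1 : ∀ᶠ x in 𝓝[≠] z, x ∉ S := by
    have h2 : ∀ᶠ x in 𝓝 z, x ∉ S \ {z} :=
      (hSf.subset Set.sdiff_subset).isClosed.isOpen_compl.mem_nhds (by simp)
    rw [eventually_nhdsWithin_iff]
    filter_upwards [h2] with x hx hne hxS
    exact hx ⟨hxS, hne⟩
  filter_upwards [h1, nhdsWithin_le_nhds hopen] with x hx hx' hxo
  exact hx ⟨⟨x, hxo⟩, hx', rfl⟩

end

section

variable (Γ : Subgroup SL(2, ℝ)) (w : ℍ) (G' : ℍ → ℝ) (h : HasLogPole Γ Set.univ w G')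
include h

theorem G'_cont (z : ℍ) (hz : z ∉ MulAction.orbit Γ w) : ContinuousAt G' z := by
  have h1 : ContinuousAt (fun x : ℂ => G' (ofComplex x)) (z : ℂ) :=
    (h.harmonic z (Set.mem_univ _) hz).1.continuousAt
  have h2 : ContinuousAt (fun x : ℍ => G' (ofComplex (x : ℂ))) z :=
    ContinuousAt.comp (f := fun x : ℍ => (x : ℂ)) h1 continuous_coe.continuousAt
  have e : (fun x : ℍ => G' (ofComplex (x : ℂ))) = G' := by
    funext x; rw [ofComplex_apply]
  rwa [e] at h2

theorem G'_below_w : ∃ C : ℝ, ∀ᶠ z in 𝓝[≠] w, C ≤ G' z - gh z w := by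
  obtain ⟨hh, hharm, hev⟩ := h.pole
  have hw : 0 < (w : ℂ).im := by rw [coe_im]; exact w.im_pos
  have hne := sub_conj_ne (w : ℂ) hw w
  have hc : ContinuousAt (fun x : ℂ => hh x - Real.log ‖x - conj (w : ℂ)‖) (w : ℂ) := by
    apply ContinuousAt.sub hharm.1.continuousAt
    apply ContinuousAt.log
    · exact (continuous_id.sub continuous_const).norm.continuousAt
    · exact norm_ne_zero_iff.mpr hne
  set C := hh w - Real.log ‖(w : ℂ) - conj (w : ℂ)‖ - 1 with hC
  refine ⟨C, ?_⟩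
  have h1 : ∀ᶠ x in 𝓝 (w : ℂ), C < hh x - Real.log ‖x - conj (w : ℂ)‖ :=
    hc.eventually (lt_mem_nhds (by rw [hC]; linarith))
  have h2 : Tendsto (fun z : ℍ => (z : ℂ)) (𝓝[≠] w) (𝓝[≠] (w : ℂ)) := by
    apply tendsto_nhdsWithin_of_tendsto_nhds_of_eventually_within
    · exact continuous_coe.continuousAt.tendsto.mono_left nhdsWithin_le_nhds
    · filter_upwards [self_mem_nhdsWithin] with z hz e
      exact hz (UpperHalfPlane.ext e)
  filter_upwards [h2.eventually hev, h2.eventually (nhdsWithin_le_nhds h1),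
    self_mem_nhdsWithin] with z e1 e2 hz
  rw [ofComplex_apply] at e1
  have hzim : 0 < (z : ℂ).im := by rw [coe_im]; exact z.im_pos
  have n1 : ‖(z : ℂ) - w‖ ≠ 0 :=
    norm_ne_zero_iff.mpr (sub_ne_zero.mpr fun e => hz (UpperHalfPlane.ext e))
  have n2 : ‖(z : ℂ) - conj (w : ℂ)‖ ≠ 0 := norm_ne_zero_iff.mpr (sub_conj_ne _ hzim w)
  rw [e1, gh_eq, Real.log_div n1 n2]
  linarith

theorem G'_below (o : ℍ) (ho : o ∈ MulAction.orbit Γ w) :
    ∃ C : ℝ, ∀ᶠ z in 𝓝[≠] o, C ≤ G' z - gh z o := by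
  obtain ⟨⟨γ, hγ⟩, rfl⟩ := ho
  obtain ⟨C, hC⟩ := G'_below_w Γ w G' h
  refine ⟨C, ?_⟩
  change ∀ᶠ z in 𝓝[≠] (γ • w), C ≤ G' z - gh z (γ • w)
  have h2 : Tendsto (fun z : ℍ => γ⁻¹ • z) (𝓝[≠] (γ • w)) (𝓝[≠] w) := by
    apply tendsto_nhdsWithin_of_tendsto_nhds_of_eventually_within
    · have h3 : Tendsto (fun z : ℍ => γ⁻¹ • z) (𝓝 (γ • w)) (𝓝 (γ⁻¹ • (γ • w))) :=
        (isometry_smul ℍ γ⁻¹).continuous.continuousAt
      rw [inv_smul_smul] at h3
      exact h3.mono_left nhdsWithin_le_nhds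
    · filter_upwards [self_mem_nhdsWithin] with z hz e
      apply hz
      change γ⁻¹ • z = w at e
      change z = γ • w
      rw [← e, smul_inv_smul]
  filter_upwards [h2.eventually hC] with z hz
  have e1 : G' (γ⁻¹ • z) = G' z := h.invariant γ⁻¹ (Γ.inv_mem hγ) z (Set.mem_univ _)
  have e2 : gh (γ⁻¹ • z) w = gh z (γ • w) := by
    have := gh_smul γ⁻¹ z (γ • w)
    rwa [inv_smul_smul] at this
  rw [e1, e2] at hz
  exact hz

theorem D_atTop (s : Finset ℍ) (c : ℝ) (hc0 : 0 < c) (hc : c < 1) (o : ℍ)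
    (ho : o ∈ MulAction.orbit Γ w) :
    Tendsto (fun z => G' z - c * ∑ u ∈ s, gh z u) (𝓝[≠] o) atTop := by
  classical
  obtain ⟨C, hC⟩ := G'_below Γ w G' h o ho
  -- the rest of the finite sum is continuous at `o`
  have hcont : ∀ s' : Finset ℍ, o ∉ s' → ContinuousAt (fun z => ∑ u ∈ s', gh z u) o := by
    intro s' hs'
    apply tendsto_finsetSum
    intro u hu
    exact gh_cont u o (fun e => hs' (e ▸ hu))
  have hc1 := (hcont (s.erase o) (by simp)).eventually (gt_mem_nhds (lt_add_one _))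
  set B := ∑ u ∈ s.erase o, gh o u + 1 with hB
  have hlow : ∀ᶠ z in 𝓝[≠] o, C - c * B + (1 - c) * gh z o ≤ G' z - c * ∑ u ∈ s, gh z u := by
    filter_upwards [hC, nhdsWithin_le_nhds hc1] with z h1 h2
    have h3 : ∑ u ∈ s, gh z u ≤ gh z o + ∑ u ∈ s.erase o, gh z u := by
      by_cases hos : o ∈ s
      · rw [Finset.add_sum_erase s _ hos]
      · rw [Finset.erase_eq_of_notMem hos]
        have := gh_nonneg z o
        linarith
    have h4 : c * ∑ u ∈ s, gh z u ≤ c * (gh z o + B) :=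
      mul_le_mul_of_nonneg_left (by linarith) hc0.le
    linarith
  apply tendsto_atTop_mono' _ hlow
  apply tendsto_atTop_add_const_left
  exact (gh_atTop o).const_mul_atTop (by linarith)

end

theorem GG_min (Γ : Subgroup SL(2, ℝ)) (w : ℍ) (κ : SL(2, ℝ))
    (hsum : Summable (fun u : MulAction.orbit Γ w => (κ • (u : ℍ)).im)) (G' : ℍ → ℝ)
    (h : HasLogPole Γ Set.univ w G') (s : Finset ℍ) (hs : ∀ u ∈ s, u ∈ MulAction.orbit Γ w)
    (c : ℝ) (hc0 : 0 < c) (hc : c < 1) (z₀ : ℍ) (hz₀ : z₀ ∉ MulAction.orbit Γ w) :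
    0 ≤ G' z₀ - c * ∑ u ∈ s, gh z₀ u := by
  classical
  by_contra hneg
  push Not at hneg
  set O := MulAction.orbit Γ w with hO
  set P : ℍ → ℝ := fun z => ∑ u ∈ s, gh z u with hP
  set D : ℍ → ℝ := fun z => G' z - c * P z with hD
  have hD0 : D z₀ < 0 := hneg
  have hP0 : ∀ z, 0 ≤ P z := fun z => Finset.sum_nonneg fun u _ => gh_nonneg z u
  -- continuity and harmonicity away from the orbit
  have hDc : ∀ z, z ∉ O → ContinuousAt D z := by
    intro z hz
    apply ContinuousAt.sub (G'_cont Γ w G' h z hz)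
    apply ContinuousAt.mul continuousAt_const
    apply tendsto_finsetSum
    intro u hu
    exact gh_cont u z (fun e => hz (e ▸ hs u hu))
  have hDh : ∀ z, z ∉ O → HarmonicAt (fun x : ℂ => D (ofComplex x)) (z : ℂ) := by
    intro z hz
    have h1 : ∀ s' : Finset ℍ, (∀ u ∈ s', u ∈ O) →
        HarmonicAt (fun x : ℂ => ∑ u ∈ s', gh (ofComplex x) u) (z : ℂ) := by
      intro s'
      induction s' using Finset.induction_on with
      | empty => intro _; simp
      | insert a s' ha ih =>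
        intro hs'
        have h3 := (gh_harm z a (fun e => hz (e ▸ hs' a (by simp)))).add
          (ih fun u hu => hs' u (by simp [hu]))
        have e : (fun x : ℂ => ∑ i ∈ insert a s', gh (ofComplex x) i) =
            (fun x : ℂ => gh (ofComplex x) a) +
              fun x : ℂ => ∑ i ∈ s', gh (ofComplex x) i := by
          funext x
          rw [Finset.sum_insert ha]
          rfl
        rw [e]
        exact h3
    exact (h.harmonic z (Set.mem_univ _) hz).sub ((h1 s hs).const_smul (c := c))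
  set L : Set ℍ := {z | z ∉ O ∧ D z ≤ D z₀} with hL
  obtain ⟨K, hK, hKs⟩ := compact_big s (-D z₀) (by linarith)
  have hLK : L ⊆ K := by
    intro z hz
    apply hKs
    have h1 : 0 < G' z := h.pos z (Set.mem_univ _) hz.1
    have h2 : G' z - c * P z ≤ D z₀ := hz.2
    have h3 := hP0 z
    change -D z₀ ≤ P z
    nlinarith
  have hLc : IsClosed L := by
    rw [isClosed_iff_frequently]
    intro z hz
    by_cases hzO : z ∈ O
    · exfalso
      have h1 := (D_atTop Γ w G' h s c hc0 hc z hzO).eventually_gt_atTop (D z₀)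
      have h2 : ∃ᶠ x in 𝓝[≠] z, x ∈ L := by
        rw [frequently_nhdsWithin_iff]
        refine hz.mono fun x hx => ⟨hx, ?_⟩
        rintro rfl
        exact hx.1 hzO
      obtain ⟨x, hx1, hx2⟩ := (h2.and_eventually h1).exists
      exact absurd hx1.2 (not_le.mpr hx2)
    · refine ⟨hzO, ?_⟩
      by_contra hlt
      push Not at hlt
      obtain ⟨x, hx1, hx2⟩ := (hz.and_eventually ((hDc z hzO).eventually (lt_mem_nhds hlt))).exists
      exact absurd hx1.2 (not_le.mpr hx2)
  have hLcomp : IsCompact L := hK.of_isClosed_subset hLc hLK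
  have hLne : L.Nonempty := ⟨z₀, hz₀, le_rfl⟩
  obtain ⟨z₁, hz₁, hmin⟩ := hLcomp.exists_isMinOn hLne
    (fun z hz => (hDc z hz.1).continuousWithinAt)
  have hmin' : ∀ z, z ∉ O → D z₁ ≤ D z := by
    intro z hz
    by_cases hz' : D z ≤ D z₀
    · exact hmin ⟨hz, hz'⟩
    · push Not at hz'
      exact le_trans hz₁.2 hz'.le
  set L' : Set ℍ := {z | z ∉ O ∧ D z ≤ D z₁} with hL'
  have hL'L : L' ⊆ L := fun z hz => ⟨hz.1, le_trans hz.2 hz₁.2⟩
  have hL'c : IsClosed L' := by
    rw [isClosed_iff_frequently]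
    intro z hz
    have hzL : z ∈ L := by
      rw [isClosed_iff_frequently] at hLc
      exact hLc z (hz.mono fun x hx => hL'L hx)
    refine ⟨hzL.1, ?_⟩
    by_contra hlt
    push Not at hlt
    obtain ⟨x, hx1, hx2⟩ :=
      (hz.and_eventually ((hDc z hzL.1).eventually (lt_mem_nhds hlt))).exists
    exact absurd hx1.2 (not_le.mpr hx2)
  have hL'comp : IsCompact L' := hLcomp.of_isClosed_subset hL'c hL'L
  obtain ⟨z₂, hz₂, hmax⟩ := hL'comp.exists_isMaxOn ⟨z₁, hz₁.1, le_rfl⟩
    (continuous_im.continuousOn)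
  -- `D` is locally constant near `z₂`
  have hz2im : 0 < (z₂ : ℂ).im := by rw [coe_im]; exact z₂.im_pos
  have hOev : ∀ᶠ x in 𝓝 z₂, x ∉ O := by
    have h1 := orbit_discrete Γ w κ hsum z₂
    rw [eventually_nhdsWithin_iff] at h1
    filter_upwards [h1] with x hx
    by_cases e : x = z₂
    · rw [e]; exact hz₂.1
    · exact hx e
  have hcoe : Tendsto (fun x : ℂ => ofComplex x) (𝓝 (z₂ : ℂ)) (𝓝 z₂) := by
    have h1 : ContinuousAt (fun x : ℂ => ofComplex x) (z₂ : ℂ) := by
      have := (isOpenEmbedding_coe.toOpenPartialHomeomorph _).continuousAt_symm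
        (x := (z₂ : ℂ)) (by simp [z₂.im_pos])
      exact this
    have h2 := h1.tendsto
    rwa [ofComplex_apply] at h2
  have hev : ∀ᶠ x in 𝓝 (z₂ : ℂ), ofComplex x ∉ O := hcoe.eventually hOev
  have hloc : IsLocalMin (fun x : ℂ => D (ofComplex x)) (z₂ : ℂ) := by
    filter_upwards [hev] with x hx
    change D (ofComplex (z₂ : ℂ)) ≤ D (ofComplex x)
    rw [ofComplex_apply]
    exact le_trans hz₂.2 (hmin' _ hx)
  have hconst := harm_const _ _ (hDh z₂ hz₂.1) hloc
  have hfinal : ∀ᶠ x in 𝓝 (z₂ : ℂ), x.im ≤ (z₂ : ℂ).im := by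
    filter_upwards [hconst, hev, (isOpen_lt continuous_const Complex.continuous_im).mem_nhds hz2im]
      with x h1 h2 h3
    have h4 : ofComplex x ∈ L' := by
      refine ⟨h2, ?_⟩
      rw [h1, ofComplex_apply]
      exact hz₂.2
    have h5 : (ofComplex x).im ≤ z₂.im := hmax h4
    rw [ofComplex_apply_of_im_pos h3] at h5
    exact h5
  obtain ⟨ε, hε, hball⟩ := Metric.eventually_nhds_iff_ball.mp hfinal
  have := hball ((z₂ : ℂ) + (ε / 2 : ℝ) * Complex.I) (by
    rw [Metric.mem_ball, dist_eq_norm, add_sub_cancel_left, norm_mul, Complex.norm_I, mul_one,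
      Complex.norm_real, Real.norm_eq_abs, abs_of_pos (by positivity)]
    linarith)
  simp at this
  linarith

theorem GG_green (Γ : Subgroup SL(2, ℝ)) (w : ℍ) (κ : SL(2, ℝ))
    (hsum : Summable (fun u : MulAction.orbit Γ w => (κ • (u : ℍ)).im)) :
    IsGreen Γ Set.univ w (GG Γ w) := by
  classical
  refine ⟨GG_logPole Γ w κ hsum _, ?_⟩
  intro G' h z _ hz
  unfold GG
  apply Real.tsum_le_of_sum_le (fun u => gh_nonneg _ _)
  intro s
  have e : ∑ u ∈ s, gh z u = ∑ u ∈ s.image (fun u : MulAction.orbit Γ w => (u : ℍ)), gh z u := by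
    rw [Finset.sum_image]
    intro u _ v _ huv
    exact Subtype.ext huv
  rw [e]
  by_contra hlt
  push Not at hlt
  set P := ∑ u ∈ s.image (fun u : MulAction.orbit Γ w => (u : ℍ)), gh z u with hP
  have hG : 0 < G' z := h.pos z (Set.mem_univ _) hz
  have hP0 : 0 < P := by linarith
  have h1 := GG_min Γ w κ hsum G' h (s.image (fun u : MulAction.orbit Γ w => (u : ℍ)))
    (by
      intro u hu
      rw [Finset.mem_image] at hu
      obtain ⟨v, _, rfl⟩ := hu
      exact v.2) ((G' z / P + 1) / 2) (by positivity) (by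
        have : G' z / P < 1 := by rw [div_lt_one hP0]; exact hlt
        linarith) z hz
  rw [← hP] at h1
  have h2 : (G' z / P + 1) / 2 * P = (G' z + P) / 2 := by field_simp
  rw [h2] at h1
  linarith

end Pool.Agent.MP_b90f02_an
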