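import Pool.Agent.MP_b90f02_an.Defs
import Pool.Agent.MP_b90f02_an.Incl
import Pool.Agent.MP_b90f02_an.Kappa
import Pool.Agent.MP_b90f02_an.Min2

/-!
# Half-twists do not always make a flute surface parabolic

For `ℓ n = 8 (n + 1)` and every choice of twists in `{0, 1/2}` the flute surface carries a Green's
function. The definitions are in `Pool/Agent/MP_b90f02_an/Defs.lean`.

Idea: all these surfaces have a reflection symmetry, and each is obtained by doubling a polygon all
of whose vertices are ideal. When the lengths grow fast, one interval of the boundary circle never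
meets the mirrors, whatever the twists are. Ping-pong shows that this interval is free under the
Fuchsian group, so the translates of the half-disc over it are disjoint; comparing lengths on the
boundary gives the convergence of the Green's series.
-/

set_option autoImplicit false
set_option linter.unusedVariables false

open Matrix UpperHalfPlane Topology
open scoped MatrixGroups

namespace Pool.Agent.MP_b90f02_an.HalfTwistsHyperbolic

open Pool.Agent.MP_b90f02_an

theorem growth (n : ℕ) :
    2 ≤ th (8 * (((n + 1 : ℕ) : ℝ) + 1)) ^ 2 * (3 - th (8 * ((n : ℝ) + 1)) ^ 2) := by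
  have e1 : th (8 * (((n + 1 : ℕ) : ℝ) + 1)) = Real.tanh (2 * ((n : ℝ) + 1) + 2) := by
    unfold th; congr 1; push_cast; ring
  have e2 : th (8 * ((n : ℝ) + 1)) = Real.tanh (2 * ((n : ℝ) + 1)) := by
    unfold th; congr 1; ring
  rw [e1, e2]
  set x : ℝ := 2 * ((n : ℝ) + 1) with hx
  have hx0 : 0 < x := by positivity
  have h1 : ∀ y : ℝ, Real.tanh y ^ 2 = 1 - 1 / Real.cosh y ^ 2 := by
    intro y
    have hc := Real.cosh_pos y
    rw [Real.tanh_eq_sinh_div_cosh, div_pow, Real.sinh_sq]
    field_simp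
  rw [h1, h1]
  have hc : 1 ≤ Real.cosh x ^ 2 := one_le_pow₀ (Real.one_le_cosh x)
  have hc' : 3 * Real.cosh x ^ 2 ≤ Real.cosh (x + 2) ^ 2 := by
    have h2 : Real.cosh (x + 2) = Real.cosh x * Real.cosh 2 + Real.sinh x * Real.sinh 2 :=
      Real.cosh_add x 2
    have h3 : 0 < Real.sinh x := Real.sinh_pos_iff.mpr hx0
    have h4 : (2 : ℝ) ≤ Real.sinh 2 := Real.self_le_sinh_iff.mpr (by norm_num)
    have h5 : (3 : ℝ) ≤ Real.cosh 2 ^ 2 := by
      rw [Real.cosh_sq]; nlinarith
    have h6 : Real.cosh x * Real.cosh 2 ≤ Real.cosh (x + 2) := by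
      rw [h2]; nlinarith [mul_pos h3 (by linarith : 0 < Real.sinh 2)]
    have h7 : (Real.cosh x * Real.cosh 2) ^ 2 ≤ Real.cosh (x + 2) ^ 2 :=
      pow_le_pow_left₀ (by have := Real.cosh_pos x; have := Real.cosh_pos 2; positivity) h6 2
    nlinarith
  generalize Real.cosh x ^ 2 = a at *
  generalize Real.cosh (x + 2) ^ 2 = b at *
  have ha : 0 < a := by linarith
  have hb : 0 < b := by linarith
  have e3 : (1 - 1 / b) * (3 - (1 - 1 / a)) - 2 = (b - 2 * a - 1) / (a * b) := by
    field_simp; ring
  have h8 : 0 ≤ (b - 2 * a - 1) / (a * b) := div_nonneg (by linarith) (by positivity)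
  linarith

/-- There is a non-decreasing sequence of positive lengths such that, for every choice of twists
`t n ∈ {0, 1/2}`, the flute surface `X` carries a Green's function: the quotient of the whole upper
half-plane by the Fuchsian group does, and so does the quotient of every nonempty open invariant
subset `Ω` (in particular the union of the pairs of pants, should that be smaller): for every pole
there is a positive function which is harmonic except for a positive logarithmic pole. -/
theorem result : ∃ ℓ : ℕ → ℝ, (∀ n, 0 < ℓ n) ∧ Monotone ℓ ∧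
    ∀ t : ℕ → ℝ, (∀ n, t n = 0 ∨ t n = 1 / 2) →
      (∀ w : ℍ, ∃ G : ℍ → ℝ, IsGreen (fluteGroup ℓ t) Set.univ w G) ∧
      (∀ Ω : Set ℍ, IsOpen Ω → (∀ γ ∈ fluteGroup ℓ t, ∀ z ∈ Ω, γ • z ∈ Ω) →
        ∀ w ∈ Ω, ∃ G : ℍ → ℝ, HasLogPole (fluteGroup ℓ t) Ω w G) := by
  refine ⟨fun n => 8 * ((n : ℝ) + 1), fun n => by positivity, ?_, ?_⟩
  · intro a b hab
    have : (a : ℝ) ≤ b := Nat.cast_le.mpr hab
    change 8 * ((a : ℝ) + 1) ≤ 8 * ((b : ℝ) + 1)
    linarith
  · intro t ht
    set ℓ : ℕ → ℝ := fun n => 8 * ((n : ℝ) + 1) with hℓ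
    have hpos : ∀ n, 0 < ℓ n := fun n => by rw [hℓ]; positivity
    have hT := fun γ hγ hne z hz => flute_T ℓ t hpos ht growth γ hγ hne z hz
    obtain ⟨κ, hκ⟩ := exists_kappa (fluteGroup ℓ t) (lo (ℓ 0)) (hi (ℓ 0))
      (by have := one_lt_lo (hpos 0); linarith) (lo_lt_hi (hpos 0)) hT
    exact ⟨fun w => ⟨GG (fluteGroup ℓ t) w, GG_green _ w κ (summable_orbit _ κ w (hκ w))⟩,
      fun Ω _ _ w _ => ⟨GG (fluteGroup ℓ t) w,
        GG_logPole _ w κ (summable_orbit _ κ w (hκ w)) Ω⟩⟩

end Pool.Agent.MP_b90f02_an.HalfTwistsHyperbolic
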