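import Pool.Agent.MP_b90f02_an.Moves

set_option autoImplicit false

open Matrix UpperHalfPlane
open scoped MatrixGroups

namespace Pool.Agent.MP_b90f02_an

/-- the coordinate change -/
noncomputable def Y (σ : ℝ) : ℝ := (1 + σ) / (1 - σ)

/-- `tanh (a / 4)` -/
noncomputable def th (a : ℝ) : ℝ := Real.tanh (a / 4)

theorem th_pos {a : ℝ} (ha : 0 < a) : 0 < th a := by
  unfold th; rw [Real.tanh_eq_sinh_div_cosh]
  exact div_pos (Real.sinh_pos_iff.mpr (by positivity)) (Real.cosh_pos _)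

theorem th_lt_one (a : ℝ) : th a < 1 := Real.tanh_lt_one _

theorem Y_th (a : ℝ) : Y (th a) = Real.exp (a / 2) := by
  unfold Y th
  rw [Real.tanh_eq_sinh_div_cosh]
  have h1 := Real.cosh_pos (a / 4)
  have h2 : Real.cosh (a / 4) - Real.sinh (a / 4) = Real.exp (-(a / 4)) := Real.cosh_sub_sinh _
  have h3 : Real.cosh (a / 4) + Real.sinh (a / 4) = Real.exp (a / 4) := Real.cosh_add_sinh _
  have h4 : 1 - Real.sinh (a / 4) / Real.cosh (a / 4) ≠ 0 := by
    have := Real.tanh_lt_one (a / 4)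
    rw [Real.tanh_eq_sinh_div_cosh] at this
    linarith
  rw [div_eq_iff h4]
  field_simp
  rw [h3, h2, ← Real.exp_add]
  ring_nf

theorem exp_orth {a b : ℝ} (ha : 0 < a) (hb : 0 < b) :
    orth a b = Real.log (1 / (th a * th b)) := by
  have hta := th_pos ha
  have htb := th_pos hb
  have hta1 := th_lt_one a
  have htb1 := th_lt_one b
  have h1 : 1 < 1 / (th a * th b) := by
    rw [lt_div_iff₀ (by positivity)]; nlinarith
  have h2 : Real.cosh (Real.log (1 / (th a * th b))) =
      (1 + Real.cosh (a / 2) * Real.cosh (b / 2)) / (Real.sinh (a / 2) * Real.sinh (b / 2)) := by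
    rw [Real.cosh_log (by positivity)]
    have ea : a / 2 = 2 * (a / 4) := by ring
    have eb : b / 2 = 2 * (b / 4) := by ring
    rw [ea, eb, Real.sinh_two_mul, Real.sinh_two_mul, Real.cosh_two_mul, Real.cosh_two_mul]
    unfold th
    rw [Real.tanh_eq_sinh_div_cosh, Real.tanh_eq_sinh_div_cosh]
    have s1 : 0 < Real.sinh (a / 4) := Real.sinh_pos_iff.mpr (by positivity)
    have s2 : 0 < Real.sinh (b / 4) := Real.sinh_pos_iff.mpr (by positivity)
    have c1 := Real.cosh_pos (a / 4)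
    have c2 := Real.cosh_pos (b / 4)
    have e1 := Real.cosh_sq (a / 4)
    have e2 := Real.cosh_sq (b / 4)
    generalize Real.sinh (a / 4) = x at *
    generalize Real.sinh (b / 4) = y at *
    generalize Real.cosh (a / 4) = u at *
    generalize Real.cosh (b / 4) = v at *
    field_simp
    rw [e1, e2]
    ring
  unfold orth
  rw [← h2, Real.arcosh_cosh (Real.log_nonneg h1.le)]

theorem cross_rel {a b : ℝ} (ha : 0 < a) (hb : 0 < b) :
    Real.sinh (orth a b / 2) * (1 + th a * th b) = Real.cosh (orth a b / 2) * (1 - th a * th b) := by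
  have hta := th_pos ha
  have htb := th_pos hb
  have hm : 0 < th a * th b := by positivity
  rw [Real.sinh_eq, Real.cosh_eq]
  have h1 : Real.exp (orth a b / 2) ^ 2 * (th a * th b) = 1 := by
    rw [← Real.exp_nat_mul, exp_orth ha hb]
    have : ((2 : ℕ) : ℝ) * (Real.log (1 / (th a * th b)) / 2) = Real.log (1 / (th a * th b)) := by
      push_cast; ring
    rw [this, Real.exp_log (by positivity)]
    field_simp
  rw [Real.exp_neg]
  have hE := Real.exp_pos (orth a b / 2)
  generalize Real.exp (orth a b / 2) = E at *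
  field_simp
  linear_combination (2 : ℝ) * h1

theorem cross_Y_aux {c s m σ : ℝ} (hc : 0 < c) (hm : 0 < m) (h : s * (1 + m) = c * (1 - m))
    (h1 : σ ≠ 1) (h2 : σ * m ≠ 1) :
    s * Y σ + c = 2 * c * (1 - σ * m) / ((1 + m) * (1 - σ)) ∧
      (c * Y σ + s) / (s * Y σ + c) = Y (m * σ) := by
  have hs : s = c * (1 - m) / (1 + m) := by field_simp; linarith
  have h1' : 1 - σ ≠ 0 := fun h => h1 (by linarith)
  have h2' : 1 - σ * m ≠ 0 := fun h => h2 (by linarith)
  have h3' : 1 - m * σ ≠ 0 := fun h => h2 (by linarith)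
  have e1 : s * Y σ + c = 2 * c * (1 - σ * m) / ((1 + m) * (1 - σ)) := by
    rw [hs]; unfold Y; field_simp; ring
  refine ⟨e1, ?_⟩
  have h4 : 2 * c * (1 - σ * m) / ((1 + m) * (1 - σ)) ≠ 0 := by positivity
  rw [e1, div_eq_iff h4, hs]
  unfold Y
  field_simp
  ring

/-- how `cross` changes the quadratic form -/
theorem cross_N {a b : ℝ} (ha : 0 < a) (hb : 0 < b) {σ σ' : ℝ} (h1 : σ ≠ 1) (h1' : σ' ≠ 1)
    (h2 : σ * (th a * th b) ≠ 1) (h2' : σ' * (th a * th b) ≠ 1) (z : ℍ) :
    ∃ r : ℝ, 0 < r ∧ N (Y (th a * th b * σ)) (Y (th a * th b * σ'))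
      (((cross (orth a b) : SL(2, ℝ)) : GL (Fin 2) ℝ) • z) *
        (r * ((1 - σ * (th a * th b)) * (1 - σ' * (th a * th b)) / ((1 - σ) * (1 - σ')))) =
        N (Y σ) (Y σ') z := by
  have hm : 0 < th a * th b := mul_pos (th_pos ha) (th_pos hb)
  have hc := Real.cosh_pos (orth a b / 2)
  obtain ⟨e1, e2⟩ := cross_Y_aux hc hm (cross_rel ha hb) h1 h2
  obtain ⟨e1', e2'⟩ := cross_Y_aux hc hm (cross_rel ha hb) h1' h2'
  have k1 : 1 - σ ≠ 0 := fun h => h1 (by linarith)
  have k1' : 1 - σ' ≠ 0 := fun h => h1' (by linarith)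
  have k2 : 1 - σ * (th a * th b) ≠ 0 := fun h => h2 (by linarith)
  have k2' : 1 - σ' * (th a * th b) ≠ 0 := fun h => h2' (by linarith)
  set g : GL (Fin 2) ℝ := ((cross (orth a b) : SL(2, ℝ)) : GL (Fin 2) ℝ) with hg
  have g00 : g 0 0 = Real.cosh (orth a b / 2) := rfl
  have g01 : g 0 1 = Real.sinh (orth a b / 2) := rfl
  have g10 : g 1 0 = Real.sinh (orth a b / 2) := rfl
  have g11 : g 1 1 = Real.cosh (orth a b / 2) := rfl
  have hdet : ((g.det : ℝ)) = 1 := by
    rw [Matrix.GeneralLinearGroup.val_det_apply]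
    exact (cross (orth a b)).det_coe
  have hne : Real.sinh (orth a b / 2) * Y σ + Real.cosh (orth a b / 2) ≠ 0 := by
    rw [e1]; positivity
  have hne' : Real.sinh (orth a b / 2) * Y σ' + Real.cosh (orth a b / 2) ≠ 0 := by
    rw [e1']; positivity
  have key := N_smul g (Y σ) (Y σ') z (by rw [g10, g11]; exact hne) (by rw [g10, g11]; exact hne')
  rw [g00, g01, g10, g11, hdet, e2, e2', e1, e1'] at key
  have hn := normSq_denom_pos g z.im_ne_zero
  refine ⟨Complex.normSq (denom g z) * (4 * Real.cosh (orth a b / 2) ^ 2 / (1 + th a * th b) ^ 2),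
    by positivity, ?_⟩
  rw [one_pow, one_mul] at key
  rw [← key]
  congr 1
  field_simp
  ring

end Pool.Agent.MP_b90f02_an
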