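import Pool.Agent.MP_b90f02_an.Local

set_option autoImplicit false

open Matrix UpperHalfPlane
open scoped MatrixGroups

namespace Pool.Agent.MP_b90f02_an

/-- left end of the free interval -/
noncomputable def lo (a : ℝ) : ℝ := Y (th a / 2)

/-- right end of the free interval -/
noncomputable def hi (a : ℝ) : ℝ := Y (th a / (2 - th a ^ 2))

theorem Y_mono {σ σ' : ℝ} (h : σ ≤ σ') (h' : σ' < 1) : Y σ ≤ Y σ' := by
  unfold Y
  rw [div_le_div_iff₀ (by linarith) (by linarith)]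
  nlinarith

theorem Y_strictMono {σ σ' : ℝ} (h : σ < σ') (h' : σ' < 1) : Y σ < Y σ' := by
  unfold Y
  rw [div_lt_div_iff₀ (by linarith) (by linarith)]
  nlinarith

theorem Y_zero : Y 0 = 1 := by simp [Y]

theorem hi_arg {a : ℝ} (ha : 0 < a) : th a / 2 < th a / (2 - th a ^ 2) ∧
    th a / (2 - th a ^ 2) < th a := by
  have h1 := th_pos ha
  have h2 := th_lt_one a
  generalize th a = t at *
  have h3 : 0 < 2 - t ^ 2 := by nlinarith
  constructor
  · rw [div_lt_div_iff₀ (by norm_num) h3]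
    nlinarith [mul_pos h1 (mul_pos h1 h1)]
  · rw [div_lt_iff₀ h3]
    nlinarith [mul_pos h1 (mul_pos (sub_pos.mpr h2) (by linarith : (0:ℝ) < 1 + t))]

theorem one_lt_lo {a : ℝ} (ha : 0 < a) : 1 < lo a := by
  rw [← Y_zero]; unfold lo
  exact Y_strictMono (by have := th_pos ha; positivity) (by have := th_lt_one a; linarith)

theorem lo_lt_hi {a : ℝ} (ha : 0 < a) : lo a < hi a := by
  have h := hi_arg ha
  have h2 := th_lt_one a
  exact Y_strictMono h.1 (by linarith [h.2])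

theorem hi_lt {a : ℝ} (ha : 0 < a) : hi a < Real.exp (a / 2) := by
  have h := hi_arg ha
  rw [← Y_th]
  exact Y_strictMono h.2 (th_lt_one a)

theorem lo_mul_hi {a : ℝ} (ha : 0 < a) : lo a * hi a = Real.exp (a / 2) := by
  rw [← Y_th]
  unfold lo hi Y
  have h1 := th_pos ha
  have h2 := th_lt_one a
  generalize th a = t at *
  have h3 : (2 - t ^ 2) ≠ 0 := by nlinarith
  have h4 : 1 - t / (2 - t ^ 2) ≠ 0 := by
    intro h
    field_simp at h
    nlinarith
  have h5 : 1 - t / 2 ≠ 0 := by intro h; linarith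
  have h6 : 1 - t ≠ 0 := by intro h; linarith
  have e4 : 1 - t / (2 - t ^ 2) = (1 - t) * (2 + t) / (2 - t ^ 2) := by field_simp; ring
  have e7 : 1 + t / (2 - t ^ 2) = (1 + t) * (2 - t) / (2 - t ^ 2) := by field_simp; ring
  have e8 : 1 - t / 2 = (2 - t) / 2 := by ring
  have e9 : 1 + t / 2 = (2 + t) / 2 := by ring
  rw [e4, e7, e8, e9]
  have h7 : (2 - t) ≠ 0 := by intro h; linarith
  have h8 : (2 + t) ≠ 0 := by intro h; linarith
  field_simp

theorem cross_mem {a b : ℝ} (ha : 0 < a) (hb : 0 < b) (z : ℍ) :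
    ((cross (orth a b) : SL(2, ℝ)) : GL (Fin 2) ℝ) • z ∈ HD 1 (Real.exp (a / 2)) ↔
      0 ≤ N 1 (-Real.exp (b / 2)) z := by
  have ta := th_pos ha
  have tb := th_pos hb
  have ta1 := th_lt_one a
  have tb1 := th_lt_one b
  have e1 : (1 / th b) * (th a * th b) = th a := by field_simp
  obtain ⟨r, hr, h⟩ := cross_N ha hb (σ := 0) (σ' := 1 / th b) (by norm_num)
    (by intro h; field_simp at h; linarith) (by norm_num) (by rw [e1]; linarith) z
  rw [mul_zero, zero_mul, sub_zero, Y_zero, e1, mul_comm (th a * th b) (1 / th b), e1,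
    Y_th, one_mul, one_mul] at h
  have e2 : Y (1 / th b) = -Real.exp (b / 2) := by
    rw [← Y_th]; unfold Y
    have k1 : th b - 1 ≠ 0 := by intro h; linarith
    have k2 : 1 - th b ≠ 0 := by intro h; linarith
    have k3 : 1 - 1 / th b ≠ 0 := by
      intro h; field_simp at h; exact k1 (by linarith)
    field_simp
    ring
  rw [e2] at h
  have e3 : 1 - 1 / th b < 0 := by
    rw [sub_neg, lt_div_iff₀ tb]; linarith
  have e4 : r * ((1 - th a) / (1 - 1 / th b)) < 0 :=
    mul_neg_of_pos_of_neg hr (div_neg_of_pos_of_neg (by linarith) e3)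
  rw [mem_HD, ← h]
  constructor
  · intro h1
    exact mul_nonneg_of_nonpos_of_nonpos h1 e4.le
  · intro h1
    by_contra h2
    push Not at h2
    have := mul_neg_of_pos_of_neg h2 e4
    linarith

theorem cross_T {a b : ℝ} (ha : 0 < a) (hb : 0 < b) (hs : 2 ≤ th b ^ 2 * (3 - th a ^ 2)) (z : ℍ)
    (hz : z ∈ HD (lo a) (hi a)) :
    (((cross (orth a b) : SL(2, ℝ)) : GL (Fin 2) ℝ))⁻¹ • z ∈ HD (lo b) (hi b) := by
  have ta := th_pos ha
  have tb := th_pos hb
  have ta1 := th_lt_one a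
  have tb1 := th_lt_one b
  have hb' := hi_arg hb
  have ha' := hi_arg ha
  have s1 : th b / 2 < 1 := by linarith
  have s2 : th b / (2 - th b ^ 2) < 1 := by linarith [hb'.2]
  have m1 : th a * th b < 1 := by nlinarith
  have m0 : 0 < th a * th b := by positivity
  have d2 : 0 < 2 - th b ^ 2 := by nlinarith
  have d2' : 0 < 2 - th a ^ 2 := by nlinarith
  have s3 : th b / 2 * (th a * th b) < 1 := by
    have : 0 < th b / 2 := by positivity
    nlinarith
  have s4 : th b / (2 - th b ^ 2) * (th a * th b) < 1 := by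
    have : 0 < th b / (2 - th b ^ 2) := by positivity
    nlinarith
  set w : ℍ := (((cross (orth a b) : SL(2, ℝ)) : GL (Fin 2) ℝ))⁻¹ • z with hw
  obtain ⟨r, hr, h⟩ := cross_N ha hb (σ := th b / 2) (σ' := th b / (2 - th b ^ 2)) s1.ne s2.ne
    s3.ne s4.ne w
  have e1 : (((cross (orth a b) : SL(2, ℝ)) : GL (Fin 2) ℝ)) • w = z := by
    rw [hw, smul_inv_smul]
  rw [e1] at h
  rw [mem_HD]
  change N (Y (th b / 2)) (Y (th b / (2 - th b ^ 2))) w ≤ 0
  rw [← h]
  have h3 : 0 < r * ((1 - th b / 2 * (th a * th b)) * (1 - th b / (2 - th b ^ 2) * (th a * th b)) /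
      ((1 - th b / 2) * (1 - th b / (2 - th b ^ 2)))) := by
    apply mul_pos hr
    apply div_pos <;> apply mul_pos <;> linarith
  apply mul_nonpos_of_nonpos_of_nonneg _ h3.le
  rw [← mem_HD]
  apply HD_subset (lo_lt_hi ha).le _ _ hz
  · apply Y_mono _ (by linarith)
    nlinarith [mul_pos ta tb]
  · apply Y_mono _ (by rw [mul_comm]; linarith)
    rw [div_le_iff₀ d2']
    have e5 : th a * th b * (th b / (2 - th b ^ 2)) * (2 - th a ^ 2) =
      th a * (th b ^ 2 * (2 - th a ^ 2) / (2 - th b ^ 2)) := by ring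
    rw [e5]
    have e6 : 1 ≤ th b ^ 2 * (2 - th a ^ 2) / (2 - th b ^ 2) := by
      rw [le_div_iff₀ d2]; nlinarith
    nlinarith

/-- `R false b = {|z| ≥ exp (b / 2)}`, `R true b = {|z| ≤ 1}` -/
noncomputable def R (ε : Bool) (b : ℝ) : Set ℍ :=
  cond ε {z | nrm z ≤ 1} {z | Real.exp (b / 2) ^ 2 ≤ nrm z}

/-- the reflection in the boundary of `R ε b` -/
noncomputable def mir (ε : Bool) (b : ℝ) : GL (Fin 2) ℝ := cond ε (rf 0) (rf (b / 2))

/-- the local move -/
noncomputable def loc (ε : Bool) (a b : ℝ) : GL (Fin 2) ℝ :=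
  cond ε (rf (a / 4) * ((cross (orth a b) : SL(2, ℝ)) : GL (Fin 2) ℝ) * rf (b / 4))
    ((cross (orth a b) : SL(2, ℝ)) : GL (Fin 2) ℝ)

theorem mir_sq (ε : Bool) (b : ℝ) : mir ε b * mir ε b = 1 := by
  cases ε <;> exact rf_sq _

theorem mir_mem (ε : Bool) (b : ℝ) (z : ℍ) (hz : z ∉ R ε b) : mir ε b • z ∈ R ε b := by
  cases ε
  · change ¬ (Real.exp (b / 2) ^ 2 ≤ nrm z) at hz
    change Real.exp (b / 2) ^ 2 ≤ nrm (rf (b / 2) • z)
    rw [nrm_rf]
    push Not at hz
    have h := nrm_pos z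
    rw [le_div_iff₀ h]
    have := Real.exp_pos (b / 2)
    nlinarith [pow_pos this 2]
  · change ¬ (nrm z ≤ 1) at hz
    change nrm (rf 0 • z) ≤ 1
    rw [nrm_rf]
    push Not at hz
    rw [Real.exp_zero, one_pow, div_le_one (by linarith)]
    exact hz.le

theorem exp_quarter (a : ℝ) : Real.exp (a / 4) ^ 2 = Real.exp (a / 2) := by
  rw [← Real.exp_nat_mul]; ring_nf

theorem rf_quarter_HD (a p q : ℝ) (hp : 0 < p) (hq : 0 < q) (h : p * q = Real.exp (a / 2)) (z : ℍ)
    (hz : z ∈ HD p q) : rf (a / 4) • z ∈ HD p q := by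
  have h1 := rf_HD (a / 4) p q hp hq z hz
  rw [exp_quarter, ← h] at h1
  have e1 : p * q / q = p := by field_simp
  have e2 : p * q / p = q := by field_simp
  rwa [e1, e2] at h1

theorem R_disj_HD (ε : Bool) {b : ℝ} (hb : 0 < b) (z : ℍ) (hz : z ∈ R ε b)
    (hz' : z ∈ HD 1 (Real.exp (b / 2))) : False := by
  have h1 : (1 : ℝ) ≤ Real.exp (b / 2) := Real.one_le_exp (by positivity)
  obtain ⟨h2, h3, h4⟩ := HD_pos one_pos h1 hz'
  cases ε
  · change Real.exp (b / 2) ^ 2 ≤ nrm z at hz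
    unfold nrm at hz; linarith
  · change nrm z ≤ 1 at hz
    unfold nrm at hz; linarith

/-- the regions `R` and `HD` at the next level lie inside the current strip -/
theorem loc_V (ε : Bool) {a b : ℝ} (ha : 0 < a) (hb : 0 < b) (z : ℍ)
    (hz : z ∈ HD 1 (Real.exp (b / 2)) ∨ z ∈ R ε b) : loc ε a b • z ∈ HD 1 (Real.exp (a / 2)) := by
  have hk : (1 : ℝ) ≤ Real.exp (b / 2) := Real.one_le_exp (by positivity)
  have hka : (1 : ℝ) ≤ Real.exp (a / 2) := Real.one_le_exp (by positivity)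
  have main : ∀ u : ℍ, (u ∈ HD 1 (Real.exp (b / 2)) ∨ Real.exp (b / 2) ^ 2 ≤ nrm u) →
      ((cross (orth a b) : SL(2, ℝ)) : GL (Fin 2) ℝ) • u ∈ HD 1 (Real.exp (a / 2)) := by
    intro u hu
    rw [cross_mem ha hb]
    unfold N
    rcases hu with hu | hu
    · rw [mem_HD] at hu
      unfold N at hu
      have him := im_sq_pos u
      have h3 : (u.re - 1) * (u.re - Real.exp (b / 2)) ≤ 0 := by nlinarith
      have h4 : 1 ≤ u.re := by
        by_contra hlt
        push Not at hlt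
        nlinarith
      nlinarith
    · unfold nrm at hu
      have h5 : 0 < Real.exp (b / 2) := Real.exp_pos _
      have h6 : u.re ^ 2 ≤ u.re ^ 2 + u.im ^ 2 := by have := im_sq_pos u; linarith
      have hn : 0 ≤ u.re ^ 2 + u.im ^ 2 := by positivity
      obtain ⟨n, hn0, hn2⟩ : ∃ n : ℝ, 0 ≤ n ∧ n ^ 2 = u.re ^ 2 + u.im ^ 2 :=
        ⟨Real.sqrt (u.re ^ 2 + u.im ^ 2), Real.sqrt_nonneg _, Real.sq_sqrt hn⟩
      rw [← hn2] at hu h6 ⊢
      have h7 : Real.exp (b / 2) ≤ n := by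
        exact le_of_sq_le_sq hu hn0
      have h8 : -n ≤ u.re := by
        have := abs_le_of_sq_le_sq' h6 hn0
        exact this.1
      nlinarith
  cases ε
  · exact main z hz
  · change (rf (a / 4) * ((cross (orth a b) : SL(2, ℝ)) : GL (Fin 2) ℝ) * rf (b / 4)) • z ∈ _
    rw [mul_smul, mul_smul]
    apply rf_quarter_HD a 1 _ one_pos (by linarith) (one_mul _)
    apply main
    rcases hz with hz | hz
    · left; exact rf_quarter_HD b 1 _ one_pos (by linarith) (one_mul _) z hz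
    · right
      change nrm z ≤ 1 at hz
      rw [nrm_rf]
      have h := nrm_pos z
      have e : Real.exp (b / 4) ^ 4 = Real.exp (b / 2) ^ 2 := by rw [← exp_quarter]; ring
      rw [e, le_div_iff₀ h]
      have : 0 < Real.exp (b / 2) ^ 2 := by positivity
      nlinarith

theorem loc_T (ε : Bool) {a b : ℝ} (ha : 0 < a) (hb : 0 < b)
    (hs : 2 ≤ th b ^ 2 * (3 - th a ^ 2)) (z : ℍ) (hz : z ∈ HD (lo a) (hi a)) :
    (loc ε a b)⁻¹ • z ∈ HD (lo b) (hi b) := by
  have ha1 := one_lt_lo ha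
  have ha2 := lo_lt_hi ha
  have hb1 := one_lt_lo hb
  have hb2 := lo_lt_hi hb
  cases ε
  · exact cross_T ha hb hs z hz
  · change (rf (a / 4) * ((cross (orth a b) : SL(2, ℝ)) : GL (Fin 2) ℝ) * rf (b / 4))⁻¹ • z ∈ _
    rw [_root_.mul_inv_rev, _root_.mul_inv_rev, rf_inv, rf_inv, mul_smul, mul_smul]
    apply rf_quarter_HD b _ _ (by linarith) (by linarith) (lo_mul_hi hb)
    apply cross_T ha hb hs
    exact rf_quarter_HD a _ _ (by linarith) (by linarith) (lo_mul_hi ha) z hz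

end Pool.Agent.MP_b90f02_an
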