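import Pool.Agent.MP_b90f02_an.Parabolic
import Pool.Agent.MP_b90f02_an.FluteData

set_option autoImplicit false

open Complex Set Topology Filter

namespace Pool.Agent.MP_b90f02

/-- A gap between the sides makes the double nonparabolic. -/
theorem not_parabolic_of_gap (G : Region) {x1 x2 : ℝ} (h12 : x1 < x2)
    (hgap : ∀ I ∈ G.side, I.2 ≤ x1 ∨ x2 ≤ I.1) (h0 : 0 ≤ x1) (h2 : x2 ≤ G.lam) :
    ¬ Parabolic G.X := by
  have hl := G.lam_pos
  set S : Set ℂ := {z | x1 < z.re ∧ z.re < x2} with hS
  have hSo : IsOpen S := (isOpen_lt continuous_const continuous_re).inter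
    (isOpen_lt continuous_re continuous_const)
  have hSc : IsPreconnected S := by
    have : S = Complex.reLm ⁻¹' (Ioo x1 x2) := by
      ext z
      simp [hS]
    rw [this]
    exact ((convex_Ioo x1 x2).linear_preimage _).isPreconnected
  apply G.not_parabolic (W := G.E '' S) (G.isOpenMap_E _ hSo)
    (hSc.image _ G.continuous_E.continuousOn)
  · rintro z hz ⟨w, hw, hwz⟩
    apply G.mem_D_of_E hwz.symm
    have hwY : w ∈ G.Y := G.mem_Y_of_E hwz hz
    refine ⟨hwY.1, hwY.2.1, fun I hI k => ?_⟩
    have h3 := G.side_lt I hI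
    have h4 := G.side_nonneg I hI
    have h5 := G.side_le I hI
    have him : 0 < w.im := hwY.1
    obtain ⟨hw1, hw2⟩ := hw
    have hout : w.re ≤ I.1 + k * G.lam ∨ I.2 + k * G.lam ≤ w.re := by
      rcases lt_trichotomy k 0 with hk | hk | hk
      · right
        have : (k : ℝ) ≤ -1 := by exact_mod_cast Int.le_sub_one_of_lt hk
        nlinarith
      · subst hk
        push_cast
        rcases hgap I hI with h | h
        · right
          linarith
        · left
          linarith
      · left
        have : (1 : ℝ) ≤ k := by exact_mod_cast hk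
        nlinarith
    rw [Region.normSq_sub_real]
    unfold cen rad
    have him2 : 0 < w.im ^ 2 := by positivity
    rcases hout with h | h
    · nlinarith
    · nlinarith
  · obtain ⟨H, hH⟩ := G.high
    refine ⟨((x1 + x2) / 2 : ℝ) + (H + 1 : ℝ) * Complex.I, hH _ (by simp), _, ?_, rfl⟩
    constructor
    · simp
      linarith
    · simp
      linarith
  · refine ⟨G.E (((x1 + x2) / 2 : ℝ) - Complex.I), ⟨_, ?_, rfl⟩, ?_⟩
    · constructor
      · simp
        linarith
      · simp
        linarith
    · have hnorm : ∀ z : ℂ, ‖G.E z‖ = Real.exp (-(2 * Real.pi / G.lam) * z.im) := by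
        intro z
        unfold Region.E
        rw [Complex.norm_exp]
        congr 1
        have : (2 * Real.pi * Complex.I * z / G.lam : ℂ) =
            ((2 * Real.pi / G.lam : ℝ) : ℂ) * (Complex.I * z) := by
          push_cast
          ring
        rw [this, Complex.re_ofReal_mul]
        simp
      have hpos : 0 < 2 * Real.pi / G.lam := by
        have := Real.pi_pos
        positivity
      have hsub : closure (G.E '' G.D) ⊆ {q : ℂ | ‖q‖ ≤ 1} := by
        apply closure_minimal
        · rintro _ ⟨z, hz, rfl⟩
          rw [mem_ofPred_eq, hnorm]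
          rw [← Real.exp_zero]
          apply Real.exp_le_exp.2
          have : 0 < z.im := hz.1
          nlinarith
        · exact isClosed_le continuous_norm continuous_const
      intro hcl
      have h3 := hsub hcl
      rw [mem_ofPred_eq, hnorm] at h3
      have h4 : (((x1 + x2) / 2 : ℝ) - Complex.I : ℂ).im = -1 := by simp
      rw [h4] at h3
      have h5 : (1 : ℝ) < Real.exp (-(2 * Real.pi / G.lam) * -1) := by
        rw [Real.one_lt_exp_iff]
        linarith
      linarith

theorem FluteData.isRiemannSurface {l t : ℕ → ℝ} (F : FluteData l t) :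
    IsRiemannSurface F.region.X :=
  ⟨inferInstance, F.region.connectedSpace F.region_side_point, inferInstance⟩

theorem FluteData.isRiemannSurface_full {l t : ℕ → ℝ} (F : FluteData l t) :
    IsRiemannSurface F.fullRegion.X :=
  ⟨inferInstance, F.fullRegion.connectedSpace F.fullRegion_side_point, inferInstance⟩

theorem FluteData.not_parabolic {l t : ℕ → ℝ} (hl : ∀ n, 0 < l n)
    (h : ∃ c : ℝ, 0 < c ∧ ∀ᶠ n in atTop, l n + c ≤ l (n + 1)) (F : FluteData l t) :
    ¬ Parabolic F.region.X ∧ ¬ Parabolic F.fullRegion.X := by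
  obtain ⟨c, hc, hev⟩ := h
  obtain ⟨N, hN⟩ := eventually_atTop.1 hev
  obtain ⟨x1, x2, h12, h0, h2, hgap⟩ := F.exists_gap hl hc hN
  exact ⟨not_parabolic_of_gap F.region h12 hgap h0 h2,
    not_parabolic_of_gap F.fullRegion h12 hgap h0 h2⟩

end Pool.Agent.MP_b90f02
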