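import Pool.Agent.MP_b90f02_an.Green3

set_option autoImplicit false

open UpperHalfPlane Topology InnerProductSpace Filter
open scoped MatrixGroups ComplexConjugate

namespace Pool.Agent.MP_b90f02_an

/-- a harmonic function with a local minimum is locally constant -/
theorem harm_const (f : ℂ → ℝ) (x₀ : ℂ) (hf : HarmonicAt f x₀) (hmin : IsLocalMin f x₀) :
    ∀ᶠ x in 𝓝 x₀, f x = f x₀ := by
  obtain ⟨ε, hε, hball⟩ := Metric.eventually_nhds_iff_ball.mp hf.eventually
  obtain ⟨F, hF, hre⟩ := HarmonicOnNhd.exists_analyticOnNhd_ball_re_eq (f := f) (z := x₀)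
    (R := ε) (fun y hy => hball y hy)
  have hb : Metric.ball x₀ ε ∈ 𝓝 x₀ := Metric.ball_mem_nhds _ hε
  have h1 : ∀ᶠ x in 𝓝 x₀, Complex.exp (-F x) = Complex.exp (-F x₀) := by
    apply Complex.eventually_eq_of_isLocalMax_norm
    · filter_upwards [hb] with x hx
      exact ((hF x hx).differentiableAt.neg).cexp
    · filter_upwards [hmin, hb] with x hx hx'
      change ‖Complex.exp (-F x)‖ ≤ ‖Complex.exp (-F x₀)‖
      rw [Complex.norm_exp, Complex.norm_exp, Complex.neg_re, Complex.neg_re]
      have e1 := hre hx'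
      have e2 := hre (Metric.mem_ball_self hε)
      change (F x).re = f x at e1
      change (F x₀).re = f x₀ at e2
      rw [e1, e2]
      exact Real.exp_le_exp.mpr (by linarith)
  filter_upwards [h1, hb] with x hx hx'
  have e1 := hre hx'
  have e2 := hre (Metric.mem_ball_self hε)
  change (F x).re = f x at e1
  change (F x₀).re = f x₀ at e2
  have h2 := congrArg norm hx
  rw [Complex.norm_exp, Complex.norm_exp, Complex.neg_re, Complex.neg_re, Real.exp_eq_exp] at h2
  linarith

theorem gh_cont (u z₀ : ℍ) (h : z₀ ≠ u) : ContinuousAt (fun z => gh z u) z₀ := by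
  unfold gh
  have hd : 0 < dist z₀ u := dist_pos.mpr h
  have h1 : 0 < Real.tanh (dist z₀ u / 2) := by
    rw [Real.tanh_eq_sinh_div_cosh]
    exact div_pos (Real.sinh_pos_iff.mpr (by positivity)) (Real.cosh_pos _)
  have hc : Continuous Real.tanh := by
    have : Real.tanh = fun x => Real.sinh x / Real.cosh x := by
      funext x; exact Real.tanh_eq_sinh_div_cosh x
    rw [this]
    exact Real.continuous_sinh.div Real.continuous_cosh (fun x => (Real.cosh_pos x).ne')
  have h2 : ContinuousAt (fun z : ℍ => Real.tanh (dist z u / 2)) z₀ := by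
    apply Continuous.continuousAt
    exact hc.comp ((continuous_id.dist continuous_const).div_const 2)
  exact (h2.log h1.ne').neg

theorem gh_atTop (u : ℍ) : Tendsto (fun z => gh z u) (𝓝[≠] u) atTop := by
  have hc : Continuous Real.tanh := by
    have : Real.tanh = fun x => Real.sinh x / Real.cosh x := by
      funext x; exact Real.tanh_eq_sinh_div_cosh x
    rw [this]
    exact Real.continuous_sinh.div Real.continuous_cosh (fun x => (Real.cosh_pos x).ne')
  have h1 : Tendsto (fun z : ℍ => Real.tanh (dist z u / 2)) (𝓝[≠] u) (𝓝[>] 0) := by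
    apply tendsto_nhdsWithin_of_tendsto_nhds_of_eventually_within
    · have h2 : ContinuousAt (fun z : ℍ => Real.tanh (dist z u / 2)) u :=
        (hc.comp ((continuous_id.dist continuous_const).div_const 2)).continuousAt
      have h3 := h2.tendsto
      rw [dist_self, zero_div, Real.tanh_zero] at h3
      exact h3.mono_left nhdsWithin_le_nhds
    · filter_upwards [self_mem_nhdsWithin] with z hz
      have hd : 0 < dist z u := dist_pos.mpr hz
      rw [Set.mem_Ioi, Real.tanh_eq_sinh_div_cosh]
      exact div_pos (Real.sinh_pos_iff.mpr (by positivity)) (Real.cosh_pos _)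
  exact tendsto_neg_atBot_atTop.comp (Real.tendsto_log_nhdsGT_zero.comp h1)

theorem gh_big (z u : ℍ) (η : ℝ) (hη : 0 < η) (h : η ≤ gh z u) :
    dist z u ≤ 2 * Real.artanh (Real.exp (-η)) := by
  by_cases hzu : z = u
  · rw [hzu, dist_self]
    have := Real.artanh_nonneg (Real.exp_pos (-η)).le
    linarith
  · have hd : 0 < dist z u := dist_pos.mpr hzu
    have h1 : 0 < Real.tanh (dist z u / 2) := by
      rw [Real.tanh_eq_sinh_div_cosh]
      exact div_pos (Real.sinh_pos_iff.mpr (by positivity)) (Real.cosh_pos _)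
    unfold gh at h
    have h2 : Real.tanh (dist z u / 2) ≤ Real.exp (-η) := by
      rw [← Real.log_le_iff_le_exp h1]
      linarith
    have h3 : Real.exp (-η) < 1 := by
      rw [← Real.exp_zero]; exact Real.exp_lt_exp.mpr (by linarith)
    have h4 := Real.artanh_le_artanh (Real.neg_one_lt_tanh _) h3 h2
    rw [Real.artanh_tanh] at h4
    linarith

/-- finite sums of Green's functions are small outside a compact set -/
theorem compact_big (s : Finset ℍ) (η : ℝ) (hη : 0 < η) :
    ∃ K : Set ℍ, IsCompact K ∧ ∀ z, η ≤ ∑ u ∈ s, gh z u → z ∈ K := by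
  set η' := η / (s.card + 1) with hη'
  have hη0 : 0 < η' := by positivity
  refine ⟨⋃ u ∈ s, Metric.closedBall u (2 * Real.artanh (Real.exp (-η'))), ?_, ?_⟩
  · exact s.isCompact_biUnion fun u _ => isCompact_closedBall _ _
  · intro z hz
    by_contra hlt
    have h1 : ∀ u ∈ s, gh z u ≤ η' := by
      intro u hu
      by_contra h2
      push Not at h2
      apply hlt
      rw [Set.mem_iUnion₂]
      exact ⟨u, hu, Metric.mem_closedBall.mpr (gh_big z u η' hη0 h2.le)⟩
    have h2 := Finset.sum_le_card_nsmul s _ _ h1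
    rw [nsmul_eq_mul] at h2
    have h3 : (s.card : ℝ) * η' < η := by
      rw [hη', mul_div_assoc', div_lt_iff₀ (by positivity)]
      nlinarith
    linarith

end Pool.Agent.MP_b90f02_an
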