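import Pool.Agent.MP_b90f02_an.Regions
import Pool.Agent.MP_b90f02_an.Defs

set_option autoImplicit false

open Matrix UpperHalfPlane
open scoped MatrixGroups

namespace Pool.Agent.MP_b90f02_an

/-- the reflection `z ↦ exp (2 s) / conj z` -/
noncomputable def rf (s : ℝ) : GL (Fin 2) ℝ :=
  Matrix.GeneralLinearGroup.mkOfDetNeZero !![0, Real.exp s; Real.exp (-s), 0] (by
    rw [Matrix.det_fin_two_of, zero_mul, zero_sub, ← Real.exp_add]; simp)

theorem rf_val (s : ℝ) : (rf s).val = !![0, Real.exp s; Real.exp (-s), 0] := rfl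

theorem trans_val (s : ℝ) : ((trans s : SL(2, ℝ)) : GL (Fin 2) ℝ).val =
    !![Real.exp (s / 2), 0; 0, Real.exp (-(s / 2))] := rfl

theorem cross_val (s : ℝ) : ((cross s : SL(2, ℝ)) : GL (Fin 2) ℝ).val =
    !![Real.cosh (s / 2), Real.sinh (s / 2); Real.sinh (s / 2), Real.cosh (s / 2)] := rfl

theorem trans_add (s s' : ℝ) : trans (s + s') = trans s * trans s' := by
  apply Subtype.ext
  change _ = (trans s).val * (trans s').val
  simp only [trans]
  rw [Matrix.mul_fin_two]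
  ext i j
  fin_cases i <;> fin_cases j <;> simp [← Real.exp_add] <;> ring

theorem trans_zero : trans 0 = 1 := by
  apply Subtype.ext
  simp [trans, Matrix.one_fin_two]

theorem trans_neg (s : ℝ) : trans (-s) = (trans s)⁻¹ := by
  rw [eq_inv_iff_mul_eq_one, ← trans_add, neg_add_cancel, trans_zero]

theorem rf_mul_rf (s s' : ℝ) : rf s * rf s' = ((trans (2 * (s - s')) : SL(2, ℝ)) : GL (Fin 2) ℝ) := by
  apply Units.ext
  rw [Units.val_mul, rf_val, rf_val, trans_val, Matrix.mul_fin_two]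
  ext i j
  fin_cases i <;> fin_cases j <;> simp [← Real.exp_add] <;> ring

theorem rf_sq (s : ℝ) : rf s * rf s = 1 := by
  rw [rf_mul_rf, sub_self, mul_zero, trans_zero]; simp

theorem rf_inv (s : ℝ) : (rf s)⁻¹ = rf s := by
  rw [inv_eq_iff_mul_eq_one, rf_sq]

theorem trans_mul_rf (u s : ℝ) :
    ((trans u : SL(2, ℝ)) : GL (Fin 2) ℝ) * rf s = rf (s + u / 2) := by
  apply Units.ext
  rw [Units.val_mul, rf_val, rf_val, trans_val, Matrix.mul_fin_two]
  ext i j
  fin_cases i <;> fin_cases j <;> simp [← Real.exp_add] <;> ring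

theorem rf_mul_trans (u s : ℝ) :
    rf s * ((trans u : SL(2, ℝ)) : GL (Fin 2) ℝ) = rf (s - u / 2) := by
  apply Units.ext
  rw [Units.val_mul, rf_val, rf_val, trans_val, Matrix.mul_fin_two]
  ext i j
  fin_cases i <;> fin_cases j <;> simp [← Real.exp_add] <;> ring

theorem cross_comm_rf (s : ℝ) :
    ((cross s : SL(2, ℝ)) : GL (Fin 2) ℝ) * rf 0 = rf 0 * ((cross s : SL(2, ℝ)) : GL (Fin 2) ℝ) := by
  apply Units.ext
  rw [Units.val_mul, Units.val_mul, rf_val, cross_val, Matrix.mul_fin_two, Matrix.mul_fin_two]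
  simp

theorem cross_neg (s : ℝ) : cross (-s) = (cross s)⁻¹ := by
  rw [eq_inv_iff_mul_eq_one]
  apply Subtype.ext
  change (cross (-s)).val * (cross s).val = _
  simp only [cross]
  rw [Matrix.mul_fin_two]
  have h := Real.cosh_sq_sub_sinh_sq (s / 2)
  rw [neg_div, Real.cosh_neg, Real.sinh_neg]
  change _ = (1 : Matrix (Fin 2) (Fin 2) ℝ)
  ext i j
  fin_cases i <;> fin_cases j <;> simp <;> nlinarith

/-- `|z|^2` -/
noncomputable def nrm (z : ℍ) : ℝ := z.re ^ 2 + z.im ^ 2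

theorem nrm_pos (z : ℍ) : 0 < nrm z := by
  have := z.im_pos; unfold nrm; positivity

theorem nrm_rf (s : ℝ) (z : ℍ) : nrm (rf s • z) = Real.exp s ^ 4 / nrm z := by
  unfold nrm
  rw [normSq_smul, normSq_num, normSq_denom]
  have h : (rf s : Matrix (Fin 2) (Fin 2) ℝ) = !![0, Real.exp s; Real.exp (-s), 0] := rfl
  have h00 : (rf s) 0 0 = 0 := by rw [h]; rfl
  have h01 : (rf s) 0 1 = Real.exp s := by rw [h]; rfl
  have h10 : (rf s) 1 0 = Real.exp (-s) := by rw [h]; rfl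
  have h11 : (rf s) 1 1 = 0 := by rw [h]; rfl
  rw [h00, h01, h10, h11, Real.exp_neg]
  have he := Real.exp_pos s
  have hz := nrm_pos z
  unfold nrm at hz
  have : (((Real.exp s)⁻¹ * z.re + 0) ^ 2 + ((Real.exp s)⁻¹ * z.im) ^ 2) =
    (z.re ^ 2 + z.im ^ 2) / Real.exp s ^ 2 := by field_simp; ring
  rw [this]
  field_simp
  ring

theorem re_rf (s : ℝ) (z : ℍ) : (rf s • z).re = Real.exp s ^ 2 * z.re / nrm z := by
  rw [re_smul', normSq_denom]
  have h : (rf s : Matrix (Fin 2) (Fin 2) ℝ) = !![0, Real.exp s; Real.exp (-s), 0] := rfl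
  have h00 : (rf s) 0 0 = 0 := by rw [h]; rfl
  have h01 : (rf s) 0 1 = Real.exp s := by rw [h]; rfl
  have h10 : (rf s) 1 0 = Real.exp (-s) := by rw [h]; rfl
  have h11 : (rf s) 1 1 = 0 := by rw [h]; rfl
  rw [h00, h01, h10, h11, Real.exp_neg]
  have he := Real.exp_pos s
  have hz := nrm_pos z
  unfold nrm at *
  have : (((Real.exp s)⁻¹ * z.re + 0) ^ 2 + ((Real.exp s)⁻¹ * z.im) ^ 2) =
    (z.re ^ 2 + z.im ^ 2) / Real.exp s ^ 2 := by field_simp; ring
  rw [this]
  field_simp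
  ring

theorem nrm_trans (s : ℝ) (z : ℍ) :
    nrm (((trans s : SL(2, ℝ)) : GL (Fin 2) ℝ) • z) = Real.exp s ^ 2 * nrm z := by
  unfold nrm
  rw [normSq_smul, normSq_num, normSq_denom]
  have h00 : (((trans s : SL(2, ℝ)) : GL (Fin 2) ℝ)) 0 0 = Real.exp (s / 2) := by
    rw [trans_val]; rfl
  have h01 : (((trans s : SL(2, ℝ)) : GL (Fin 2) ℝ)) 0 1 = 0 := by
    rw [trans_val]; rfl
  have h10 : (((trans s : SL(2, ℝ)) : GL (Fin 2) ℝ)) 1 0 = 0 := by
    rw [trans_val]; rfl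
  have h11 : (((trans s : SL(2, ℝ)) : GL (Fin 2) ℝ)) 1 1 = Real.exp (-(s / 2)) := by
    rw [trans_val]; rfl
  rw [h00, h01, h10, h11, Real.exp_neg]
  have he := Real.exp_pos (s / 2)
  have h2 : Real.exp s = Real.exp (s / 2) ^ 2 := by rw [← Real.exp_nat_mul]; ring_nf
  rw [h2]
  field_simp
  ring

theorem re_trans (s : ℝ) (z : ℍ) :
    (((trans s : SL(2, ℝ)) : GL (Fin 2) ℝ) • z).re = Real.exp s * z.re := by
  rw [re_smul', normSq_denom]
  have h00 : (((trans s : SL(2, ℝ)) : GL (Fin 2) ℝ)) 0 0 = Real.exp (s / 2) := by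
    rw [trans_val]; rfl
  have h01 : (((trans s : SL(2, ℝ)) : GL (Fin 2) ℝ)) 0 1 = 0 := by
    rw [trans_val]; rfl
  have h10 : (((trans s : SL(2, ℝ)) : GL (Fin 2) ℝ)) 1 0 = 0 := by
    rw [trans_val]; rfl
  have h11 : (((trans s : SL(2, ℝ)) : GL (Fin 2) ℝ)) 1 1 = Real.exp (-(s / 2)) := by
    rw [trans_val]; rfl
  rw [h00, h01, h10, h11, Real.exp_neg]
  have he := Real.exp_pos (s / 2)
  have h2 : Real.exp s = Real.exp (s / 2) ^ 2 := by rw [← Real.exp_nat_mul]; ring_nf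
  rw [h2]
  field_simp
  ring

/-- the reflection `rf s` maps half-discs to half-discs -/
theorem rf_HD (s p q : ℝ) (hp : 0 < p) (hq : 0 < q) (z : ℍ) (hz : z ∈ HD p q) :
    rf s • z ∈ HD (Real.exp s ^ 2 / q) (Real.exp s ^ 2 / p) := by
  have h00 : (rf s) 0 0 = 0 := rfl
  have h01 : (rf s) 0 1 = Real.exp s := rfl
  have h10 : (rf s) 1 0 = Real.exp (-s) := rfl
  have h11 : (rf s) 1 1 = 0 := rfl
  have he := Real.exp_pos s
  have he' := Real.exp_pos (-s)
  have h := N_smul (rf s) q p z (by rw [h10, h11]; positivity) (by rw [h10, h11]; positivity)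
  have hn := normSq_denom_pos (rf s) z.im_ne_zero
  rw [h00, h01, h10, h11, zero_mul, zero_mul, zero_add, add_zero, add_zero] at h
  have e1 : Real.exp s / (Real.exp (-s) * q) = Real.exp s ^ 2 / q := by
    rw [Real.exp_neg]; field_simp
  have e2 : Real.exp s / (Real.exp (-s) * p) = Real.exp s ^ 2 / p := by
    rw [Real.exp_neg]; field_simp
  rw [e1, e2] at h
  rw [mem_HD] at *
  have h1 : N q p z ≤ 0 := by unfold N at *; linarith
  have h2 : ((rf s).det : ℝ) ^ 2 * N q p z ≤ 0 := mul_nonpos_of_nonneg_of_nonpos (sq_nonneg _) h1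
  rw [← h] at h2
  have h3 : 0 < Complex.normSq (denom (rf s) z) * (Real.exp (-s) * q * (Real.exp (-s) * p)) := by
    positivity
  exact nonpos_of_mul_nonpos_left h2 h3

end Pool.Agent.MP_b90f02_an
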