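import Pool.Agent.MP_b90f02_an.Topo

set_option autoImplicit false

/-!
# Parabolic Riemann surfaces

A Riemann surface belongs to the class `O_G` (it carries no Green's function) if and only if every
superharmonic function on it which is bounded below is constant; by truncation it is enough to look
at continuous superharmonic functions.  We use this as the definition.
-/

open Complex Set Topology Filter
open scoped Manifold ContDiff ComplexConjugate

namespace Pool.Agent.MP_b90f02

/-- A Riemann surface: a connected Hausdorff space with a holomorphic atlas. -/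
structure IsRiemannSurface (X : Type*) [TopologicalSpace X] [ChartedSpace ℂ X] : Prop where
  t2 : T2Space X
  connected : ConnectedSpace X
  holomorphic : IsManifold 𝓘(ℂ) ω X

/-- A continuous function on a Riemann surface is superharmonic if in every chart of the atlas and
at every point its average over small circles is at most its value at the centre. -/
def IsSuperharmonic {X : Type*} [TopologicalSpace X] [ChartedSpace ℂ X] (u : X → ℝ) : Prop :=
  Continuous u ∧ ∀ e ∈ atlas ℂ X, ∀ x ∈ e.source, ∃ r0 : ℝ, 0 < r0 ∧ ∀ r : ℝ, 0 < r → r < r0 →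
    Real.circleAverage (fun w => u (e.symm w)) (e x) r ≤ u x

/-- A (noncompact) Riemann surface is parabolic, that is, it belongs to the class `O_G`, if every
superharmonic function on it which is bounded below is constant. -/
def Parabolic (X : Type*) [TopologicalSpace X] [ChartedSpace ℂ X] : Prop :=
  ∀ u : X → ℝ, IsSuperharmonic u → (∃ m : ℝ, ∀ x, m ≤ u x) → ∃ c : ℝ, ∀ x, u x = c

/-- local super-mean value property in the plane -/
def LocSup (f : ℂ → ℝ) (w : ℂ) : Prop :=
  ContinuousAt f w ∧ ∃ r0 : ℝ, 0 < r0 ∧ ∀ r : ℝ, 0 < r → r < r0 → Real.circleAverage f w r ≤ f w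

lemma locSup_congr {f g : ℂ → ℝ} {w : ℂ} (h : f =ᶠ[𝓝 w] g) (hg : LocSup g w) : LocSup f w := by
  obtain ⟨hc, r0, hr0, hr⟩ := hg
  refine ⟨hc.congr h.symm, ?_⟩
  obtain ⟨ε, hε, hball⟩ := Metric.eventually_nhds_iff_ball.1 h
  refine ⟨min r0 ε, lt_min hr0 hε, fun r h1 h2 => ?_⟩
  have h3 : Real.circleAverage f w r = Real.circleAverage g w r := by
    apply Real.circleAverage_congr_sphere
    intro v hv
    apply hball
    rw [mem_sphere_iff_norm, abs_of_pos h1] at hv
    rw [mem_ball_iff_norm, hv]
    exact lt_of_lt_of_le h2 (min_le_right _ _)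
  rw [h3, h.self_of_nhds]
  exact hr r h1 (lt_of_lt_of_le h2 (min_le_left _ _))

lemma locSup_const (c : ℝ) (w : ℂ) : LocSup (fun _ => c) w := by
  refine ⟨continuousAt_const, 1, one_pos, fun r _ _ => ?_⟩
  rw [Real.circleAverage_const]

lemma locSup_min {h : ℂ → ℂ} {w : ℂ} (ha : AnalyticAt ℂ h w) (h0 : h w ≠ 0) (c : ℝ) :
    LocSup (fun v => min (Real.log ‖h v‖) c) w := by
  have hh := ha.harmonicAt_log_norm h0
  obtain ⟨ε, hε, hball⟩ := Metric.eventually_nhds_iff_ball.1 hh.eventually
  refine ⟨hh.1.continuousAt.min continuousAt_const, ε, hε, fun r h1 h2 => ?_⟩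
  have hcl : InnerProductSpace.HarmonicOnNhd (fun v => Real.log ‖h v‖)
      (Metric.closedBall w |r|) := by
    intro v hv
    apply hball
    rw [Metric.mem_closedBall, abs_of_pos h1] at hv
    exact lt_of_le_of_lt hv h2
  have havg := hcl.circleAverage_eq
  have hcont : ContinuousOn (fun v => Real.log ‖h v‖) (Metric.sphere w |r|) :=
    hcl.continuousOn.mono Metric.sphere_subset_closedBall
  have hi1 : CircleIntegrable (fun v => Real.log ‖h v‖) w r := hcont.circleIntegrable'
  have hi2 : CircleIntegrable (fun v => min (Real.log ‖h v‖) c) w r :=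
    (hcont.inf continuousOn_const).circleIntegrable'
  refine le_min ?_ ?_
  · rw [← havg]
    exact Real.circleAverage_mono hi2 hi1 (fun v _ => min_le_left _ _)
  · exact Real.circleAverage_mono_on_of_le_circle hi2 (fun v _ => min_le_right _ _)

namespace Region

variable (G : Region)

lemma isSuperharmonic_of_charts {u : G.X → ℝ}
    (h : ∀ e ∈ G.charts, ∀ w ∈ e.target, LocSup (fun v => u (e.symm v)) w) :
    IsSuperharmonic u := by
  refine ⟨G.continuous_of_charts fun e he w hw => (h e he w hw).1, ?_⟩
  intro e he x hx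
  obtain ⟨e0, h0, rfl⟩ := G.mem_atlas_iff.1 he
  have hx' : x ∈ e0.source := hx
  obtain ⟨-, r0, hr0, hr⟩ := h e0 h0 (e0 x) (e0.map_source hx')
  refine ⟨r0, hr0, fun r h1 h2 => ?_⟩
  have h3 := hr r h1 h2
  have h4 : u (e0.symm (e0 x)) = u x := by rw [e0.left_inv hx']
  exact h3.trans h4.le

open Classical in
/-- The superharmonic function used to show that a double is not parabolic. -/
noncomputable def testFun (a : ℂ) (δ : ℝ) (x : G.X) : ℝ :=
  if x.isFront = true then min (Real.log ‖x.q - a‖) (Real.log δ) else Real.log δ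

/-- The double is not parabolic if there is a connected open set `W` in the plane which meets the
image of the front part, is not contained in its closure and does not touch the sides. -/
theorem not_parabolic {W : Set ℂ} (hW : IsOpen W) (hc : IsPreconnected W)
    (h1 : ∀ z ∈ G.Y, G.E z ∈ W → z ∈ G.D) (h2 : ∃ z ∈ G.D, G.E z ∈ W)
    (h3 : ∃ w ∈ W, w ∉ closure (G.E '' G.D)) : ¬ Parabolic G.X := by
  set Q := G.E '' G.D with hQ
  have hQo : IsOpen Q := G.isOpen_Q
  -- a boundary point of the closure in W
  have hb : ∃ b ∈ W, b ∈ closure Q ∧ b ∈ closure (closure Q)ᶜ := by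
    by_contra hcon
    push Not at hcon
    obtain ⟨w, hwW, hw⟩ := h3
    obtain ⟨z, hz, hzW⟩ := h2
    have h4 : IsOpen (closure (closure Q)ᶜ)ᶜ := isClosed_closure.isOpen_compl
    have h5 : IsOpen (closure Q)ᶜ := isClosed_closure.isOpen_compl
    have h6 : W ⊆ (closure (closure Q)ᶜ)ᶜ ∪ (closure Q)ᶜ := by
      intro b hbW
      by_cases hb : b ∈ closure Q
      · exact Or.inl (hcon b hbW hb)
      · exact Or.inr hb
    have h7 := hc _ _ h4 h5 h6
      ⟨G.E z, hzW, hcon _ hzW (subset_closure ⟨z, hz, rfl⟩)⟩ ⟨w, hwW, hw⟩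
    obtain ⟨v, _, hv1, hv2⟩ := h7
    exact hv1 (subset_closure hv2)
  obtain ⟨b, hbW, hb1, hb2⟩ := hb
  obtain ⟨ε, hε, hball⟩ := Metric.isOpen_iff.1 hW b hbW
  obtain ⟨a, ha, hab⟩ := Metric.mem_closure_iff.1 hb2 (ε / 3) (by positivity)
  set δ := ε / 3 with hδ
  have hδ0 : 0 < δ := by positivity
  have haQ : a ∉ closure Q := ha
  have hballW : ∀ v, ‖v - a‖ < 2 * δ → v ∈ W := by
    intro v hv
    apply hball
    rw [Metric.mem_ball]
    have h4 : dist v b ≤ dist v a + dist a b := dist_triangle _ _ _
    rw [dist_eq_norm v a, dist_comm a b] at h4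
    linarith
  obtain ⟨q1, hq1, hq1a⟩ : ∃ q1 ∈ Q, ‖q1 - a‖ < δ := by
    have h4 : Metric.ball a δ ∈ 𝓝 b := Metric.isOpen_ball.mem_nhds hab
    obtain ⟨q1, hq1, hq1'⟩ := mem_closure_iff_nhds.1 hb1 _ h4
    refine ⟨q1, hq1', ?_⟩
    rwa [Metric.mem_ball, dist_eq_norm] at hq1
  obtain ⟨η, hη, hηQ⟩ : ∃ η > 0, ∀ q ∈ Q, η ≤ ‖q - a‖ := by
    obtain ⟨η, hη, hη'⟩ := Metric.isOpen_iff.1 isClosed_closure.isOpen_compl a haQ
    refine ⟨η, hη, fun q hq => ?_⟩
    by_contra hcon
    push Not at hcon
    have : q ∈ Metric.ball a η := by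
      rwa [Metric.mem_ball, dist_eq_norm]
    exact hη' this (subset_closure hq)
  -- points on sides are far from a
  have hfar : ∀ z ∈ G.Y, z ∉ G.D → 2 * δ ≤ ‖G.E z - a‖ := by
    intro z hz hzD
    by_contra hcon
    push Not at hcon
    exact hzD (h1 z hz (hballW _ hcon))
  have hne : ∀ z ∈ G.D, G.E z - a ≠ 0 := by
    intro z hz h0
    have := hηQ _ ⟨z, hz, rfl⟩
    rw [h0, norm_zero] at this
    linarith
  set u := G.testFun a δ with hu
  have hanE : ∀ w, AnalyticAt ℂ (fun v => G.E v - a) w := fun w =>
    (G.differentiable_E.sub_const a).analyticAt w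
  have husup : IsSuperharmonic u := by
    apply G.isSuperharmonic_of_charts
    rintro e (rfl | rfl | ⟨J, hJ, rfl⟩) w hw
    · obtain ⟨z, hz, hzw⟩ := hw
      have hne' : w - a ≠ 0 := by
        rw [← hzw]
        exact hne z hz
      refine locSup_congr ?_ (locSup_min (h := fun v => v - a) (w := w) ?_ hne' (Real.log δ))
      · have hw' : w ∈ G.front.target := ⟨z, hz, hzw⟩
        filter_upwards [(G.isOpen_target G.front_mem).mem_nhds hw'] with v hv
        have h4 := G.front.map_target hv
        have h5 : (G.front.symm v).q = v := G.front.right_inv hv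
        rw [hu]
        unfold testFun
        rw [if_pos h4.1, h5]
      · fun_prop
    · refine locSup_congr ?_ (locSup_const (Real.log δ) w)
      filter_upwards [(G.isOpen_target G.back_mem).mem_nhds hw] with v hv
      have h4 : (G.back.symm v).isFront = false := G.back.map_target hv
      rw [hu]
      unfold testFun
      rw [h4, if_neg (by simp)]
    · have hopen := G.isOpen_target (G.side_mem hJ)
      have hn := continuous_normSq_sub (cen J)
      have hval : ∀ v ∈ (G.sideChart J hJ).target, rad J ^ 2 ≤ normSq (v - cen J) →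
          u ((G.sideChart J hJ).symm v) = min (Real.log ‖G.E v - a‖) (Real.log δ) := by
        intro v hv h4
        rw [hu]
        unfold testFun
        rw [if_pos ((G.side_symm_front hJ hv).2 h4), G.side_symm_q hJ hv]
        unfold fold
        rw [if_pos h4]
      have hval' : ∀ v ∈ (G.sideChart J hJ).target, normSq (v - cen J) < rad J ^ 2 →
          u ((G.sideChart J hJ).symm v) = Real.log δ := by
        intro v hv h4
        rw [hu]
        unfold testFun
        rw [if_neg]
        intro h5
        exact absurd ((G.side_symm_front hJ hv).1 h5) (not_le.2 h4)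
      rcases lt_trichotomy (normSq (w - cen J)) (rad J ^ 2) with h | h | h
      · refine locSup_congr ?_ (locSup_const (Real.log δ) w)
        filter_upwards [hopen.mem_nhds hw, (isOpen_lt hn continuous_const).mem_nhds h] with v hv hv'
        exact hval' v hv hv'
      · -- a point on the side
        obtain ⟨a1, a2, a3⟩ := id hw
        have hwY : w ∈ G.Y := (G.mem_Y_iff hJ (a2 h.ge).2).2 ⟨a1, (a2 h.ge).1, h.ge⟩
        have hwD : w ∉ G.D := fun h' => by
          have := ((G.mem_D_iff hJ (a2 h.ge).2).1 h').2.2
          linarith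
        have h4 := hfar w hwY hwD
        have h5 : ∀ᶠ v in 𝓝 w, δ < ‖G.E v - a‖ := by
          have h6 : Continuous (fun v => ‖G.E v - a‖) :=
            (G.continuous_E.sub continuous_const).norm
          exact (isOpen_lt continuous_const h6).mem_nhds (by
            change δ < ‖G.E w - a‖
            linarith)
        refine locSup_congr ?_ (locSup_const (Real.log δ) w)
        filter_upwards [hopen.mem_nhds hw, h5] with v hv hv'
        by_cases h6 : rad J ^ 2 ≤ normSq (v - cen J)
        · rw [hval v hv h6]
          exact min_eq_right (Real.log_le_log hδ0 hv'.le)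
        · push Not at h6
          exact hval' v hv h6
      · obtain ⟨a1, a2, a3⟩ := id hw
        have hwD : w ∈ G.D := (G.mem_D_iff hJ (a2 h.le).2).2 ⟨a1, (a2 h.le).1, h⟩
        refine locSup_congr ?_ (locSup_min (hanE w) (hne w hwD) (Real.log δ))
        filter_upwards [hopen.mem_nhds hw, (isOpen_lt continuous_const hn).mem_nhds h] with v hv hv'
        exact hval v hv (le_of_lt hv')
  have hubdd : ∃ m : ℝ, ∀ x, m ≤ u x := by
    refine ⟨min (Real.log η) (Real.log δ), fun x => ?_⟩
    rw [hu]
    unfold testFun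
    cases hx : x.isFront with
    | false =>
      rw [if_neg (by simp)]
      exact min_le_right _ _
    | true =>
      rw [if_pos rfl]
      refine le_min ?_ (min_le_right _ _)
      obtain ⟨z, hz, hzq⟩ := x.mem_Y
      by_cases hzD : z ∈ G.D
      · refine (min_le_left _ _).trans (Real.log_le_log hη ?_)
        rw [← hzq]
        exact hηQ _ ⟨z, hzD, rfl⟩
      · refine (min_le_right _ _).trans (Real.log_le_log hδ0 ?_)
        rw [← hzq]
        have := hfar z hz hzD
        linarith
  intro hpar
  obtain ⟨c, hcst⟩ := hpar u husup hubdd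
  obtain ⟨z, hz, hzq⟩ := hq1
  have hv1 := G.valid_true (G.D_subset_Y hz)
  have hv2 := G.valid_false hz
  have e1 := hcst (G.pt (G.E z) true)
  have e2 := hcst (G.pt (G.E z) false)
  rw [hu] at e1 e2
  unfold testFun at e1 e2
  rw [G.pt_isFront hv1, if_pos rfl, G.pt_q hv1] at e1
  rw [G.pt_isFront hv2, if_neg (by simp)] at e2
  have h8 : Real.log ‖G.E z - a‖ < Real.log δ := by
    apply Real.log_lt_log
    · exact norm_pos_iff.2 (hne z hz)
    · rw [hzq]
      exact hq1a
  have h9 := min_le_left (Real.log ‖G.E z - a‖) (Real.log δ)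
  linarith

end Region

end Pool.Agent.MP_b90f02
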