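import Mathlib

set_option autoImplicit false

/-!
# The double of a hyperbolic polygon in a parabolic cylinder

Everything takes place in the upper half-plane `{z : ℂ | 0 < z.im}`.  The geodesic with real end
points `a < b` is the half circle with centre `(a + b) / 2` and radius `(b - a) / 2`.
A `Region` consists of a translation length `lam`, a set of geodesics (the *sides*) with end points
in `[0, lam]`, and an open set `V`; it describes the set `D` of all points of `V` which lie above
all translates of the sides by integer multiples of `lam`, and the set `Y` of all points of `V`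
which lie above or on these translates.  Both are invariant under `z ↦ z + lam`.

`G.X` is the double of the surface `Y / (z ∼ z + lam)` along its geodesic boundary `Y \ D`:
two copies (front and back) of `D / (z ∼ z + lam)` and one copy of the boundary.
Its points are given by `q = exp (2 π i z / lam)` and by a Boolean which is `true` for the
front copy and for the boundary and `false` for the back copy.
It carries the complex structure for which the front copy has its complex structure as a subset of
`ℂ`, the back copy the conjugate one, and for which, near a point of a side, front and back fit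
together by the reflection in that side.
-/

open Complex Set Topology
open scoped Manifold ContDiff ComplexConjugate

namespace Pool.Agent.MP_b90f02

/-- Euclidean centre of the geodesic with end points `I.1` and `I.2`. -/
noncomputable def cen (I : ℝ × ℝ) : ℝ := (I.1 + I.2) / 2

/-- Euclidean radius of the geodesic with end points `I.1 < I.2`. -/
noncomputable def rad (I : ℝ × ℝ) : ℝ := (I.2 - I.1) / 2

/-- `z` lies strictly above all translates by `ℤ lam` of the circle with centre `c` on the real
axis and squared radius `R2`. -/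
def Above (lam c R2 : ℝ) (z : ℂ) : Prop :=
  ∀ k : ℤ, R2 < normSq (z - ((c + k * lam : ℝ) : ℂ))

/-- `z` lies above or on all translates by `ℤ lam` of the circle with centre `c` on the real
axis and squared radius `R2`. -/
def AboveEq (lam c R2 : ℝ) (z : ℂ) : Prop :=
  ∀ k : ℤ, R2 ≤ normSq (z - ((c + k * lam : ℝ) : ℂ))

/-- The points of the open upper half-plane in `V` strictly above all translates of all sides. -/
def DSet (lam : ℝ) (side : Set (ℝ × ℝ)) (V : Set ℂ) : Set ℂ :=
  {z | 0 < z.im ∧ z ∈ V ∧ ∀ I ∈ side, Above lam (cen I) (rad I ^ 2) z}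

/-- The points of the open upper half-plane in `V` above or on all translates of all sides. -/
def YSet (lam : ℝ) (side : Set (ℝ × ℝ)) (V : Set ℂ) : Set ℂ :=
  {z | 0 < z.im ∧ z ∈ V ∧ ∀ I ∈ side, AboveEq lam (cen I) (rad I ^ 2) z}

lemma isOpen_above {lam : ℝ} (hlam : 0 < lam) (c R2 : ℝ) : IsOpen {z : ℂ | Above lam c R2 z} := by
  have h1 : {z : ℂ | Above lam c R2 z} =
      (⋃ k : ℤ, {z : ℂ | normSq (z - ((c + k * lam : ℝ) : ℂ)) ≤ R2})ᶜ := by
    ext z
    simp [Above]
  rw [h1, isOpen_compl_iff]
  apply LocallyFinite.isClosed_iUnion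
  · intro x
    refine ⟨Metric.ball x 1, Metric.ball_mem_nhds x one_pos, ?_⟩
    set M : ℝ := (|x.re| + 1 + |c| + R2 + 1) / lam with hM
    apply (Set.finite_Icc (-⌈M⌉) ⌈M⌉).subset
    rintro k ⟨z, hz1, hz2⟩
    have h2 : |z.re - x.re| < 1 := by
      rw [Metric.mem_ball, dist_eq_norm] at hz2
      have := Complex.abs_re_le_norm (z - x)
      rw [sub_re] at this
      exact lt_of_le_of_lt this hz2
    have h3 : (z.re - (c + k * lam)) ^ 2 ≤ R2 := by
      rw [mem_ofPred_eq, normSq_apply] at hz1
      simp only [sub_re, ofReal_re, sub_im, ofReal_im] at hz1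
      nlinarith [sq_nonneg z.im]
    have h4 : |z.re - (c + k * lam)| ≤ R2 + 1 := by
      apply abs_le_of_sq_le_sq _ (by nlinarith [sq_nonneg (z.re - (c + k * lam))])
      nlinarith [sq_nonneg (z.re - (c + k * lam))]
    have h5 : |(k : ℝ)| * lam ≤ |x.re| + 1 + |c| + R2 + 1 := by
      have h5' : |(k : ℝ)| * lam = |(k : ℝ) * lam| := by rw [abs_mul, abs_of_pos hlam]
      rw [h5']
      have h6 : (k : ℝ) * lam = x.re + (z.re - x.re) - c - (z.re - (c + k * lam)) := by ring
      rw [h6]
      have a1 := abs_sub (x.re + (z.re - x.re) - c) (z.re - (c + k * lam))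
      have a2 := abs_sub (x.re + (z.re - x.re)) c
      have a3 := abs_add_le x.re (z.re - x.re)
      linarith
    have h7 : |(k : ℝ)| ≤ M := by
      rw [hM, le_div_iff₀ hlam]
      exact h5
    have h8 : |(k : ℝ)| ≤ (⌈M⌉ : ℝ) := h7.trans (Int.le_ceil M)
    rw [abs_le] at h8
    constructor
    · have : ((-⌈M⌉ : ℤ) : ℝ) ≤ k := by
        push_cast
        exact h8.1
      exact_mod_cast this
    · exact_mod_cast h8.2
  · intro k
    apply isClosed_le _ continuous_const
    exact continuous_normSq.comp (continuous_id.sub continuous_const)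

/-- A periodic polygonal region in the upper half-plane. -/
structure Region where
  /-- the translation length -/
  lam : ℝ
  /-- the sides, given by their end points -/
  side : Set (ℝ × ℝ)
  /-- an open set cutting out the part of the plane which is used -/
  V : Set ℂ
  lam_pos : 0 < lam
  side_lt : ∀ I ∈ side, I.1 < I.2
  side_nonneg : ∀ I ∈ side, 0 ≤ I.1
  side_le : ∀ I ∈ side, I.2 ≤ lam
  side_width : ∀ I ∈ side, I.2 - I.1 < lam
  side_disj : ∀ I ∈ side, ∀ J ∈ side, I = J ∨ I.2 ≤ J.1 ∨ J.2 ≤ I.1
  side_fin : ∀ ε : ℝ, 0 < ε → {I | I ∈ side ∧ ε ≤ rad I}.Finite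
  V_open : IsOpen V
  V_per : ∀ z, z ∈ V ↔ z + lam ∈ V
  V_up : ∀ z ∈ V, 0 < z.im → ∀ t : ℝ, 0 ≤ t → z + t * Complex.I ∈ V
  V_high : ∃ H : ℝ, ∀ z : ℂ, H < z.im → z ∈ V

namespace Region

variable (G : Region)

/-- The open region. -/
def D : Set ℂ := DSet G.lam G.side G.V

/-- The region together with its sides. -/
def Y : Set ℂ := YSet G.lam G.side G.V

/-- The covering map `z ↦ exp (2 π i z / lam)` onto the punctured disc. -/
noncomputable def E (z : ℂ) : ℂ := exp (2 * Real.pi * I * z / G.lam)

/-- The double of the region modulo translations, as a set: `q` is the image of a point under the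
covering map `E`, and `isFront` tells the front copy (and the boundary) from the back copy. -/
@[ext]
structure X where
  /-- position -/
  q : ℂ
  /-- `true` for the front copy and the boundary, `false` for the back copy -/
  isFront : Bool
  mem_Y : ∃ z ∈ G.Y, G.E z = q
  mem_D : isFront = false → ∃ z ∈ G.D, G.E z = q

lemma D_subset_Y : G.D ⊆ G.Y := by
  intro z hz
  exact ⟨hz.1, hz.2.1, fun I hI k => (hz.2.2 I hI k).le⟩

lemma normSq_sub_real (z : ℂ) (c : ℝ) : normSq (z - c) = (z.re - c) ^ 2 + z.im ^ 2 := by
  rw [normSq_apply]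
  simp
  ring

lemma high : ∃ H : ℝ, ∀ z : ℂ, H < z.im → z ∈ G.D := by
  obtain ⟨H, hH⟩ := G.V_high
  refine ⟨max H G.lam, fun z hz => ?_⟩
  have h1 : H < z.im := lt_of_le_of_lt (le_max_left _ _) hz
  have h2 : G.lam < z.im := lt_of_le_of_lt (le_max_right _ _) hz
  have h3 := G.lam_pos
  refine ⟨h3.trans h2, hH z h1, fun J hJ k => ?_⟩
  rw [normSq_sub_real]
  have h4 := G.side_width J hJ
  have h5 := G.side_lt J hJ
  unfold rad
  nlinarith [sq_nonneg (z.re - (cen J + k * G.lam))]

lemma D_open : IsOpen G.D := by
  rw [isOpen_iff_mem_nhds]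
  intro z hz
  have hz0 : 0 < z.im := hz.1
  set F := {I | I ∈ G.side ∧ z.im / 2 ≤ rad I} with hF
  have hfin : F.Finite := G.side_fin _ (by linarith)
  have h1 : IsOpen {w : ℂ | z.im / 2 < w.im} := isOpen_lt continuous_const continuous_im
  have h2 : IsOpen (⋂ I ∈ F, {w : ℂ | Above G.lam (cen I) (rad I ^ 2) w}) :=
    hfin.isOpen_biInter fun I _ => isOpen_above G.lam_pos _ _
  have h3 := (h1.inter G.V_open).inter h2
  apply Filter.mem_of_superset (h3.mem_nhds ⟨⟨?_, hz.2.1⟩, ?_⟩)
  · rintro w ⟨⟨hw1, hw2⟩, hw3⟩
    have hw1' : z.im / 2 < w.im := hw1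
    refine ⟨by linarith, hw2, fun I hI => ?_⟩
    by_cases hIF : z.im / 2 ≤ rad I
    · exact mem_iInter₂.1 hw3 I ⟨hI, hIF⟩
    · push Not at hIF
      intro k
      rw [normSq_sub_real]
      have hr : 0 < rad I := by
        unfold rad
        linarith [G.side_lt I hI]
      nlinarith [sq_nonneg (w.re - (cen I + k * G.lam))]
  · change z.im / 2 < z.im
    linarith
  · rw [mem_iInter₂]
    intro I hI
    exact hz.2.2 I hI.1

lemma D_nonempty : G.D.Nonempty := by
  obtain ⟨H, hH⟩ := G.high
  exact ⟨((H + 1 : ℝ) : ℂ) * Complex.I, hH _ (by simp)⟩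

lemma lamC_ne : (G.lam : ℂ) ≠ 0 := by
  exact_mod_cast G.lam_pos.ne'

lemma twoPiI_ne : (2 * Real.pi * I : ℂ) ≠ 0 := by
  simp [Real.pi_ne_zero, Complex.I_ne_zero]

lemma E_eq_iff {z w : ℂ} : G.E z = G.E w ↔ ∃ k : ℤ, z = w + k * G.lam := by
  unfold E
  rw [Complex.exp_eq_exp_iff_exists_int]
  have h1 := G.lamC_ne
  have h2 := twoPiI_ne
  constructor
  · rintro ⟨n, hn⟩
    refine ⟨n, ?_⟩
    have : (2 * Real.pi * I : ℂ) * z = (2 * Real.pi * I) * (w + n * G.lam) := by
      field_simp at hn
      linear_combination (2 * Real.pi * I : ℂ) * hn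
    exact mul_left_cancel₀ h2 this
  · rintro ⟨n, rfl⟩
    refine ⟨n, ?_⟩
    field_simp

lemma above_add {lam c R2 : ℝ} {z : ℂ} (k : ℤ) :
    Above lam c R2 (z + k * lam) ↔ Above lam c R2 z := by
  constructor
  · intro h m
    have := h (m + k)
    convert this using 2
    push_cast
    ring
  · intro h m
    have := h (m - k)
    convert this using 2
    push_cast
    ring

lemma aboveEq_add {lam c R2 : ℝ} {z : ℂ} (k : ℤ) :
    AboveEq lam c R2 (z + k * lam) ↔ AboveEq lam c R2 z := by
  constructor
  · intro h m
    have := h (m + k)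
    convert this using 2
    push_cast
    ring
  · intro h m
    have := h (m - k)
    convert this using 2
    push_cast
    ring

lemma V_add (k : ℤ) : ∀ z : ℂ, z + k * G.lam ∈ G.V ↔ z ∈ G.V := by
  induction k using Int.induction_on with
  | zero => intro z; simp
  | succ n ih =>
    intro z
    rw [← ih z, G.V_per (z + (n : ℤ) * G.lam)]
    push_cast
    rw [show z + (n + 1) * (G.lam : ℂ) = z + n * G.lam + G.lam by ring]
  | pred n ih =>
    intro z
    rw [← ih z, G.V_per (z + ((-(n : ℤ) - 1 : ℤ) : ℂ) * G.lam)]
    push_cast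
    rw [show z + (-(n : ℂ) - 1) * (G.lam : ℂ) + G.lam = z + -n * G.lam by ring]

lemma D_add {z : ℂ} (k : ℤ) : z + k * G.lam ∈ G.D ↔ z ∈ G.D := by
  have him : (z + k * G.lam).im = z.im := by simp
  unfold D DSet
  simp only [mem_ofPred_eq, him, G.V_add k z, above_add k]

lemma Y_add {z : ℂ} (k : ℤ) : z + k * G.lam ∈ G.Y ↔ z ∈ G.Y := by
  have him : (z + k * G.lam).im = z.im := by simp
  unfold Y YSet
  simp only [mem_ofPred_eq, him, G.V_add k z, aboveEq_add k]

lemma mem_D_of_E {z w : ℂ} (h : G.E z = G.E w) (hw : w ∈ G.D) : z ∈ G.D := by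
  obtain ⟨k, rfl⟩ := G.E_eq_iff.1 h
  exact (G.D_add k).2 hw

lemma mem_Y_of_E {z w : ℂ} (h : G.E z = G.E w) (hw : w ∈ G.Y) : z ∈ G.Y := by
  obtain ⟨k, rfl⟩ := G.E_eq_iff.1 h
  exact (G.Y_add k).2 hw

/-- The vertical strip over a side. -/
def strip (I : ℝ × ℝ) : Set ℂ := {z | I.1 < z.re ∧ z.re < I.2}

lemma isOpen_strip (I : ℝ × ℝ) : IsOpen (strip I) :=
  (isOpen_lt continuous_const continuous_re).inter (isOpen_lt continuous_re continuous_const)

/-- Points of the upper half-plane in the strip over a side are automatically strictly above all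
other translates of sides. -/
lemma mem_Y_iff {I : ℝ × ℝ} (hI : I ∈ G.side) {z : ℂ} (hz : z ∈ strip I) :
    z ∈ G.Y ↔ 0 < z.im ∧ z ∈ G.V ∧ rad I ^ 2 ≤ normSq (z - cen I) := by
  constructor
  · rintro ⟨h1, h2, h3⟩
    refine ⟨h1, h2, ?_⟩
    have := h3 I hI 0
    simpa using this
  · rintro ⟨h1, h2, h3⟩
    refine ⟨h1, h2, fun J hJ k => ?_⟩
    by_cases hJk : J = I ∧ k = 0
    · obtain ⟨rfl, rfl⟩ := hJk
      simpa using h3
    · -- the real part of z is outside the interval of J + k lam
      have hout : z.re ≤ J.1 + k * G.lam ∨ J.2 + k * G.lam ≤ z.re := by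
        have hl := G.lam_pos
        have a1 := G.side_nonneg J hJ
        have a2 := G.side_le J hJ
        have b1 := G.side_nonneg I hI
        have b2 := G.side_le I hI
        obtain ⟨z1, z2⟩ := hz
        rcases lt_trichotomy k 0 with hk | hk | hk
        · right
          have : (k : ℝ) ≤ -1 := by exact_mod_cast Int.le_sub_one_of_lt hk
          nlinarith
        · subst hk
          have hne : I ≠ J := fun h => hJk ⟨h.symm, rfl⟩
          rcases G.side_disj I hI J hJ with h | h | h
          · exact absurd h hne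
          · left
            push_cast
            linarith
          · right
            push_cast
            linarith
        · left
          have : (1 : ℝ) ≤ k := by exact_mod_cast hk
          nlinarith
      rw [normSq_sub_real]
      unfold cen rad
      have hJlt := G.side_lt J hJ
      rcases hout with h | h
      · nlinarith [sq_nonneg z.im]
      · nlinarith [sq_nonneg z.im]

lemma mem_D_iff {I : ℝ × ℝ} (hI : I ∈ G.side) {z : ℂ} (hz : z ∈ strip I) :
    z ∈ G.D ↔ 0 < z.im ∧ z ∈ G.V ∧ rad I ^ 2 < normSq (z - cen I) := by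
  constructor
  · rintro ⟨h1, h2, h3⟩
    refine ⟨h1, h2, ?_⟩
    have := h3 I hI 0
    simpa using this
  · rintro ⟨h1, h2, h3⟩
    refine ⟨h1, h2, fun J hJ k => ?_⟩
    by_cases hJk : J = I ∧ k = 0
    · obtain ⟨rfl, rfl⟩ := hJk
      simpa using h3
    · have hout : z.re ≤ J.1 + k * G.lam ∨ J.2 + k * G.lam ≤ z.re := by
        have hl := G.lam_pos
        have a1 := G.side_nonneg J hJ
        have a2 := G.side_le J hJ
        have b1 := G.side_nonneg I hI
        have b2 := G.side_le I hI
        obtain ⟨z1, z2⟩ := hz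
        rcases lt_trichotomy k 0 with hk | hk | hk
        · right
          have : (k : ℝ) ≤ -1 := by exact_mod_cast Int.le_sub_one_of_lt hk
          nlinarith
        · subst hk
          have hne : I ≠ J := fun h => hJk ⟨h.symm, rfl⟩
          rcases G.side_disj I hI J hJ with h | h | h
          · exact absurd h hne
          · left
            push_cast
            linarith
          · right
            push_cast
            linarith
        · left
          have : (1 : ℝ) ≤ k := by exact_mod_cast hk
          nlinarith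
      rw [normSq_sub_real]
      unfold cen rad
      have hJlt := G.side_lt J hJ
      have him : 0 < z.im ^ 2 := by positivity
      rcases hout with h | h
      · nlinarith [sq_nonneg z.im]
      · nlinarith [sq_nonneg z.im]

end Region

end Pool.Agent.MP_b90f02
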