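import Mathlib

set_option autoImplicit false

open Matrix UpperHalfPlane
open scoped MatrixGroups

namespace Pool.Agent.MP_b90f02_an

section NN

/-- the quadratic form of the geodesic with endpoints `p`, `q` -/
noncomputable def N (p q : ℝ) (z : ℍ) : ℝ := z.re ^ 2 + z.im ^ 2 - (p + q) * z.re + p * q

/-- the closed half-disc over `[p, q]` -/
def HD (p q : ℝ) : Set ℍ := {z | N p q z ≤ 0}

theorem mem_HD {p q : ℝ} {z : ℍ} : z ∈ HD p q ↔ N p q z ≤ 0 := Iff.rfl

theorem normSq_denom (g : GL (Fin 2) ℝ) (z : ℍ) :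
    Complex.normSq (denom g z) = (g 1 0 * z.re + g 1 1) ^ 2 + (g 1 0 * z.im) ^ 2 := by
  simp [denom, Complex.normSq_apply]; ring

theorem normSq_num (g : GL (Fin 2) ℝ) (z : ℍ) :
    Complex.normSq (num g z) = (g 0 0 * z.re + g 0 1) ^ 2 + (g 0 0 * z.im) ^ 2 := by
  simp [num, Complex.normSq_apply]; ring

theorem normSq_smul (g : GL (Fin 2) ℝ) (z : ℍ) :
    (g • z).re ^ 2 + (g • z).im ^ 2 =
      Complex.normSq (num g z) / Complex.normSq (denom g z) := by
  have h1 : Complex.normSq ((g • z : ℍ) : ℂ) = (g • z).re ^ 2 + (g • z).im ^ 2 := by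
    rw [Complex.normSq_apply]; simp [sq]
  rw [← h1, coe_smul, Complex.normSq_eq_norm_sq, norm_σ, norm_div, div_pow,
    Complex.normSq_eq_norm_sq, Complex.normSq_eq_norm_sq]

theorem re_smul' (g : GL (Fin 2) ℝ) (z : ℍ) :
    (g • z).re = ((g 0 0 * z.re + g 0 1) * (g 1 0 * z.re + g 1 1) + g 0 0 * g 1 0 * z.im ^ 2) /
      Complex.normSq (denom g z) := by
  rw [re_smul, Complex.div_re]
  rw [← add_div]
  congr 1
  simp [num, denom]; ring

theorem N_aux (a b c d p q x y : ℝ) (hp : c * p + d ≠ 0) (hq : c * q + d ≠ 0)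
    (hn : (c * x + d) ^ 2 + (c * y) ^ 2 ≠ 0) :
    (((a * x + b) ^ 2 + (a * y) ^ 2) / ((c * x + d) ^ 2 + (c * y) ^ 2) -
      ((a * p + b) / (c * p + d) + (a * q + b) / (c * q + d)) *
        (((a * x + b) * (c * x + d) + a * c * y ^ 2) / ((c * x + d) ^ 2 + (c * y) ^ 2)) +
      (a * p + b) / (c * p + d) * ((a * q + b) / (c * q + d))) *
      (((c * x + d) ^ 2 + (c * y) ^ 2) * ((c * p + d) * (c * q + d))) =
      (a * d - b * c) ^ 2 * (x ^ 2 + y ^ 2 - (p + q) * x + p * q) := by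
  generalize hn' : (c * x + d) ^ 2 + (c * y) ^ 2 = n at hn
  generalize hp' : c * p + d = P at hp
  generalize hq' : c * q + d = Q at hq
  field_simp
  rw [← hp', ← hq', ← hn']
  ring

theorem N_smul (g : GL (Fin 2) ℝ) (p q : ℝ) (z : ℍ) (hp : g 1 0 * p + g 1 1 ≠ 0)
    (hq : g 1 0 * q + g 1 1 ≠ 0) :
    N ((g 0 0 * p + g 0 1) / (g 1 0 * p + g 1 1)) ((g 0 0 * q + g 0 1) / (g 1 0 * q + g 1 1))
      (g • z) * (Complex.normSq (denom g z) * ((g 1 0 * p + g 1 1) * (g 1 0 * q + g 1 1))) =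
      (g.det : ℝ) ^ 2 * N p q z := by
  have hn : Complex.normSq (denom g z) ≠ 0 := normSq_denom_ne_zero g z.im_ne_zero
  have hdet : (g.det : ℝ) = g 0 0 * g 1 1 - g 0 1 * g 1 0 := by
    rw [Matrix.GeneralLinearGroup.val_det_apply, Matrix.det_fin_two]
  unfold N
  rw [normSq_smul, re_smul', hdet, normSq_num]
  rw [normSq_denom] at hn ⊢
  exact N_aux _ _ _ _ _ _ _ _ hp hq hn

end NN

section order

theorem im_sq_pos (z : ℍ) : 0 < z.im ^ 2 := by have := z.im_pos; positivity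

theorem HD_subset {p q p' q' : ℝ} (hpq : p ≤ q) (h1 : p' ≤ p) (h2 : q ≤ q') : HD p q ⊆ HD p' q' := by
  intro z hz
  rw [mem_HD] at *
  unfold N at *
  have him := im_sq_pos z
  -- `p ≤ re z ≤ q`
  have h3 : (z.re - p) * (z.re - q) ≤ 0 := by nlinarith
  have h4 : p ≤ z.re := by
    by_contra hlt
    push Not at hlt
    nlinarith
  have h5 : z.re ≤ q := by
    by_contra hlt
    push Not at hlt
    nlinarith
  nlinarith

theorem HD_disjoint {p q p' q' : ℝ} (hpq : p ≤ q) (h1 : q ≤ p') (h2 : p' ≤ q') :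
    Disjoint (HD p q) (HD p' q') := by
  rw [Set.disjoint_left]
  intro z hz hz'
  rw [mem_HD] at *
  unfold N at *
  have him := im_sq_pos z
  have h3 : (z.re - p) * (z.re - q) < 0 := by nlinarith
  have h4 : (z.re - p') * (z.re - q') < 0 := by nlinarith
  have h5 : z.re < q := by
    by_contra hlt
    push Not at hlt
    nlinarith
  have h6 : p' < z.re := by
    by_contra hlt
    push Not at hlt
    nlinarith
  linarith

theorem HD_pos {p q : ℝ} (hp : 0 < p) (hpq : p ≤ q) {z : ℍ} (hz : z ∈ HD p q) :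
    0 < z.re ∧ p ^ 2 < z.re ^ 2 + z.im ^ 2 ∧ z.re ^ 2 + z.im ^ 2 < q ^ 2 := by
  rw [mem_HD] at hz
  unfold N at hz
  have him := im_sq_pos z
  have h3 : (z.re - p) * (z.re - q) < 0 := by nlinarith
  have h5 : z.re < q := by
    by_contra hlt
    push Not at hlt
    nlinarith
  have h6 : p < z.re := by
    by_contra hlt
    push Not at hlt
    nlinarith
  refine ⟨by linarith, by nlinarith, by nlinarith⟩

theorem HD_neg {p q : ℝ} (hq : q < 0) (hpq : p ≤ q) {z : ℍ} (hz : z ∈ HD p q) :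
    z.re < 0 ∧ q ^ 2 < z.re ^ 2 + z.im ^ 2 ∧ z.re ^ 2 + z.im ^ 2 < p ^ 2 := by
  rw [mem_HD] at hz
  unfold N at hz
  have him := im_sq_pos z
  have h3 : (z.re - p) * (z.re - q) < 0 := by nlinarith
  have h5 : z.re < q := by
    by_contra hlt
    push Not at hlt
    nlinarith
  have h6 : p < z.re := by
    by_contra hlt
    push Not at hlt
    nlinarith
  refine ⟨by linarith, by nlinarith, by nlinarith⟩

end order

end Pool.Agent.MP_b90f02_an
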