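import Pool.Agent.MP_b90f02_an.Incl

/-!
# Checks of the definitions: lengths of the boundary geodesics, and all punctures are parabolic
-/

set_option autoImplicit false

open Matrix UpperHalfPlane
open scoped MatrixGroups

namespace Pool.Agent.MP_b90f02_an

/-- trace of an element of `SL(2, ℝ)` -/
noncomputable def trc (g : SL(2, ℝ)) : ℝ := g.val.trace

theorem trc_conj (g h : SL(2, ℝ)) : trc (g * h * g⁻¹) = trc h := by
  unfold trc
  have e : (g * h * g⁻¹).val = g.val * h.val * (g⁻¹).val := rfl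
  have e1 : (g⁻¹).val * g.val = 1 := by
    have : (g⁻¹ * g).val = 1 := by rw [inv_mul_cancel]; rfl
    exact this
  rw [e, Matrix.trace_mul_comm, ← mul_assoc, e1, one_mul]

theorem trc_hol (ℓ t : ℕ → ℝ) (n : ℕ) : trc (hol ℓ t n) = 2 * Real.cosh (ℓ n / 2) := by
  unfold hol
  rw [trc_conj]
  unfold trc trans
  rw [Matrix.trace_fin_two_of, Real.cosh_eq]
  ring

theorem trc_comm (t a : ℝ) : trans t * trans a * (trans t)⁻¹ = trans a := by
  rw [← trans_add, add_comm, trans_add, mul_inv_cancel_right]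

/-- the cusp of each pair of pants `P_{n+1}` is parabolic -/
theorem trc_cusp (ℓ t : ℕ → ℝ) (hpos : ∀ n, 0 < ℓ n) (n : ℕ) :
    trc ((hol ℓ t n)⁻¹ * hol ℓ t (n + 1)) = -2 := by
  have e1 : (hol ℓ t n)⁻¹ * hol ℓ t (n + 1) = frame ℓ t n *
      (trans (-ℓ n) * (cross (orth (ℓ n) (ℓ (n + 1))) * trans (ℓ (n + 1)) *
        cross (-orth (ℓ n) (ℓ (n + 1))))) * (frame ℓ t n)⁻¹ := by
    have e2 := trc_comm (t (n + 1) * ℓ (n + 1)) (ℓ (n + 1))
    unfold hol
    rw [show frame ℓ t (n + 1) = frame ℓ t n * cross (orth (ℓ n) (ℓ (n + 1))) *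
      trans (t (n + 1) * ℓ (n + 1)) from rfl, trans_neg, cross_neg]
    conv_rhs => rw [← e2]
    group
  rw [e1, trc_conj]
  set o := orth (ℓ n) (ℓ (n + 1)) with ho
  have h1 : trc (trans (-ℓ n) * (cross o * trans (ℓ (n + 1)) * cross (-o))) =
      2 * Real.cosh (o / 2) ^ 2 * Real.cosh ((ℓ n - ℓ (n + 1)) / 2) -
      2 * Real.sinh (o / 2) ^ 2 * Real.cosh ((ℓ n + ℓ (n + 1)) / 2) := by
    unfold trc
    change ((trans (-ℓ n)).val * ((cross o).val * (trans (ℓ (n + 1))).val *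
      (cross (-o)).val)).trace = _
    unfold trans cross
    dsimp only
    rw [Matrix.mul_fin_two, Matrix.mul_fin_two, Matrix.mul_fin_two, Matrix.trace_fin_two_of]
    rw [neg_div 2 o, Real.cosh_neg, Real.sinh_neg, neg_div 2 (ℓ n), neg_neg]
    have a1 : (ℓ n - ℓ (n + 1)) / 2 = ℓ n / 2 - ℓ (n + 1) / 2 := by ring
    have a2 : (ℓ n + ℓ (n + 1)) / 2 = ℓ n / 2 + ℓ (n + 1) / 2 := by ring
    rw [a1, a2, Real.cosh_eq (ℓ n / 2 - ℓ (n + 1) / 2), Real.cosh_eq (ℓ n / 2 + ℓ (n + 1) / 2),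
      neg_sub, neg_add, Real.exp_sub, Real.exp_sub, Real.exp_add, Real.exp_add, Real.exp_neg,
      Real.exp_neg]
    field_simp
    ring
  rw [h1]
  -- `cosh o` from the definition of `orth`
  have s1 : 0 < Real.sinh (ℓ n / 2) := Real.sinh_pos_iff.mpr (by have := hpos n; positivity)
  have s2 : 0 < Real.sinh (ℓ (n + 1) / 2) :=
    Real.sinh_pos_iff.mpr (by have := hpos (n + 1); positivity)
  have hcosh : Real.cosh o = (1 + Real.cosh (ℓ n / 2) * Real.cosh (ℓ (n + 1) / 2)) /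
      (Real.sinh (ℓ n / 2) * Real.sinh (ℓ (n + 1) / 2)) := by
    rw [ho]
    unfold orth
    apply Real.cosh_arcosh
    rw [le_div_iff₀ (by positivity), one_mul]
    have := Real.cosh_sub (ℓ n / 2) (ℓ (n + 1) / 2)
    have h2 := Real.cosh_pos (ℓ n / 2 - ℓ (n + 1) / 2)
    linarith
  rw [eq_div_iff (by positivity)] at hcosh
  have c1 : Real.cosh o = 2 * Real.cosh (o / 2) ^ 2 - 1 := by
    have h3 := Real.cosh_two_mul (o / 2)
    have h4 := Real.cosh_sq (o / 2)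
    rw [mul_div_cancel₀ _ (two_ne_zero' ℝ)] at h3
    linarith
  have c2 : Real.cosh o = 2 * Real.sinh (o / 2) ^ 2 + 1 := by
    have h4 := Real.cosh_sq (o / 2)
    linarith
  have a1 : (ℓ n - ℓ (n + 1)) / 2 = ℓ n / 2 - ℓ (n + 1) / 2 := by ring
  have a2 : (ℓ n + ℓ (n + 1)) / 2 = ℓ n / 2 + ℓ (n + 1) / 2 := by ring
  rw [a1, a2, Real.cosh_sub, Real.cosh_add]
  generalize Real.cosh (ℓ n / 2) = C1 at *
  generalize Real.cosh (ℓ (n + 1) / 2) = C2 at *
  generalize Real.sinh (ℓ n / 2) = S1 at *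
  generalize Real.sinh (ℓ (n + 1) / 2) = S2 at *
  have k1 : 2 * Real.cosh (o / 2) ^ 2 = Real.cosh o + 1 := by linarith
  have k2 : 2 * Real.sinh (o / 2) ^ 2 = Real.cosh o - 1 := by linarith
  rw [k1, k2]
  linear_combination (-2 : ℝ) * hcosh

/-- the two cusps of `P_0` are parabolic -/
theorem trc_cusp0 (ℓ t : ℕ → ℝ) (hpos : ∀ n, 0 < ℓ n) :
    trc (cuspHol ℓ) = -2 ∧ trc (cuspHol ℓ * (hol ℓ t 0)⁻¹) = 2 := by
  have hS : Real.sinh (-orthSelf (ℓ 0) / 2) = -(1 / Real.sinh (ℓ 0 / 4)) := by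
    unfold orthSelf
    rw [neg_div, mul_div_cancel_left₀ _ (two_ne_zero), Real.sinh_neg, Real.sinh_arsinh]
  have s1 : 0 < Real.sinh (ℓ 0 / 4) := Real.sinh_pos_iff.mpr (by have := hpos 0; positivity)
  have key : ∀ u : ℝ, trc (cross (-orthSelf (ℓ 0)) * halfTurn * trans u) =
      -(1 / Real.sinh (ℓ 0 / 4)) * (2 * Real.sinh (u / 2)) := by
    intro u
    unfold trc
    change ((cross (-orthSelf (ℓ 0))).val * halfTurn.val * (trans u).val).trace = _
    unfold trans cross halfTurn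
    dsimp only
    rw [Matrix.mul_fin_two, Matrix.mul_fin_two, Matrix.trace_fin_two_of, hS, Real.sinh_eq (u / 2)]
    ring
  constructor
  · unfold cuspHol
    rw [key]
    have : ℓ 0 / 2 / 2 = ℓ 0 / 4 := by ring
    rw [this]
    field_simp
  · have e : cuspHol ℓ * (hol ℓ t 0)⁻¹ =
        cross (-orthSelf (ℓ 0)) * halfTurn * trans (ℓ 0 / 2 - ℓ 0) := by
      unfold cuspHol hol
      rw [show frame ℓ t 0 = trans (t 0 * ℓ 0) from rfl, trc_comm, sub_eq_add_neg, trans_add,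
        trans_neg]
      simp only [mul_assoc]
    rw [e, key]
    have : (ℓ 0 / 2 - ℓ 0) / 2 = -(ℓ 0 / 4) := by ring
    rw [this, Real.sinh_neg]
    field_simp

end Pool.Agent.MP_b90f02_an
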