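import Pool.Agent.MP_b90f02_an.Regions

set_option autoImplicit false

open Matrix UpperHalfPlane MeasureTheory
open scoped MatrixGroups

namespace Pool.Agent.MP_b90f02_an

section one

/-- `z` lies in `γ {|z| ≥ M}` expressed through the inverse matrix -/
theorem inv_mem_iff (g : SL(2, ℝ)) (M : ℝ) (z : ℍ) :
    M ^ 2 ≤ (g⁻¹ • z).re ^ 2 + (g⁻¹ • z).im ^ 2 ↔
      M ^ 2 * ((g 0 0 - g 1 0 * z.re) ^ 2 + (g 1 0 * z.im) ^ 2) ≤
        (g 1 1 * z.re - g 0 1) ^ 2 + (g 1 1 * z.im) ^ 2 := by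
  set h : GL (Fin 2) ℝ := ((g⁻¹ : SL(2, ℝ)) : GL (Fin 2) ℝ) with hh
  have hval : h.val = !![g 1 1, -g 0 1; -g 1 0, g 0 0] := by
    have : h.val = (g⁻¹ : SL(2, ℝ)).val := rfl
    rw [this, Matrix.SpecialLinearGroup.coe_inv, Matrix.adjugate_fin_two]
  have h00 : h 0 0 = g 1 1 := by rw [hval]; rfl
  have h01 : h 0 1 = -g 0 1 := by rw [hval]; rfl
  have h10 : h 1 0 = -g 1 0 := by rw [hval]; rfl
  have h11 : h 1 1 = g 0 0 := by rw [hval]; rfl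
  have e : (g⁻¹ • z : ℍ) = h • z := rfl
  have hn := normSq_denom_pos h z.im_ne_zero
  rw [e, normSq_smul, le_div_iff₀ hn, normSq_num, normSq_denom, h00, h01, h10, h11]
  have e1 : (-g 1 0 * z.re + g 0 0) ^ 2 + (-g 1 0 * z.im) ^ 2 =
    (g 0 0 - g 1 0 * z.re) ^ 2 + (g 1 0 * z.im) ^ 2 := by ring
  have e2 : (g 1 1 * z.re + -g 0 1) ^ 2 + (g 1 1 * z.im) ^ 2 =
    (g 1 1 * z.re - g 0 1) ^ 2 + (g 1 1 * z.im) ^ 2 := by ring
  rw [e1, e2]

theorem mem_iff (g : SL(2, ℝ)) (M : ℝ) (z : ℍ) :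
    M ^ 2 ≤ (g • z).re ^ 2 + (g • z).im ^ 2 ↔
      M ^ 2 * ((g 1 0 * z.re + g 1 1) ^ 2 + (g 1 0 * z.im) ^ 2) ≤
        (g 0 0 * z.re + g 0 1) ^ 2 + (g 0 0 * z.im) ^ 2 := by
  set h : GL (Fin 2) ℝ := ((g : SL(2, ℝ)) : GL (Fin 2) ℝ) with hh
  have e : (g • z : ℍ) = h • z := rfl
  have hn := normSq_denom_pos h z.im_ne_zero
  rw [e, normSq_smul, le_div_iff₀ hn, normSq_num, normSq_denom]
  rfl

end one

section family

variable {G : Type*} [Group G] (φ : G →* SL(2, ℝ)) (M : ℝ) (hM : 0 < M)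
  (hT : ∀ g : G, g ≠ 1 → ∀ z : ℍ, M ^ 2 ≤ z.re ^ 2 + z.im ^ 2 →
    ¬ (M ^ 2 ≤ (φ g • z).re ^ 2 + (φ g • z).im ^ 2))
include hM hT

theorem a_le (g : G) (hg : g ≠ 1) : |φ g 0 0| ≤ M * |φ g 1 0| := by
  have key : ∀ y : ℝ, M ≤ y → (φ g 0 0) ^ 2 * y ^ 2 <
      M ^ 2 * ((φ g 1 1) ^ 2 + (φ g 1 0) ^ 2 * y ^ 2) := by
    intro y hy
    obtain ⟨z, hz1, hz2⟩ := (⟨⟨⟨0, y⟩, by change 0 < y; linarith⟩, rfl, rfl⟩ :
      ∃ z : ℍ, z.re = 0 ∧ z.im = y)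
    have h := hT g hg z (by rw [hz1, hz2]; nlinarith)
    rw [mem_iff, hz1, hz2] at h
    push Not at h
    nlinarith [sq_nonneg (φ g 0 1)]
  rw [← abs_of_pos hM, ← abs_mul, ← sq_le_sq]
  by_contra hlt
  push Not at hlt
  -- let `y` be large
  set δ := (φ g 0 0) ^ 2 - (M * φ g 1 0) ^ 2 with hδ
  have hδ0 : 0 < δ := by rw [hδ]; linarith
  obtain ⟨y, hy1, hy2⟩ : ∃ y : ℝ, M ≤ y ∧ M ^ 2 * (φ g 1 1) ^ 2 ≤ δ * y ^ 2 := by
    refine ⟨max M (max 1 (M ^ 2 * (φ g 1 1) ^ 2 / δ)), le_max_left _ _, ?_⟩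
    set y := max M (max 1 (M ^ 2 * (φ g 1 1) ^ 2 / δ))
    have h1 : 1 ≤ y := le_trans (le_max_left _ _) (le_max_right _ _)
    have h2 : M ^ 2 * (φ g 1 1) ^ 2 / δ ≤ y := le_trans (le_max_right _ _) (le_max_right _ _)
    rw [div_le_iff₀ hδ0] at h2
    have h3 : y ≤ y ^ 2 := by nlinarith
    have h4 : y * δ ≤ y ^ 2 * δ := mul_le_mul_of_nonneg_right h3 hδ0.le
    linarith
  have := key y hy1
  nlinarith

theorem c_ne (g : G) (hg : g ≠ 1) : φ g 1 0 ≠ 0 := by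
  intro h
  have h1 := a_le φ M hM hT g hg
  rw [h, abs_zero, mul_zero, abs_nonpos_iff] at h1
  have h2 := (φ g).det_coe
  rw [Matrix.det_fin_two, h1, h] at h2
  simp at h2

theorem d_le (g : G) (hg : g ≠ 1) : |φ g 1 1| ≤ M * |φ g 1 0| := by
  have h1 := a_le φ M hM hT g⁻¹ (by simpa using hg)
  rw [map_inv] at h1
  have e0 : ((φ g)⁻¹ : SL(2, ℝ)) 0 0 = φ g 1 1 := by
    have : ((φ g)⁻¹ : SL(2, ℝ)).val = Matrix.adjugate (φ g).val := rfl
    change ((φ g)⁻¹ : SL(2, ℝ)).val 0 0 = _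
    rw [this, Matrix.adjugate_fin_two]; rfl
  have e1 : ((φ g)⁻¹ : SL(2, ℝ)) 1 0 = -φ g 1 0 := by
    have : ((φ g)⁻¹ : SL(2, ℝ)).val = Matrix.adjugate (φ g).val := rfl
    change ((φ g)⁻¹ : SL(2, ℝ)).val 1 0 = _
    rw [this, Matrix.adjugate_fin_two]; rfl
  rw [e0, e1, abs_neg] at h1
  exact h1

/-- the interval -/
noncomputable def JJ (φ : G →* SL(2, ℝ)) (M : ℝ) (g : G) : Set ℝ :=
  Set.Ioo (φ g 0 0 / φ g 1 0 - 1 / (2 * M * (φ g 1 0) ^ 2))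
    (φ g 0 0 / φ g 1 0 + 1 / (2 * M * (φ g 1 0) ^ 2))

theorem JJ_strict (g : G) (hg : g ≠ 1) (x : ℝ) (hx : x ∈ JJ φ M g) :
    M ^ 2 * (φ g 0 0 - φ g 1 0 * x) ^ 2 < (φ g 1 1 * x - φ g 0 1) ^ 2 := by
  have hc := c_ne φ M hM hT g hg
  have hd := d_le φ M hM hT g hg
  have hdet := (φ g).det_coe
  rw [Matrix.det_fin_two] at hdet
  obtain ⟨h1, h2⟩ := hx
  generalize φ g 0 0 = a at *
  generalize φ g 0 1 = b at *
  generalize φ g 1 0 = c at *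
  generalize φ g 1 1 = d at *
  obtain ⟨s, rfl⟩ : ∃ s, x = a / c + s := ⟨x - a / c, by ring⟩
  have hcs : 0 < |c| := abs_pos.mpr hc
  have hs : |s| < 1 / (2 * M * c ^ 2) := by
    rw [abs_lt]; constructor <;> linarith
  have e1 : d * (a / c + s) - b = 1 / c + d * s := by
    field_simp; linear_combination hdet
  have e2 : a - c * (a / c + s) = -(c * s) := by field_simp; ring
  rw [e1, e2]
  have e3 : |c| ^ 2 = c ^ 2 := sq_abs c
  have hs' : |s| * (2 * M * |c|) < 1 / |c| := by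
    rw [lt_div_iff₀ hcs]
    rw [lt_div_iff₀ (by positivity)] at hs
    rw [← e3] at hs
    nlinarith
  have h3 : M * |c * s| < |1 / c + d * s| := by
    have h4 : |1 / c| - |d * s| ≤ |1 / c + d * s| := by
      have := abs_sub_abs_le_abs_sub (1 / c) (-(d * s))
      rw [abs_neg, sub_neg_eq_add] at this
      exact this
    rw [abs_mul, abs_div, abs_one] at h4
    rw [abs_mul]
    have h5 : |d| * |s| ≤ M * |c| * |s| := mul_le_mul_of_nonneg_right hd (abs_nonneg _)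
    nlinarith
  have h6 : (M * |c * s|) ^ 2 < |1 / c + d * s| ^ 2 :=
    pow_lt_pow_left₀ h3 (by positivity) two_ne_zero
  rw [sq_abs, mul_pow, sq_abs] at h6
  nlinarith

theorem eventually_mem (g : G) (hg : g ≠ 1) (x : ℝ) (hx : x ∈ JJ φ M g) :
    ∃ ε > 0, ∀ z : ℍ, z.re = x → z.im < ε →
      M ^ 2 ≤ ((φ g)⁻¹ • z).re ^ 2 + ((φ g)⁻¹ • z).im ^ 2 := by
  have h := JJ_strict φ M hM hT g hg x hx
  set δ := (φ g 1 1 * x - φ g 0 1) ^ 2 - M ^ 2 * (φ g 0 0 - φ g 1 0 * x) ^ 2 with hδ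
  have hδ0 : 0 < δ := by rw [hδ]; linarith
  set K := M ^ 2 * (φ g 1 0) ^ 2 + 1 with hK
  have hK0 : 1 ≤ K := by rw [hK]; nlinarith [sq_nonneg (M * φ g 1 0)]
  refine ⟨min 1 (δ / K), by positivity, ?_⟩
  intro z hz1 hz2
  rw [inv_mem_iff, hz1]
  have h1 : z.im < 1 := lt_of_lt_of_le hz2 (min_le_left _ _)
  have h2 : z.im < δ / K := lt_of_lt_of_le hz2 (min_le_right _ _)
  rw [lt_div_iff₀ (by linarith)] at h2
  have h3 := z.im_pos
  have h4 : z.im ^ 2 * K ≤ z.im * K :=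
    mul_le_mul_of_nonneg_right (by nlinarith) (by linarith)
  have h5 : z.im ^ 2 * (M ^ 2 * (φ g 1 0) ^ 2) ≤ z.im ^ 2 * K := by
    rw [hK]; nlinarith [sq_nonneg z.im]
  nlinarith [sq_nonneg (φ g 1 1 * z.im)]

theorem JJ_disj (g h : G) (hg : g ≠ 1) (hh : h ≠ 1) (hgh : g ≠ h) :
    Disjoint (JJ φ M g) (JJ φ M h) := by
  rw [Set.disjoint_left]
  intro x hx hx'
  obtain ⟨ε, hε, h1⟩ := eventually_mem φ M hM hT g hg x hx
  obtain ⟨ε', hε', h2⟩ := eventually_mem φ M hM hT h hh x hx'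
  obtain ⟨z, hz1, hz2⟩ := (⟨⟨⟨x, min ε ε' / 2⟩, by change 0 < min ε ε' / 2; positivity⟩, rfl, rfl⟩ :
      ∃ z : ℍ, z.re = x ∧ z.im = min ε ε' / 2)
  have hm : 0 < min ε ε' := by positivity
  have k1 := h1 z hz1 (by rw [hz2]; have := min_le_left ε ε'; linarith)
  have k2 := h2 z hz1 (by rw [hz2]; have := min_le_right ε ε'; linarith)
  have k3 := hT (h⁻¹ * g) (by
    intro e
    apply hgh
    rw [inv_mul_eq_one] at e
    exact e.symm) _ k1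
  apply k3
  have e : φ (h⁻¹ * g) • ((φ g)⁻¹ • z) = (φ h)⁻¹ • z := by
    rw [map_mul, map_inv, mul_smul, smul_inv_smul]
  rw [e]
  exact k2

theorem JJ_sub (g : G) (hg : g ≠ 1) : JJ φ M g ⊆ Set.Icc (-M) M := by
  intro x hx
  by_contra hlt
  have hlt' : M < |x| := by
    by_contra h'
    push Not at h'
    exact hlt ⟨(abs_le.mp h').1, (abs_le.mp h').2⟩
  obtain ⟨ε, hε, h1⟩ := eventually_mem φ M hM hT g hg x hx
  obtain ⟨z, hz1, hz2⟩ := (⟨⟨⟨x, ε / 2⟩, by change 0 < ε / 2; positivity⟩, rfl, rfl⟩ :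
      ∃ z : ℍ, z.re = x ∧ z.im = ε / 2)
  have k1 := h1 z hz1 (by rw [hz2]; linarith)
  have k2 : M ^ 2 ≤ z.re ^ 2 + z.im ^ 2 := by
    rw [hz1, ← sq_abs x]
    nlinarith [sq_nonneg z.im, abs_nonneg x]
  have k3 := hT g⁻¹ (by simpa using hg) z k2
  rw [map_inv] at k3
  exact k3 k1

theorem sum_bound (s : Finset G) (hs : (1 : G) ∉ s) :
    ∑ g ∈ s, 1 / (φ g 1 0) ^ 2 ≤ 2 * M ^ 2 := by
  have hne : ∀ g ∈ s, g ≠ 1 := fun g hg h => hs (h ▸ hg)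
  have h1 : volume (⋃ g ∈ s, JJ φ M g) = ∑ g ∈ s, volume (JJ φ M g) := by
    apply measure_biUnion_finset
    · intro g hg h hh hgh
      exact JJ_disj φ M hM hT g h (hne g hg) (hne h hh) hgh
    · intro g _
      exact measurableSet_Ioo
  have h2 : volume (⋃ g ∈ s, JJ φ M g) ≤ volume (Set.Icc (-M) M) :=
    measure_mono (Set.iUnion₂_subset fun g hg => JJ_sub φ M hM hT g (hne g hg))
  have h3 : ∀ g ∈ s, volume (JJ φ M g) = ENNReal.ofReal (1 / (M * (φ g 1 0) ^ 2)) := by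
    intro g hg
    unfold JJ
    rw [Real.volume_Ioo]
    congr 1
    have hc := c_ne φ M hM hT g (hne g hg)
    field_simp
    ring
  rw [h1, Finset.sum_congr rfl h3, Real.volume_Icc,
    ← ENNReal.ofReal_sum_of_nonneg (fun g _ => by positivity)] at h2
  rw [ENNReal.ofReal_le_ofReal_iff (by linarith)] at h2
  have h4 : ∑ g ∈ s, 1 / (φ g 1 0) ^ 2 = M * ∑ g ∈ s, 1 / (M * (φ g 1 0) ^ 2) := by
    rw [Finset.mul_sum]
    apply Finset.sum_congr rfl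
    intro g hg
    have hc := c_ne φ M hM hT g (hne g hg)
    field_simp
  rw [h4]
  nlinarith

theorem im_le (g : G) (hg : g ≠ 1) (w : ℍ) :
    (φ g • w).im ≤ 1 / (φ g 1 0) ^ 2 * (1 / w.im) := by
  have hc := c_ne φ M hM hT g hg
  set h : GL (Fin 2) ℝ := ((φ g : SL(2, ℝ)) : GL (Fin 2) ℝ) with hh
  have e : (φ g • w : ℍ) = h • w := rfl
  have hdet : (h.det : ℝ) = 1 := by
    rw [Matrix.GeneralLinearGroup.val_det_apply]
    exact (φ g).det_coe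
  have hw := w.im_pos
  have h10 : h 1 0 = φ g 1 0 := rfl
  have hn := normSq_denom_pos h w.im_ne_zero
  rw [e, UpperHalfPlane.im_smul_eq_div_normSq, hdet, abs_one, one_mul]
  have h1 : (φ g 1 0) ^ 2 * w.im ^ 2 ≤ Complex.normSq (denom h w) := by
    rw [normSq_denom, h10]
    nlinarith [sq_nonneg (φ g 1 0 * w.re + h 1 1)]
  rw [div_le_iff₀ hn]
  calc w.im = 1 / (φ g 1 0) ^ 2 * (1 / w.im) * ((φ g 1 0) ^ 2 * w.im ^ 2) := by field_simp
    _ ≤ _ := mul_le_mul_of_nonneg_left h1 (by positivity)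

theorem summable_im (w : ℍ) : Summable (fun g : G => (φ g • w).im) := by
  classical
  have hw := w.im_pos
  apply summable_of_sum_le (c := (φ 1 • w).im + 2 * M ^ 2 * (1 / w.im))
  · intro g
    exact (φ g • w).im_pos.le
  · intro s
    have h1 : ∑ g ∈ s, (φ g • w).im ≤ ∑ g ∈ insert 1 (s.erase 1), (φ g • w).im := by
      apply Finset.sum_le_sum_of_subset_of_nonneg
      · intro g hg
        by_cases h : g = 1
        · simp [h]
        · simp [h, hg]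
      · intro g _ _
        exact (φ g • w).im_pos.le
    rw [Finset.sum_insert (by simp)] at h1
    have h2 : ∑ g ∈ s.erase 1, (φ g • w).im ≤ 2 * M ^ 2 * (1 / w.im) := by
      calc _ ≤ ∑ g ∈ s.erase 1, 1 / (φ g 1 0) ^ 2 * (1 / w.im) := by
            apply Finset.sum_le_sum
            intro g hg
            exact im_le φ M hM hT g (Finset.ne_of_mem_erase hg) w
        _ = (∑ g ∈ s.erase 1, 1 / (φ g 1 0) ^ 2) * (1 / w.im) := by rw [Finset.sum_mul]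
        _ ≤ _ := mul_le_mul_of_nonneg_right
            (sum_bound φ M hM hT _ (by simp)) (by positivity)
    linarith

end family

end Pool.Agent.MP_b90f02_an
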