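import Pool.Agent.MP_b90f02_an.Compat

set_option autoImplicit false

open Complex Set Topology Filter
open scoped Manifold ContDiff ComplexConjugate

namespace Pool.Agent.MP_b90f02

namespace Region

variable (G : Region)

/-- The charts as open partial homeomorphisms. -/
noncomputable def homeo {e : PartialEquiv G.X ℂ} (he : e ∈ G.charts) : OpenPartialHomeomorph G.X ℂ :=
  G.core.openPartialHomeomorph e he

lemma front_mem : G.front ∈ G.charts := Or.inl rfl

lemma back_mem : G.back ∈ G.charts := Or.inr (Or.inl rfl)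

lemma side_mem {J : ℝ × ℝ} (hJ : J ∈ G.side) : G.sideChart J hJ ∈ G.charts :=
  Or.inr (Or.inr ⟨J, hJ, rfl⟩)

lemma isOpen_source {e : PartialEquiv G.X ℂ} (he : e ∈ G.charts) : IsOpen e.source :=
  (G.homeo he).open_source

lemma isOpen_target {e : PartialEquiv G.X ℂ} (he : e ∈ G.charts) : IsOpen e.target :=
  (G.homeo he).open_target

lemma continuousAt_chart {e : PartialEquiv G.X ℂ} (he : e ∈ G.charts) {x : G.X}
    (hx : x ∈ e.source) : ContinuousAt e x :=
  (G.homeo he).continuousAt hx

lemma continuousAt_symm {e : PartialEquiv G.X ℂ} (he : e ∈ G.charts) {w : ℂ}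
    (hw : w ∈ e.target) : ContinuousAt e.symm w :=
  (G.homeo he).continuousAt_symm hw

lemma continuous_of_charts {α : Type*} [TopologicalSpace α] {f : G.X → α}
    (h : ∀ e ∈ G.charts, ∀ w ∈ e.target, ContinuousAt (fun v => f (e.symm v)) w) :
    Continuous f := by
  rw [continuous_iff_continuousAt]
  intro x
  have he := G.chart_mem x
  have hx := G.mem_chart_source x
  have h1 : ContinuousAt (fun y => f ((G.chart x).symm (G.chart x y))) x :=
    ContinuousAt.comp (g := fun v => f ((G.chart x).symm v)) (f := fun y => G.chart x y)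
      (h _ he _ ((G.chart x).map_source hx)) (G.continuousAt_chart he hx)
  refine h1.congr ?_
  filter_upwards [(G.isOpen_source he).mem_nhds hx] with y hy
  rw [(G.chart x).left_inv hy]

/-- The map used in the side charts to fold the back copy onto the front copy. -/
noncomputable def fold (J : ℝ × ℝ) (w : ℂ) : ℂ :=
  if rad J ^ 2 ≤ normSq (w - cen J) then w else refl J w

lemma continuousAt_fold {J : ℝ × ℝ} {w : ℂ} (hw : 0 < w.im) : ContinuousAt (fold J) w := by
  have hn := continuous_normSq_sub (cen J)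
  rcases lt_trichotomy (normSq (w - cen J)) (rad J ^ 2) with h | h | h
  · refine (continuousAt_refl (J := J) hw).congr ?_
    filter_upwards [(isOpen_lt hn continuous_const).mem_nhds h] with v hv
    unfold fold
    rw [if_neg (not_le.2 hv)]
  · have h1 : fold J w = w := by
      unfold fold
      rw [if_pos h.ge]
    have h2 : Tendsto (refl J) (𝓝 w) (𝓝 w) := by
      have := (continuousAt_refl (J := J) hw).tendsto
      rwa [refl_eq_self hw h] at this
    unfold ContinuousAt
    rw [h1]
    unfold fold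
    exact tendsto_id.if' h2
  · refine continuousAt_id.congr ?_
    filter_upwards [(isOpen_lt continuous_const hn).mem_nhds h] with v hv
    unfold fold
    rw [if_pos (le_of_lt hv)]
    rfl

lemma side_symm {J : ℝ × ℝ} (hJ : J ∈ G.side) (w : ℂ) : (G.sideChart J hJ).symm w =
    if rad J ^ 2 ≤ normSq (w - cen J) then G.pt (G.E w) true
    else G.pt (G.E (refl J w)) false := rfl

lemma side_symm_q {J : ℝ × ℝ} (hJ : J ∈ G.side) {w : ℂ} (hw : w ∈ (G.sideChart J hJ).target) :
    ((G.sideChart J hJ).symm w).q = G.E (fold J w) := by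
  rw [side_symm]
  obtain ⟨h1, h2, h3⟩ := hw
  unfold fold
  by_cases h : rad J ^ 2 ≤ normSq (w - cen J)
  · have hwY : w ∈ G.Y := (G.mem_Y_iff hJ (h2 h).2).2 ⟨h1, (h2 h).1, h⟩
    rw [if_pos h, if_pos h, G.pt_q (G.valid_true hwY)]
  · push Not at h
    have hwD : refl J w ∈ G.D := G.backPart_iff hJ ⟨⟨h1, h3 h⟩, h⟩
    rw [if_neg (not_le.2 h), if_neg (not_le.2 h), G.pt_q (G.valid_false hwD)]

lemma side_symm_front {J : ℝ × ℝ} (hJ : J ∈ G.side) {w : ℂ}
    (hw : w ∈ (G.sideChart J hJ).target) :
    ((G.sideChart J hJ).symm w).isFront = true ↔ rad J ^ 2 ≤ normSq (w - cen J) := by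
  rw [side_symm]
  obtain ⟨h1, h2, h3⟩ := hw
  by_cases h : rad J ^ 2 ≤ normSq (w - cen J)
  · have hwY : w ∈ G.Y := (G.mem_Y_iff hJ (h2 h).2).2 ⟨h1, (h2 h).1, h⟩
    rw [if_pos h, G.pt_isFront (G.valid_true hwY)]
    exact ⟨fun _ => h, fun _ => rfl⟩
  · have h' := h
    push Not at h'
    have hwD : refl J w ∈ G.D := G.backPart_iff hJ ⟨⟨h1, h3 h'⟩, h'⟩
    rw [if_neg h, G.pt_isFront (G.valid_false hwD)]
    exact ⟨fun h'' => absurd h'' (by simp), fun h'' => absurd h'' h⟩

lemma continuous_q : Continuous (fun x : G.X => x.q) := by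
  apply G.continuous_of_charts
  rintro e (rfl | rfl | ⟨J, hJ, rfl⟩) w hw
  · refine continuousAt_id.congr ?_
    filter_upwards [(G.isOpen_target G.front_mem).mem_nhds hw] with v hv
    exact (G.front.right_inv hv).symm
  · refine (continuous_conj.continuousAt).congr ?_
    filter_upwards [(G.isOpen_target G.back_mem).mem_nhds hw] with v hv
    have h1 : conj (G.back.symm v).q = v := G.back.right_inv hv
    rw [← h1, conj_conj, h1]
  · have h1 : ContinuousAt (fun v => G.E (fold J v)) w :=
      (G.continuous_E.continuousAt).comp (continuousAt_fold hw.1)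
    refine h1.congr ?_
    filter_upwards [(G.isOpen_target (G.side_mem hJ)).mem_nhds hw] with v hv
    exact (G.side_symm_q hJ hv).symm

lemma front_or_side (x : G.X) (h : x.isFront = true) :
    x ∈ G.front.source ∨ ∃ J, ∃ hJ : J ∈ G.side, x ∈ (G.sideChart J hJ).source ∧
      x.q ∉ G.E '' G.D := by
  by_cases h2 : x.q ∈ G.E '' G.D
  · exact Or.inl ⟨h, h2⟩
  · obtain ⟨J, hJ, hx⟩ := G.exists_side x h h2
    exact Or.inr ⟨J, hJ, hx, h2⟩

lemma disjoint_front_back : Disjoint G.front.source G.back.source := by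
  rw [Set.disjoint_left]
  rintro x ⟨h1, -⟩ h2
  have h2' : x.isFront = false := h2
  rw [h1] at h2'
  exact absurd h2' (by simp)

instance : T2Space G.X := by
  refine ⟨fun x y hxy => ?_⟩
  by_cases hq : x.q = y.q
  · have key : ∀ x y : G.X, x.q = y.q → x.isFront = true → y.isFront = false →
        x ∈ G.front.source ∧ y ∈ G.back.source := by
      intro x y hq hx hy
      refine ⟨⟨hx, ?_⟩, hy⟩
      obtain ⟨z, hz, h⟩ := y.mem_D hy
      exact ⟨z, hz, h.trans hq.symm⟩
    have ho1 := G.isOpen_source G.front_mem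
    have ho2 := G.isOpen_source G.back_mem
    cases hx : x.isFront <;> cases hy : y.isFront
    · exact absurd (X.ext hq (hx.trans hy.symm)) hxy
    · obtain ⟨h1, h2⟩ := key y x hq.symm hy hx
      exact ⟨_, _, ho2, ho1, h2, h1, G.disjoint_front_back.symm⟩
    · obtain ⟨h1, h2⟩ := key x y hq hx hy
      exact ⟨_, _, ho1, ho2, h1, h2, G.disjoint_front_back⟩
    · exact absurd (X.ext hq (hx.trans hy.symm)) hxy
  · obtain ⟨u, v, hu, hv, hxu, hyv, huv⟩ := t2_separation hq
    exact ⟨_, _, hu.preimage G.continuous_q, hv.preimage G.continuous_q, hxu, hyv,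
      huv.preimage _⟩

/-! ### Connectedness -/

lemma isPreconnected_D : IsPreconnected G.D := by
  obtain ⟨H, hH⟩ := G.high
  have hconv : IsPreconnected {z : ℂ | H < z.im} := by
    have : Convex ℝ {z : ℂ | H < z.im} := by
      have h1 : {z : ℂ | H < z.im} = Complex.imLm ⁻¹' (Ioi H) := by
        ext z
        simp
      rw [h1]
      exact (convex_Ioi H).linear_preimage _
    exact this.isPreconnected
  refine isPreconnected_of_forall (((H + 1 : ℝ) : ℂ) * Complex.I) ?_
  intro y hy
  have hray : IsPreconnected ((fun t : ℝ => y + t * Complex.I) '' Ici 0) := by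
    apply isPreconnected_Ici.image
    apply Continuous.continuousOn
    fun_prop
  refine ⟨{z : ℂ | H < z.im} ∪ (fun t : ℝ => y + t * Complex.I) '' Ici 0, ?_, ?_, ?_, ?_⟩
  · rintro z (hz | ⟨t, ht, rfl⟩)
    · exact hH z hz
    · have ht' : 0 ≤ t := ht
      refine ⟨?_, G.V_up y hy.2.1 hy.1 t ht', fun J hJ k => ?_⟩
      · simp
        linarith [hy.1]
      · have h1 := hy.2.2 J hJ k
        rw [normSq_sub_real] at h1 ⊢
        have h2 : 0 < y.im := hy.1
        simp
        nlinarith
  · left
    simp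
  · right
    exact ⟨0, by simp, by simp⟩
  · refine IsPreconnected.union (y + (max 0 (H + 1 - y.im) : ℝ) * Complex.I) ?_ ?_ hconv hray
    · have := le_max_right 0 (H + 1 - y.im)
      simp only [mem_ofPred_eq, add_im, mul_im, ofReal_re, I_im, mul_one, ofReal_im, I_re,
        mul_zero, add_zero]
      linarith
    · exact ⟨_, mem_Ici.2 (le_max_left _ _), rfl⟩

lemma isPreconnected_frontPart : IsPreconnected ((fun z => G.pt (G.E z) true) '' G.D) := by
  refine G.isPreconnected_D.image _ (fun z hz => ContinuousAt.continuousWithinAt ?_)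
  have h1 : ContinuousAt G.front.symm (G.E z) := G.continuousAt_symm G.front_mem ⟨z, hz, rfl⟩
  exact ContinuousAt.comp (g := G.front.symm) (f := G.E) h1 G.continuous_E.continuousAt

lemma isPreconnected_backPart : IsPreconnected ((fun z => G.pt (G.E z) false) '' G.D) := by
  refine G.isPreconnected_D.image _ (fun z hz => ContinuousAt.continuousWithinAt ?_)
  have h0 : conj (G.E z) ∈ G.back.target := by
    refine ⟨z, hz, ?_⟩
    rw [conj_conj]
  have h1 : ContinuousAt G.back.symm (conj (G.E z)) := G.continuousAt_symm G.back_mem h0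
  have h2 : ContinuousAt (fun z => G.back.symm (conj (G.E z))) z :=
    ContinuousAt.comp (g := G.back.symm) (f := fun z => conj (G.E z)) h1
      (continuous_conj.comp G.continuous_E).continuousAt
  refine h2.congr (Eventually.of_forall fun w => ?_)
  change G.pt (conj (conj (G.E w))) false = _
  rw [conj_conj]

lemma front_eq (x : G.X) (h : x ∈ G.front.source) :
    x ∈ (fun z => G.pt (G.E z) true) '' G.D := by
  obtain ⟨h1, z, hz, h2⟩ := h
  exact ⟨z, hz, G.pt_eq x h2.symm h1⟩

lemma back_eq (x : G.X) (h : x.isFront = false) :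
    x ∈ (fun z => G.pt (G.E z) false) '' G.D := by
  obtain ⟨z, hz, h2⟩ := x.mem_D h
  exact ⟨z, hz, G.pt_eq x h2.symm h⟩

lemma side_closure {J : ℝ × ℝ} (hJ : J ∈ G.side) {x : G.X} (hx : x ∈ (G.sideChart J hJ).source)
    (hf : x.isFront = true) (hq : x.q ∉ G.E '' G.D) :
    x ∈ closure ((fun z => G.pt (G.E z) true) '' G.D) ∧
    x ∈ closure ((fun z => G.pt (G.E z) false) '' G.D) := by
  have hr := G.rad_pos hJ
  set e := G.sideChart J hJ with he
  have hem : e ∈ G.charts := G.side_mem hJ
  set w := e x with hw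
  have hwt : w ∈ e.target := e.map_source hx
  have hwx : e.symm w = x := e.left_inv hx
  have hopen := G.isOpen_target hem
  have h1 : rad J ^ 2 ≤ normSq (w - cen J) := by
    rw [← G.side_symm_front hJ hwt, ← he, hwx]
    exact hf
  have h2 : normSq (w - cen J) = rad J ^ 2 := by
    by_contra hne
    have h3 : rad J ^ 2 < normSq (w - cen J) := lt_of_le_of_ne h1 (Ne.symm hne)
    obtain ⟨a1, a2, a3⟩ := hwt
    have h4 : w ∈ G.D := (G.mem_D_iff hJ (a2 h1).2).2 ⟨a1, (a2 h1).1, h3⟩
    apply hq
    refine ⟨w, h4, ?_⟩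
    rw [← hwx, he, G.side_symm_q hJ ⟨a1, a2, a3⟩]
    unfold fold
    rw [if_pos h1]
  -- the curve
  set γ : ℝ → ℂ := fun t => cen J + (1 + t) * (w - cen J) with hγ
  have hγ0 : γ 0 = w := by
    simp [hγ]
  have hγc : Continuous γ := by
    simp only [hγ]
    fun_prop
  have hγn : ∀ t, normSq (γ t - cen J) = (1 + t) ^ 2 * rad J ^ 2 := by
    intro t
    have : γ t - cen J = ((1 + t : ℝ) : ℂ) * (w - cen J) := by
      simp only [hγ]
      push_cast
      ring
    rw [this, map_mul, normSq_ofReal, h2]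
    ring
  have hcomp : Tendsto (fun t => e.symm (γ t)) (𝓝 0) (𝓝 x) := by
    have h3 : ContinuousAt e.symm (γ 0) := by
      rw [hγ0]
      exact G.continuousAt_symm hem hwt
    have h4 : ContinuousAt (fun t => e.symm (γ t)) 0 := ContinuousAt.comp (g := e.symm) h3
      hγc.continuousAt
    have h5 := h4.tendsto
    simp only [hγ0, hwx] at h5
    exact h5
  have hev : ∀ᶠ t in 𝓝 (0 : ℝ), γ t ∈ e.target := by
    have : γ ⁻¹' e.target ∈ 𝓝 (0 : ℝ) := by
      apply (hopen.preimage hγc).mem_nhds
      rw [mem_preimage, hγ0]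
      exact hwt
    exact this
  have hr2 : 0 < rad J ^ 2 := by positivity
  constructor
  · have h6 : Tendsto (fun t => e.symm (γ t)) (𝓝[>] 0) (𝓝 x) :=
      hcomp.mono_left nhdsWithin_le_nhds
    refine mem_closure_of_tendsto h6 ?_
    filter_upwards [hev.filter_mono nhdsWithin_le_nhds, self_mem_nhdsWithin] with t ht ht0
    have ht0' : 0 < t := ht0
    have h7 : rad J ^ 2 < normSq (γ t - cen J) := by
      rw [hγn]
      have : 1 < (1 + t) ^ 2 := by nlinarith
      nlinarith
    obtain ⟨a1, a2, a3⟩ := ht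
    have h8 : γ t ∈ G.D := (G.mem_D_iff hJ (a2 h7.le).2).2 ⟨a1, (a2 h7.le).1, h7⟩
    refine ⟨γ t, h8, ?_⟩
    rw [he, side_symm, if_pos h7.le]
  · have h6 : Tendsto (fun t => e.symm (γ t)) (𝓝[<] 0) (𝓝 x) :=
      hcomp.mono_left nhdsWithin_le_nhds
    refine mem_closure_of_tendsto h6 ?_
    have hm1 : ∀ᶠ t in 𝓝[<] (0 : ℝ), -1 < t := by
      apply Filter.Eventually.filter_mono nhdsWithin_le_nhds
      exact (isOpen_lt continuous_const continuous_id).mem_nhds (by simp)
    filter_upwards [hev.filter_mono nhdsWithin_le_nhds, self_mem_nhdsWithin, hm1] with t ht ht0 ht1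
    have ht0' : t < 0 := ht0
    have h7 : normSq (γ t - cen J) < rad J ^ 2 := by
      rw [hγn]
      have : (1 + t) ^ 2 < 1 := by nlinarith
      nlinarith
    obtain ⟨a1, a2, a3⟩ := ht
    have h8 : refl J (γ t) ∈ G.D := G.backPart_iff hJ ⟨⟨a1, a3 h7⟩, h7⟩
    refine ⟨refl J (γ t), h8, ?_⟩
    rw [he, side_symm, if_neg (not_le.2 h7)]

lemma connectedSpace (hside : ∃ z ∈ G.Y, z ∉ G.D) : ConnectedSpace G.X := by
  have hA := G.isPreconnected_frontPart.closure
  have hB := G.isPreconnected_backPart.closure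
  obtain ⟨z, hzY, hzD⟩ := hside
  have hv := G.valid_true hzY
  set x : G.X := G.pt (G.E z) true with hx
  have hxf : x.isFront = true := G.pt_isFront hv
  have hxq : x.q = G.E z := G.pt_q hv
  have hxq' : x.q ∉ G.E '' G.D := by
    rintro ⟨w, hw, h⟩
    exact hzD (G.mem_D_of_E (hxq.symm.trans h.symm) hw)
  obtain ⟨J, hJ, hxJ⟩ := G.exists_side x hxf hxq'
  obtain ⟨h1, h2⟩ := G.side_closure hJ hxJ hxf hxq'
  have hU := IsPreconnected.union x h1 h2 hA hB
  have huniv : closure ((fun z => G.pt (G.E z) true) '' G.D) ∪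
      closure ((fun z => G.pt (G.E z) false) '' G.D) = univ := by
    rw [eq_univ_iff_forall]
    intro y
    cases hy : y.isFront
    · exact Or.inr (subset_closure (G.back_eq y hy))
    · rcases G.front_or_side y hy with h | ⟨K, hK, hyK, hyq⟩
      · exact Or.inl (subset_closure (G.front_eq y h))
      · exact Or.inl (G.side_closure hK hyK hy hyq).1
  rw [huniv] at hU
  exact { isPreconnected_univ := hU, toNonempty := ⟨x⟩ }

end Region

end Pool.Agent.MP_b90f02
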